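import Pool.Agent.H92.PG.Bat

/-!
# ATM: Boolean values of the atoms
-/

set_option autoImplicit false

universe u v

open Cardinal Order

namespace PG

open PK BV

variable {D : Dat.{u}} {X B : Type u} [CompleteBooleanAlgebra B] {e : Pc D × Fp X → B}

/-- If `p.f n α` is defined take `r = p`. If it is not defined and `n < p.len` or `α ∉ p.a n`, let
`r` be `p` with `r.f n α = some γ'` for any `γ' ≠ γ` (`D.Kt n` is infinite). If `p.len ≤ n` and
`α ∈ p.a n`, choose `h ∈ p.X n` with `h α ≠ γ` (`D.fine n {α} {γ}`) and take `p.add s (n + 1)` with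
`s n = h` and `s j ∈ p.X j` for the other `j` (`add_le`). -/
theorem exists_other (p : Pc D) (n : ℕ) (α : D.L) (γ : D.Kt n) (h : p.f n α ≠ some γ) :
    ∃ r ≤ p, ∃ γ', γ' ≠ γ ∧ r.f n α = some γ' := by
  classical
  by_cases h0 : p.f n α = none
  swap
  · obtain ⟨γ', hγ'⟩ := Option.ne_none_iff_exists'.1 h0
    refine ⟨p, le_rfl, γ', ?_, hγ'⟩
    rintro rfl
    exact h hγ'
  by_cases h1 : p.len ≤ n ∧ α ∈ p.a n
  · have h2 : ({g | Set.InjOn g ({α} : Set D.L) ∧ ∀ β ∈ ({α} : Set D.L), g β ∉ ({γ} : Set (D.Kt n))} :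
        Set (D.L → D.Kt n)) ∈ D.E n := by
      apply D.fine n {α} {γ}
      · rw [mk_singleton]
        exact one_lt_aleph0.trans (D.unc n)
      · rw [mk_singleton]
        exact one_lt_aleph0.trans (D.unc n)
    obtain ⟨g, hg1, hg2⟩ := Filter.nonempty_of_mem (Filter.inter_mem (p.hX n) h2)
    have h3 : ∀ j, ∃ s : D.L → D.Kt j, s ∈ p.X j := fun j => Filter.nonempty_of_mem (p.hX j)
    choose s0 hs0 using h3
    have h4 : p.add (Function.update s0 n g) (n + 1) ≤ p := by
      apply add_le
      intro j _ _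
      by_cases hj : j = n
      · subst hj
        rw [Function.update_self]
        exact hg1
      · rw [Function.update_of_ne hj]
        exact hs0 j
    refine ⟨_, h4, g α, ?_, ?_⟩
    · intro h5
      exact hg2.2 α rfl h5
    · show (if p.len ≤ n ∧ n < n + 1 ∧ α ∈ p.a n then some (Function.update s0 n g n α)
        else p.f n α) = some (g α)
      rw [if_pos ⟨h1.1, Nat.lt_succ_self n, h1.2⟩, Function.update_self]
  · obtain ⟨γ', hγ'⟩ := exists_ne γ
    refine ⟨{ len := p.len
              f := Function.update p.f n (Function.update (p.f n) α (some γ'))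
              a := p.a
              X := p.X
              hf := ?_
              ha := p.ha
              hX := p.hX
              hdep := p.hdep
              hdis := ?_ }, ?_, γ', hγ', ?_⟩
    · intro j
      by_cases hj : j = n
      · subst hj
        rw [Function.update_self]
        have h5 : {β | Function.update (p.f j) α (some γ') β ≠ none} ⊆
            {α} ∪ {β | p.f j β ≠ none} := by
          intro β hβ
          by_cases hβα : β = α
          · exact Or.inl hβα
          · right
            have h6 : Function.update (p.f j) α (some γ') β ≠ none := hβ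
            rw [Function.update_of_ne hβα] at h6
            exact h6
        refine (mk_le_mk_of_subset h5).trans ((mk_union_le _ _).trans ?_)
        rw [mk_singleton]
        exact (add_le_add (one_le_aleph0.trans D.aleph0_lt_nu.le) (p.hf j)).trans
          (add_eq_self D.aleph0_lt_nu.le).le
      · rw [Function.update_of_ne hj]
        exact p.hf j
    · intro j hj β hβ
      by_cases hjn : j = n
      · subst hjn
        rw [Function.update_self]
        by_cases hβα : β = α
        · subst hβα
          exact absurd ⟨hj, hβ⟩ h1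
        · rw [Function.update_of_ne hβα]
          exact p.hdis j hj β hβ
      · rw [Function.update_of_ne hjn]
        exact p.hdis j hj β hβ
    · refine ⟨le_rfl, ?_, fun j h5 h6 => absurd h6 (not_lt.2 h5), fun j _ =>
        ⟨subset_rfl, subset_rfl⟩⟩
      intro j β δ hβ
      show Function.update p.f n (Function.update (p.f n) α (some γ')) j β = some δ
      by_cases hjn : j = n
      · subst hjn
        rw [Function.update_self]
        by_cases hβα : β = α
        · subst hβα
          rw [h0] at hβ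
          exact absurd hβ.symm (Option.some_ne_none _)
        · rw [Function.update_of_ne hβα]
          exact hβ
      · rw [Function.update_of_ne hjn]
        exact hβ
    · show Function.update p.f n (Function.update (p.f n) α (some γ')) n α = some γ'
      rw [Function.update_self, Function.update_self]

theorem le_av_inl {p : Pc D × Fp X} {n : ℕ} {α : D.L} {γ : D.Kt n} (h : p.1.f n α = some γ) :
    e p ≤ av e (Sum.inl ⟨n, α, γ⟩) :=
  le_iSup (fun q : {q : Pc D × Fp X // q.1.f n α = some γ} => e q.1) ⟨p, h⟩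

theorem le_av_inr {p : Pc D × Fp X} {x : X} {b : Bool} (h : p.2.1 x = some b) :
    e p ≤ av e (Sum.inr (x, b)) :=
  le_iSup (fun q : {q : Pc D × Fp X // q.2.1 x = some b} => e q.1) ⟨p, h⟩

/-- `he.compat`, `inf_iSup_eq` -/
theorem inf_av_inl (he : DenseEmb (Pc D × Fp X) B e) {p : Pc D × Fp X} {n : ℕ} {α : D.L}
    {γ γ' : D.Kt n} (h : p.1.f n α = some γ') (hne : γ' ≠ γ) :
    e p ⊓ av e (Sum.inl ⟨n, α, γ⟩) = ⊥ := by
  show e p ⊓ (⨆ q : {q : Pc D × Fp X // q.1.f n α = some γ}, e q.1) = ⊥
  rw [inf_iSup_eq]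
  apply iSup_eq_bot.2
  intro q
  by_contra hcon
  obtain ⟨r, hr1, hr2⟩ := he.compat _ _ hcon
  have h1 := (Pc.le_def.1 hr1.1).2.1 n α γ' h
  have h2 := (Pc.le_def.1 hr2.1).2.1 n α γ q.2
  rw [h1] at h2
  exact hne (Option.some_injective _ h2)

theorem inf_av_inr (he : DenseEmb (Pc D × Fp X) B e) {p : Pc D × Fp X} {x : X} {b b' : Bool}
    (h : p.2.1 x = some b') (hne : b' ≠ b) : e p ⊓ av e (Sum.inr (x, b)) = ⊥ := by
  show e p ⊓ (⨆ q : {q : Pc D × Fp X // q.2.1 x = some b}, e q.1) = ⊥
  rw [inf_iSup_eq]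
  apply iSup_eq_bot.2
  intro q
  by_contra hcon
  obtain ⟨r, hr1, hr2⟩ := he.compat _ _ hcon
  have h1 := hr1.2 x b' h
  have h2 := hr2.2 x b q.2
  rw [h1] at h2
  exact hne (Option.some_injective _ h2)

/-- `exists_other`, `inf_av_inl` -/
theorem le_av_inl_iff (he : DenseEmb (Pc D × Fp X) B e) {p : Pc D × Fp X} {n : ℕ} {α : D.L}
    {γ : D.Kt n} : e p ≤ av e (Sum.inl ⟨n, α, γ⟩) ↔ p.1.f n α = some γ := by
  constructor
  · intro h
    by_contra hcon
    obtain ⟨r, hr, γ', hne, hγ'⟩ := exists_other p.1 n α γ hcon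
    have h1 : e (r, p.2) ≤ e p := he.mono _ _ ⟨hr, le_rfl⟩
    have h2 := inf_av_inl he (p := (r, p.2)) (γ := γ) hγ' hne
    rw [inf_eq_left.2 (h1.trans h)] at h2
    exact he.ne_bot _ h2
  · exact le_av_inl

/-- `Fp.exists_ext` with the value `!b` -/
theorem le_av_inr_iff (he : DenseEmb (Pc D × Fp X) B e) {p : Pc D × Fp X} {x : X} {b : Bool} :
    e p ≤ av e (Sum.inr (x, b)) ↔ p.2.1 x = some b := by
  constructor
  · intro h
    by_contra hcon
    have h0 : ∃ q ≤ p.2, ∃ b', b' ≠ b ∧ q.1 x = some b' := by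
      by_cases h1 : p.2.1 x = none
      · obtain ⟨q, hq1, hq2, _⟩ := Fp.exists_ext p.2 x (!b) h1
        refine ⟨q, hq1, !b, ?_, hq2⟩
        cases b <;> simp
      · obtain ⟨b', hb'⟩ := Option.ne_none_iff_exists'.1 h1
        refine ⟨p.2, le_rfl, b', ?_, hb'⟩
        rintro rfl
        exact hcon hb'
    obtain ⟨q, hq, b', hne, hb'⟩ := h0
    have h1 : e (p.1, q) ≤ e p := he.mono _ _ ⟨le_rfl, hq⟩
    have h2 := inf_av_inr he (p := (p.1, q)) (b := b) hb' hne
    rw [inf_eq_left.2 (h1.trans h)] at h2
    exact he.ne_bot _ h2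
  · exact le_av_inr

end PG
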