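import Pool.Agent.H92.PG.Base

/-!
# HMP: homogeneous products
-/

set_option autoImplicit false

universe u v

open Cardinal Order

namespace PG

/-- functions with few values are constant on a large set (see `PK.IsMeas.const`) -/
theorem kc_const {κ : Cardinal.{u}} {Y Z : Type u} {V : Ultrafilter Y}
    (hV : KComplete κ (V : Filter Y)) (hZ : #Z < κ) (F : Y → Z) : ∃ z, {y | F y = z} ∈ V := by
  by_contra hcon
  push Not at hcon
  have h1 := hV Z (fun z => {y | F y = z}ᶜ) hZ (fun z => Ultrafilter.compl_mem_iff_notMem.mpr (hcon z))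
  have h2 : (⋂ z, {y | F y = z}ᶜ : Set Y) = ∅ := by
    ext y
    simp
  rw [h2] at h1
  exact V.neBot.ne (Filter.empty_mem_iff_bot.mp h1)

section hmp

variable (Y : ℕ → Type u) (V : ∀ n, Ultrafilter (Y n)) {Z : Type u} [Nonempty Z] (F : (∀ n, Y n) → Z)

open Classical in
/-- the limit of a function along the ultrafilter -/
noncomputable def hmpLim (n : ℕ) (g : Y n → Z) : Z :=
  if h : ∃ z, {y | g y = z} ∈ V n then h.choose else Classical.arbitrary Z

lemma hmpLim_spec (n : ℕ) (g : Y n → Z) (h : ∃ z, {y | g y = z} ∈ V n) :
    {y | g y = hmpLim Y V n g} ∈ V n := by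
  unfold hmpLim
  rw [dif_pos h]
  exact h.choose_spec

/-- integrating out the last `k` coordinates -/
noncomputable def hmpG (m : ℕ) : ℕ → (∀ n, Y n) → Z
  | 0 => F
  | k + 1 => fun s => hmpLim Y V (m - (k + 1)) (fun y => hmpG m k (Function.update s (m - (k + 1)) y))

lemma hmpG_dep (l m : ℕ) (hF : ∀ s s' : ∀ n, Y n, (∀ n, l ≤ n → n < m → s n = s' n) → F s = F s') (k : ℕ) :
    l + k ≤ m → ∀ s s' : ∀ n, Y n, (∀ n, l ≤ n → n < m - k → s n = s' n) →
      hmpG Y V F m k s = hmpG Y V F m k s' := by
  induction k with
  | zero => exact fun _ s s' h => hF s s' h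
  | succ k ih =>
    intro hk s s' h
    simp only [hmpG]
    congr 1
    funext y
    apply ih (by omega)
    intro n h1 h2
    by_cases hn : n = m - (k + 1)
    · subst hn
      rw [Function.update_self, Function.update_self]
    · rw [Function.update_of_ne hn, Function.update_of_ne hn]
      exact h n h1 (by omega)

end hmp

/-- Let `V n` be a `K n`-complete ultrafilter on `Y n`, `#(∏ j < n, Y j) < K n`, and let
`F m`, for every `m`, be a function with values in `Z`, `#Z < K l`, which depends only on the
coordinates `n` with `l ≤ n < m`. Then there are sets `X n ∈ V n` such that every `F m` is constant on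
the set of the `s` with `s n ∈ X n` for `l ≤ n < m`.

Define `G m k : (∀ n, Y n) → Z` for `k ≤ m - l`: `G m 0 = F m`, and `G m (k + 1) s` is the constant
value (`kc_const` for `V n`, `n = m - (k + 1) ≥ l`, `#Z < K l ≤ K n`) of
`y ↦ G m k (Function.update s n y)`; `G m k` depends only on the coordinates in `[l, m - k)`. For
`n ≥ l` let `X n` be the intersection of the sets
`{y | G m (m - n - 1) (Function.update s n y) = G m (m - n) s}` over all `m > n` and over all
`s`; only the coordinates `< n` of `s` matter, so this is an intersection of less than `K n`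
sets. For `n < l` let `X n = univ`. For `s` with `s n ∈ X n` for `l ≤ n < m` we get
`F m s = G m 0 s = G m 1 s = ... = G m (m - l) s`, and `G m (m - l)` depends on no coordinate. -/
theorem exists_hmp (Y : ℕ → Type u) (hne : ∀ n, Nonempty (Y n)) (V : ∀ n, Ultrafilter (Y n))
    (K : ℕ → Cardinal.{u}) (hK : Monotone K) (hunc : ∀ n, ℵ₀ < K n)
    (hV : ∀ n, KComplete (K n) (V n : Filter (Y n))) (hY : ∀ n, #(∀ j : Fin n, Y j) < K n)
    (l : ℕ) {Z : Type u} (hZ : #Z < K l) (F : ℕ → (∀ n, Y n) → Z)
    (hF : ∀ m, ∀ s s' : ∀ n, Y n, (∀ n, l ≤ n → n < m → s n = s' n) → F m s = F m s') :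
    ∃ X : ∀ n, Set (Y n), (∀ n, X n ∈ V n) ∧ ∀ m, ∀ s s' : ∀ n, Y n,
      (∀ n, l ≤ n → n < m → s n ∈ X n ∧ s' n ∈ X n) → F m s = F m s' := by
  classical
  let y0 : ∀ n, Y n := fun n => Classical.choice (hne n)
  have hZn : Nonempty Z := ⟨F 0 y0⟩
  -- extension of a finite sequence
  let ext : ∀ n, (∀ j : Fin n, Y j) → ∀ n, Y n := fun n t j => if h : j < n then t ⟨j, h⟩ else y0 j
  have hext : ∀ n (s : ∀ n, Y n) j, j < n → ext n (fun i => s i) j = s j := by
    intro n s j hj
    simp only [ext]
    rw [dif_pos hj]
  let A : ∀ n, ULift.{u} ℕ × (∀ j : Fin n, Y j) → Set (Y n) := fun n p =>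
    {y | n < p.1.down → l ≤ n → hmpG Y V (F p.1.down) p.1.down (p.1.down - n - 1) (Function.update (ext n p.2) n y) =
      hmpG Y V (F p.1.down) p.1.down (p.1.down - n) (ext n p.2)}
  refine ⟨fun n => ⋂ p, A n p, ?_, ?_⟩
  · intro n
    apply hV n
    · rw [mk_prod]
      simp only [mk_eq_aleph0, lift_id]
      exact mul_lt_of_lt (hunc n).le (hunc n) (hY n)
    · rintro ⟨⟨m⟩, t⟩
      simp only [A]
      by_cases hc : n < m ∧ l ≤ n
      · have h1 : ∃ z, {y | hmpG Y V (F m) m (m - n - 1) (Function.update (ext n t) n y) = z} ∈ V n :=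
          kc_const (hV n) (hZ.trans_le (hK hc.2)) _
        have h2 := hmpLim_spec Y V n _ h1
        refine Filter.mem_of_superset h2 ?_
        intro y hy _ _
        have h3 : m - n = (m - n - 1) + 1 := by omega
        have h4 : m - (m - n - 1 + 1) = n := by omega
        rw [Set.mem_ofPred_eq] at hy
        rw [hy]
        rw [h3]
        simp only [hmpG]
        rw [h4]
        simp
      · have h1 : {y : Y n | n < m → l ≤ n → hmpG Y V (F m) m (m - n - 1) (Function.update (ext n t) n y) =
            hmpG Y V (F m) m (m - n) (ext n t)} = Set.univ := by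
          ext y
          simp only [Set.mem_ofPred_eq, Set.mem_univ, iff_true]
          intro h1 h2
          exact absurd ⟨h1, h2⟩ hc
        rw [h1]
        exact Filter.univ_mem
  · intro m s s' h
    by_cases hlm : l ≤ m
    · have key : ∀ s : ∀ n, Y n, (∀ n, l ≤ n → n < m → s n ∈ ⋂ p, A n p) → ∀ k, l + k ≤ m →
          hmpG Y V (F m) m k s = F m s := by
        intro s hs k
        induction k with
        | zero => intro _; rfl
        | succ k ih =>
          intro hk
          rw [← ih (by omega)]
          have hn : l ≤ m - (k + 1) := by omega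
          have h1 := Set.mem_iInter.mp (hs (m - (k + 1)) hn (by omega)) (⟨m⟩, fun i => s i)
          simp only [A, Set.mem_ofPred_eq] at h1
          have h2 := h1 (by omega) hn
          have e1 : m - (m - (k + 1)) - 1 = k := by omega
          have e2 : m - (m - (k + 1)) = k + 1 := by omega
          rw [e1, e2] at h2
          have h3 := hmpG_dep Y V (F m) l m (hF m) k (by omega)
            (Function.update (ext (m - (k + 1)) (fun i => s i)) (m - (k + 1)) (s (m - (k + 1)))) s (by
              intro n hn1 hn2
              by_cases hn3 : n = m - (k + 1)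
              · subst hn3
                rw [Function.update_self]
              · rw [Function.update_of_ne hn3]
                exact hext _ s n (by omega))
          have h4 := hmpG_dep Y V (F m) l m (hF m) (k + 1) (by omega)
            (ext (m - (k + 1)) (fun i => s i)) s (by
              intro n hn1 hn2
              exact hext _ s n (by omega))
          rw [← h3, ← h4, h2]
      rw [← key s (fun n h1 h2 => (h n h1 h2).1) (m - l) (by omega),
        ← key s' (fun n h1 h2 => (h n h1 h2).2) (m - l) (by omega)]
      apply hmpG_dep Y V (F m) l m (hF m) (m - l) (by omega)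
      intro n h1 h2
      omega
    · apply hF m
      intro n h1 h2
      omega

end PG
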