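import Pool.Agent.H92.PG.Fus
import Pool.Agent.H92.PG.Hmp

/-!
# AVA: countably many values
-/

set_option autoImplicit false

universe u v

open Cardinal Order

namespace PG

open PK BV

variable {D : Dat.{u}} {X B : Type u} [CompleteBooleanAlgebra B] {e : Pc D × Fp X → B}

open Classical in
/-- extension of a function on `a` -/
noncomputable def avaExt (D : Dat.{u}) (a : ℕ → Set D.L) (y : ∀ n, (a n → D.Kt n)) :
    ∀ n, D.L → D.Kt n :=
  fun n α => if h : α ∈ a n then y n ⟨α, h⟩ else Classical.arbitrary _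

theorem avaExt_of_mem (a : ℕ → Set D.L) (y : ∀ n, (a n → D.Kt n)) {n : ℕ} {α : D.L}
    (h : α ∈ a n) : avaExt D a y n α = y n ⟨α, h⟩ := by
  unfold avaExt
  rw [dif_pos h]

/-- shrink the measure one sets above the length -/
noncomputable def avaShr (P : Pc D) (W : ∀ n, Set (P.a n → D.Kt n))
    (hW : ∀ n, {h : D.L → D.Kt n | (fun α : P.a n => h α) ∈ W n} ∈ D.E n) : Pc D where
  len := P.len
  f := P.f
  a := P.a
  X n := {h | h ∈ P.X n ∧ (P.len ≤ n → (fun α : P.a n => h α) ∈ W n)}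
  hf := P.hf
  ha := P.ha
  hX n := by
    refine Filter.mem_of_superset (Filter.inter_mem (P.hX n) (hW n)) ?_
    rintro h ⟨h1, h2⟩
    exact ⟨h1, fun _ => h2⟩
  hdep n h h' hh h1 := by
    refine ⟨P.hdep n h h' hh h1.1, fun hn => ?_⟩
    have h2 : (fun α : P.a n => h' α) = fun α : P.a n => h α := by
      funext α
      exact (hh α α.2).symm
    rw [h2]
    exact h1.2 hn
  hdis := P.hdis

theorem avaShr_fr (P : Pc D) (W : ∀ n, Set (P.a n → D.Kt n))
    (hW : ∀ n, {h : D.L → D.Kt n | (fun α : P.a n => h α) ∈ W n} ∈ D.E n) :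
    Pc.Fr P.len (avaShr P W hW) P := by
  refine ⟨rfl, fun _ _ _ h => h, fun n hn => ⟨rfl, ?_⟩, fun n _ => ⟨subset_rfl, ?_⟩⟩
  · refine Set.Subset.antisymm (fun h h1 => h1.1) (fun h h1 => ⟨h1, fun h2 => ?_⟩)
    exact absurd hn (not_lt.mpr h2)
  · exact fun h h1 => h1.1

theorem avaShr_add (P : Pc D) (W : ∀ n, Set (P.a n → D.Kt n))
    (hW : ∀ n, {h : D.L → D.Kt n | (fun α : P.a n => h α) ∈ W n} ∈ D.E n)
    (s : ∀ n, D.L → D.Kt n) (m : ℕ) : (avaShr P W hW).add s m ≤ P.add s m := by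
  refine Pc.le_def.mpr ⟨le_rfl, fun _ _ _ h => h, fun n h1 h2 => ?_, fun n _ => ⟨subset_rfl, ?_⟩⟩
  · exact absurd h2 (not_lt.mpr h1)
  · exact fun h h1 => h1.1

/-- By `exists_fus` (with `β m = PUnit`) we may assume that `Vals e R (p.add s m)` is countable for
all `m ≥ p.len` and all stems `s`. Let `Y n = (p.a n → D.Kt n)`, `V n` the image of `D.E n` under the
restriction map (it is `K n`-complete), `Z = Set χ.ord.ToType` (cardinality `2 ^ χ < K p.len`),
`F m y = {α | α.toOrd ∈ Vals e R (p.add s m)}` where `s n` is an extension of `y n` to `L`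
(`add_congr`: for `m > p.len` it depends only on the coordinates in `[p.len, m)`). Take `X` from
`exists_hmp` (`mk_stems`) with `l = p.len` and let `r` be `p` with
`r.X n = {h ∈ p.X n | the restriction of h to p.a n belongs to X n}`. If `ξ ∈ AVals e R r` then
`ξ < χ.ord` (`hR'`: otherwise `e (r', q) ≤ ⊥`) and by `avals_stem` there are `m`, `s` with
`ξ ∈ Vals e R (r.add s m)`, `s n ∈ r.X n` for `r.len ≤ n < m`; `r.add s m ≤ p.add s m` has the same
length, so `ξ` belongs to the set which corresponds to `F m y`, `y` the restriction of `s`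
(`m ≥ p.len`), and this set depends only on `m`: it is the set `F m (y0 m)` for a fixed `y0 m` with
`y0 m n ∈ X n`. So `AVals e R r` is contained in a countable union of countable sets. -/
theorem exists_avals (he : DenseEmb (Pc D × Fp X) B e) {R : Ordinal.{u} → B} (hR : Disj R)
    (p : Pc D) {χ : Cardinal.{u}} (hχ : χ < D.K p.len) (hR' : ∀ ξ, χ.ord ≤ ξ → R ξ = ⊥) :
    ∃ r, Pc.Fr p.len r p ∧ (AVals e R r).Countable := by
  obtain ⟨P, hPp, hP⟩ := exists_fus he p (fun _ => PUnit.{u + 1})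
    (fun m => by
      rw [Cardinal.mk_punit]
      exact Cardinal.one_lt_aleph0.trans (D.unc m))
    (fun _ _ => R) (fun _ _ => hR)
  have hlen : P.len = p.len := hPp.1
  obtain ⟨V, hV⟩ : ∃ V : ∀ n, Ultrafilter (P.a n → D.Kt n),
      V = fun n => (D.E n).map (fun (h : D.L → D.Kt n) (α : P.a n) => h α) := ⟨_, rfl⟩
  obtain ⟨F, hF⟩ : ∃ F : ℕ → (∀ n, (P.a n → D.Kt n)) → Set χ.ord.ToType,
      F = fun m y => {α | ((Ordinal.ToType.mk.symm α : Set.Iio χ.ord) : Ordinal.{u}) ∈
        Vals e R (P.add (avaExt D P.a y) m)} := ⟨_, rfl⟩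
  obtain ⟨W, hW1, hW2⟩ := exists_hmp (fun n => (P.a n → D.Kt n)) (fun n => inferInstance) V D.K
    D.mono.monotone D.unc
    (by
      intro n ι A hι hA
      rw [hV] at hA ⊢
      have h1 : ∀ i, ((fun (h : D.L → D.Kt n) (α : P.a n) => h α) ⁻¹' (A i)) ∈
          (D.E n : Filter (D.L → D.Kt n)) := hA
      have h2 := D.compl n ι _ hι h1
      rw [← Set.preimage_iInter] at h2
      exact h2)
    (fun n => mk_stems P.a P.ha n) p.len (Z := Set χ.ord.ToType)
    (by
      rw [Cardinal.mk_set, Cardinal.mk_ord_toType]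
      exact D.lim _ _ hχ)
    F
    (by
      intro m s s' hs
      rw [hF]
      have h1 : P.add (avaExt D P.a s) m = P.add (avaExt D P.a s') m := by
        refine add_congr P m ?_
        intro n hn hn' α hα
        rw [avaExt_of_mem P.a s hα, avaExt_of_mem P.a s' hα, hs n (hlen ▸ hn) hn']
      simp only [h1])
  have hWE : ∀ n, {h : D.L → D.Kt n | (fun α : P.a n => h α) ∈ W n} ∈ D.E n := by
    intro n
    have h1 := hW1 n
    rw [hV] at h1
    exact h1
  choose y0 hy0 using fun n => Ultrafilter.nonempty_of_mem (hW1 n)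
  refine ⟨avaShr P W hWE, ?_, ?_⟩
  · have h1 := avaShr_fr P W hWE
    rw [hlen] at h1
    exact h1.trans hPp
  · refine Set.Countable.mono ?_ (Set.Countable.biUnion (Set.to_countable {m : ℕ | p.len ≤ m})
      (fun m hm => hP m hm PUnit.unit (avaExt D P.a y0)))
    intro ξ hξ
    have hξχ : ξ < χ.ord := by
      by_contra h1
      obtain ⟨r', -, q, hq⟩ := hξ
      rw [hR' ξ (not_lt.mp h1)] at hq
      exact he.ne_bot _ (le_bot_iff.mp hq)
    obtain ⟨m, hm0, hm⟩ := avals_stem he hξ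
    obtain ⟨s, hs, hξs⟩ := hm m le_rfl
    have hm0' : p.len ≤ m := hlen ▸ hm0
    have h1 : ξ ∈ Vals e R (P.add s m) := vals_mono (avaShr_add P W hWE s m) rfl hξs
    have h2 : P.add s m = P.add (avaExt D P.a (fun n (α : P.a n) => s n α)) m := by
      refine add_congr P m ?_
      intro n _ _ α hα
      rw [avaExt_of_mem P.a _ hα]
    have h3 : F m (fun n (α : P.a n) => s n α) = F m y0 := by
      refine hW2 m _ _ fun n hn hn' => ⟨?_, hy0 n⟩
      exact (hs n (show P.len ≤ n by omega) hn').2 (by omega)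
    have h4 : (Ordinal.ToType.mk (⟨ξ, hξχ⟩ : Set.Iio χ.ord) : χ.ord.ToType) ∈
        F m (fun n (α : P.a n) => s n α) := by
      rw [hF]
      change ((Ordinal.ToType.mk.symm (Ordinal.ToType.mk (⟨ξ, hξχ⟩ : Set.Iio χ.ord)) :
        Set.Iio χ.ord) : Ordinal.{u}) ∈ Vals e R _
      rw [OrderIso.symm_apply_apply, ← h2]
      exact h1
    rw [h3, hF] at h4
    change ((Ordinal.ToType.mk.symm (Ordinal.ToType.mk (⟨ξ, hξχ⟩ : Set.Iio χ.ord)) :
        Set.Iio χ.ord) : Ordinal.{u}) ∈ Vals e R _ at h4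
    rw [OrderIso.symm_apply_apply] at h4
    exact Set.mem_biUnion (show m ∈ {m : ℕ | p.len ≤ m} from hm0') h4

end PG
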