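import Pool.Agent.H92.PG.Base

/-!
# BAS: basic lemmas about stems
-/

set_option autoImplicit false

universe u v

open Cardinal Order

namespace PG

open PK BV

variable {D : Dat.{u}}

/-- take `r' = r` with the levels `n < p.len` of `a`, `X` replaced by those of `p`. Then `r' ≤ r`
since only the levels `≥ r.len = p.len` matter. -/
theorem norm {r p : Pc D} (h : r ≤ p) (hl : r.len = p.len) : ∃ r', Pc.Fr p.len r' p ∧ r' ≤ r := by
  obtain ⟨h1, h2, h3, h4⟩ := Pc.le_def.1 h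
  refine ⟨{ len := r.len
            f := r.f
            a := fun n => if n < p.len then p.a n else r.a n
            X := fun n => if n < p.len then p.X n else r.X n
            hf := r.hf
            ha := fun n => ?_
            hX := fun n => ?_
            hdep := fun n g g' => ?_
            hdis := fun n hn α hα => ?_ }, ⟨hl, h2, fun n hn => ?_, fun n hn => ?_⟩,
    Pc.le_def.2 ⟨le_rfl, fun _ _ _ h => h, fun n hn hn' => absurd hn' (not_lt.2 hn),
      fun n hn => ?_⟩⟩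
  · split_ifs
    · exact p.ha n
    · exact r.ha n
  · split_ifs
    · exact p.hX n
    · exact r.hX n
  · split_ifs
    · exact p.hdep n g g'
    · exact r.hdep n g g'
  · rw [if_neg (not_lt.2 (hl ▸ hn))] at hα
    exact r.hdis n hn α hα
  · simp only [if_pos hn, and_self]
  · simp only [if_neg (not_lt.2 hn)]
    exact h4 n (hl ▸ hn)
  · simp only [if_neg (not_lt.2 (hl ▸ hn))]
    exact ⟨subset_rfl, subset_rfl⟩

theorem add_f_of (p : Pc D) (s : ∀ n, D.L → D.Kt n) (m : ℕ) {n : ℕ} {α : D.L}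
    (h : p.len ≤ n ∧ n < m ∧ α ∈ p.a n) : (p.add s m).f n α = some (s n α) := if_pos h

theorem add_f_of_not (p : Pc D) (s : ∀ n, D.L → D.Kt n) (m : ℕ) {n : ℕ} {α : D.L}
    (h : ¬ (p.len ≤ n ∧ n < m ∧ α ∈ p.a n)) : (p.add s m).f n α = p.f n α := if_neg h

theorem add_f_mono (p : Pc D) (s : ∀ n, D.L → D.Kt n) (m : ℕ) {n : ℕ} {α : D.L} {γ : D.Kt n}
    (h : p.f n α = some γ) : (p.add s m).f n α = some γ := by
  rw [add_f_of_not, h]
  rintro ⟨h1, _, h3⟩
  rw [p.hdis n h1 α h3] at h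
  exact absurd h (by simp)

theorem add_le (p : Pc D) (s : ∀ n, D.L → D.Kt n) (m : ℕ)
    (hs : ∀ n, p.len ≤ n → n < m → s n ∈ p.X n) : p.add s m ≤ p := by
  refine Pc.le_def.2 ⟨le_max_left _ _, fun n α γ h => add_f_mono p s m h, fun n hn hn' => ?_,
    fun n _ => ⟨subset_rfl, subset_rfl⟩⟩
  have hm : n < m := by
    rcases lt_max_iff.1 hn' with h | h
    · exact absurd h (not_lt.2 hn)
    · exact h
  exact ⟨s n, hs n hn hm, fun α hα => add_f_of p s m ⟨hn, hm, hα⟩⟩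

theorem add_congr (p : Pc D) {s s' : ∀ n, D.L → D.Kt n} (m : ℕ)
    (h : ∀ n, p.len ≤ n → n < m → ∀ α ∈ p.a n, s n α = s' n α) : p.add s m = p.add s' m := by
  have h1 : (p.add s m).f = (p.add s' m).f := by
    funext n α
    by_cases hc : p.len ≤ n ∧ n < m ∧ α ∈ p.a n
    · rw [add_f_of p s m hc, add_f_of p s' m hc, h n hc.1 hc.2.1 α hc.2.2]
    · rw [add_f_of_not p s m hc, add_f_of_not p s' m hc]
  unfold Pc.add
  unfold Pc.add at h1
  congr 1

/-- for `p.len ≤ n < r.len` let `s n ∈ p.X n` be a function which agrees with `r.f n` on `p.a n`,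
for other `n` any function (`D.Kt n` is nonempty); `r ≤ p.add s r.len` by `Pc.le_def`, the length of
the right hand side is `r.len` (`Pc.add_len`). -/
theorem exists_stem {r p : Pc D} (h : r ≤ p) :
    ∃ s : ∀ n, D.L → D.Kt n, (∀ n, p.len ≤ n → n < r.len → s n ∈ p.X n) ∧
      r ≤ p.add s r.len := by
  classical
  obtain ⟨h1, h2, h3, h4⟩ := Pc.le_def.1 h
  have h5 : ∀ n, ∃ g : D.L → D.Kt n, p.len ≤ n → n < r.len →
      g ∈ p.X n ∧ ∀ α ∈ p.a n, r.f n α = some (g α) := by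
    intro n
    by_cases hc : p.len ≤ n ∧ n < r.len
    · obtain ⟨g, hg, hg'⟩ := h3 n hc.1 hc.2
      exact ⟨g, fun _ _ => ⟨hg, hg'⟩⟩
    · exact ⟨fun _ => Classical.arbitrary _, fun h h' => absurd ⟨h, h'⟩ hc⟩
  choose s hs using h5
  refine ⟨s, fun n hn hn' => (hs n hn hn').1, ?_⟩
  have hlen := Pc.add_len h1 s
  refine Pc.le_def.2 ⟨hlen.le, fun n α γ hγ => ?_, fun n hn hn' => ?_, fun n hn => ?_⟩
  · by_cases hc : p.len ≤ n ∧ n < r.len ∧ α ∈ p.a n
    · rw [add_f_of p s _ hc] at hγ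
      rw [(hs n hc.1 hc.2.1).2 α hc.2.2, hγ]
    · rw [add_f_of_not p s _ hc] at hγ
      exact h2 n α γ hγ
  · rw [hlen] at hn
    exact absurd hn' (not_lt.2 hn)
  · exact h4 n hn

/-- for `p.len ≤ n < m` we have `r.a n = p.a n` -/
theorem add_fr {m : ℕ} {r p : Pc D} (h : Pc.Fr m r p) (s : ∀ n, D.L → D.Kt n) :
    Pc.Fr m (r.add s m) (p.add s m) := by
  obtain ⟨h1, h2, h3, h4⟩ := h
  refine ⟨?_, fun n α γ hγ => ?_, h3, h4⟩
  · show max r.len m = max p.len m
    rw [h1]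
  · by_cases hc : p.len ≤ n ∧ n < m ∧ α ∈ p.a n
    · rw [add_f_of p s _ hc] at hγ
      rw [add_f_of r s _ ⟨h1.le.trans hc.1, hc.2.1, by rw [(h3 n hc.2.1).1]; exact hc.2.2⟩, hγ]
    · rw [add_f_of_not p s _ hc] at hγ
      exact add_f_mono r s m (h2 n α γ hγ)

open Classical in
/-- Let `p'` be `r` with the length `p.len` and
`p'.f n α = none` if `p.len ≤ n ∧ n < m ∧ α ∈ p.a n`, `p'.f n α = r.f n α` otherwise. Note
`r.a n = p.a n` for `n < m`, and `r.f n α = some (s n α)` if `p.len ≤ n ∧ n < m ∧ α ∈ p.a n`. So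
`(p'.add s m).f = r.f`. -/
theorem lift_fr {m : ℕ} {p r : Pc D} (hm : p.len ≤ m) (s : ∀ n, D.L → D.Kt n)
    (h : Pc.Fr m r (p.add s m)) : ∃ p', Pc.Fr m p' p ∧ Pc.Fr m (p'.add s m) r := by
  obtain ⟨h1, h2, h3, h4⟩ := h
  rw [Pc.add_len hm] at h1
  have h3' : ∀ n, n < m → r.a n = p.a n ∧ r.X n = p.X n := h3
  have h4' : ∀ n, m ≤ n → p.a n ⊆ r.a n ∧ r.X n ⊆ p.X n := h4
  let p' : Pc D :=
    { len := p.len
      f := fun n α => if p.len ≤ n ∧ n < m ∧ α ∈ p.a n then none else r.f n α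
      a := r.a
      X := r.X
      hf := fun n => (mk_le_mk_of_subset (fun α (hα : _ ≠ none) => by
        by_cases hc : p.len ≤ n ∧ n < m ∧ α ∈ p.a n
        · rw [if_pos hc] at hα
          exact absurd rfl hα
        · rw [if_neg hc] at hα
          exact hα)).trans (r.hf n)
      ha := r.ha
      hX := r.hX
      hdep := r.hdep
      hdis := fun n hn α hα => by
        by_cases hc : n < m
        · rw [if_pos ⟨hn, hc, by rw [← (h3' n hc).1]; exact hα⟩]
        · rw [if_neg (fun h => hc h.2.1)]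
          exact r.hdis n (h1 ▸ not_lt.1 hc) α hα }
  have hpos : ∀ n α, (p.len ≤ n ∧ n < m ∧ α ∈ p.a n) → p'.f n α = none := fun n α hc => if_pos hc
  have hneg : ∀ n α, ¬ (p.len ≤ n ∧ n < m ∧ α ∈ p.a n) → p'.f n α = r.f n α :=
    fun n α hc => if_neg hc
  refine ⟨p', ⟨rfl, fun n α γ hγ => ?_, h3', h4'⟩, ⟨?_, fun n α γ hγ => ?_,
    fun n _ => ⟨rfl, rfl⟩, fun n _ => ⟨subset_rfl, subset_rfl⟩⟩⟩
  · rw [hneg]
    · exact h2 n α γ (add_f_mono p s m hγ)
    · rintro ⟨hn, _, hα⟩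
      rw [p.hdis n hn α hα] at hγ
      exact absurd hγ (by simp)
  · rw [h1]
    exact Pc.add_len hm s
  · by_cases hc : p.len ≤ n ∧ n < m ∧ α ∈ p.a n
    · have h5 := h2 n α _ (add_f_of p s m hc)
      rw [hγ] at h5
      rw [add_f_of p' s m (n := n) (α := α) ⟨hc.1, hc.2.1, by
        show α ∈ r.a n
        rw [(h3' n hc.2.1).1]
        exact hc.2.2⟩, h5]
    · rw [add_f_of_not p' s m (n := n) (α := α), hneg n α hc, hγ]
      rintro ⟨h5, h6, h7⟩
      exact hc ⟨h5, h6, by rw [← (h3' n h6).1]; exact h7⟩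

end PG
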