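import Pool.Agent.H92.PK.Coh
import Pool.Agent.H92.PK.Frc

/-!
# BASE (project MP_fa650a_lc2): the forcing

`K n`, `n < ω`, is a strictly increasing sequence of regular uncountable strong limit cardinals,
`ν = sup K n`, `L` a set, `E n` a `K n`-complete ultrafilter on the set of functions `L → K n` which
contains `{h : h is injective on a and h α ∉ S for α ∈ a}` for `a ⊆ L`, `S ⊆ K n` of cardinality
`< K n`.

Conditions (`Pc`): `(len, f, a, X)`; `f n` is a partial function from `L` to `K n` with domain of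
cardinality at most `ν`, `a n ⊆ L` has less than `K n` elements, `X n ∈ E n` depends only on the
restrictions to `a n`, and for `n ≥ len` the set `a n` is disjoint from the domain of `f n`.
`r ≤ p`: the length grows, the `f n` grow, for `p.len ≤ n < r.len` the restriction of `r.f n` to
`p.a n` is the restriction of an element of `p.X n`, for `n ≥ r.len` the `a n` grow and the `X n`
shrink. The values of `a n`, `X n` for `n < len` are irrelevant.

The forcing is `Pc D × Fp X`.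
-/

set_option autoImplicit false

universe u v

open Cardinal Order

namespace PG

open PK BV

/-- `F` is closed under intersections of less than `κ` sets -/
def KComplete {Z : Type u} (κ : Cardinal.{u}) (F : Filter Z) : Prop :=
  ∀ (ι : Type u) (A : ι → Set Z), #ι < κ → (∀ i, A i ∈ F) → (⋂ i, A i) ∈ F

/-- `κ` is strongly compact: it is regular and uncountable and every proper `κ`-complete filter can
be extended to a `κ`-complete ultrafilter -/
def IsStrComp (κ : Cardinal.{u}) : Prop :=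
  ℵ₀ < κ ∧ κ.IsRegular ∧ ∀ (Z : Type u) (F : Filter Z), F.NeBot → KComplete κ F →
    ∃ U : Ultrafilter Z, (U : Filter Z) ≤ F ∧ KComplete κ (U : Filter Z)

/-- the data -/
structure Dat where
  /-- the cardinals -/
  K : ℕ → Cardinal.{u}
  mono : StrictMono K
  reg : ∀ n, (K n).IsRegular
  unc : ∀ n, ℵ₀ < K n
  lim : ∀ n c, c < K n → 2 ^ c < K n
  /-- the index set -/
  L : Type u
  /-- the measures -/
  E : ∀ n, Ultrafilter (L → (K n).ord.ToType)
  compl : ∀ n, KComplete (K n) (E n : Filter (L → (K n).ord.ToType))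
  fine : ∀ n (a : Set L) (S : Set (K n).ord.ToType), #a < K n → #S < K n →
    {h | Set.InjOn h a ∧ ∀ α ∈ a, h α ∉ S} ∈ E n

namespace Dat

/-- the cardinal `K n` as a type -/
abbrev Kt (D : Dat.{u}) (n : ℕ) : Type u := (D.K n).ord.ToType

/-- `ν = sup K n` -/
noncomputable def nu (D : Dat.{u}) : Cardinal.{u} := ⨆ n, D.K n

theorem bdd (D : Dat.{u}) : BddAbove (Set.range D.K) := bddAbove_of_small

theorem K_lt_nu (D : Dat.{u}) (n : ℕ) : D.K n < D.nu :=
  (D.mono (Nat.lt_succ_self n)).trans_le (le_ciSup D.bdd (n + 1))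

theorem exists_lt_K (D : Dat.{u}) {c : Cardinal.{u}} (h : c < D.nu) : ∃ n, c < D.K n :=
  (lt_ciSup_iff D.bdd).1 h

theorem aleph0_lt_nu (D : Dat.{u}) : ℵ₀ < D.nu := (D.unc 0).trans (D.K_lt_nu 0)

instance (D : Dat.{u}) (n : ℕ) : Infinite (D.Kt n) := by
  rw [infinite_iff]
  simpa using (D.unc n).le

end Dat

/-- conditions -/
structure Pc (D : Dat.{u}) where
  len : ℕ
  f : ∀ n, D.L → Option (D.Kt n)
  a : ℕ → Set D.L
  X : ∀ n, Set (D.L → D.Kt n)
  hf : ∀ n, #{α | f n α ≠ none} ≤ D.nu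
  ha : ∀ n, #(a n) < D.K n
  hX : ∀ n, X n ∈ D.E n
  hdep : ∀ n h h', (∀ α ∈ a n, h α = h' α) → h ∈ X n → h' ∈ X n
  hdis : ∀ n, len ≤ n → ∀ α ∈ a n, f n α = none

namespace Pc

variable {D : Dat.{u}}

instance : Preorder (Pc D) where
  le r p := p.len ≤ r.len ∧ (∀ n α γ, p.f n α = some γ → r.f n α = some γ) ∧
    (∀ n, p.len ≤ n → n < r.len → ∃ h ∈ p.X n, ∀ α ∈ p.a n, r.f n α = some (h α)) ∧
    (∀ n, r.len ≤ n → p.a n ⊆ r.a n ∧ r.X n ⊆ p.X n)
  le_refl p := ⟨le_rfl, fun _ _ _ h => h, fun n h1 h2 => absurd h2 (not_lt.2 h1),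
    fun _ _ => ⟨subset_rfl, subset_rfl⟩⟩
  le_trans r q p h h' := by
    obtain ⟨h1, h2, h3, h4⟩ := h
    obtain ⟨h1', h2', h3', h4'⟩ := h'
    refine ⟨h1'.trans h1, fun n α γ h => h2 n α γ (h2' n α γ h), fun n hn hn' => ?_,
      fun n hn => ⟨(h4' n (h1.trans hn)).1.trans (h4 n hn).1,
        (h4 n hn).2.trans (h4' n (h1.trans hn)).2⟩⟩
    rcases lt_or_ge n q.len with hq | hq
    · obtain ⟨h, hh, hh'⟩ := h3' n hn hq
      exact ⟨h, hh, fun α hα => h2 n α _ (hh' α hα)⟩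
    · obtain ⟨h, hh, hh'⟩ := h3 n hq hn'
      exact ⟨h, (h4' n hq).2 hh, fun α hα => hh' α ((h4' n hq).1 hα)⟩

theorem le_def {r p : Pc D} : r ≤ p ↔
    p.len ≤ r.len ∧ (∀ n α γ, p.f n α = some γ → r.f n α = some γ) ∧
    (∀ n, p.len ≤ n → n < r.len → ∃ h ∈ p.X n, ∀ α ∈ p.a n, r.f n α = some (h α)) ∧
    (∀ n, r.len ≤ n → p.a n ⊆ r.a n ∧ r.X n ⊆ p.X n) := Iff.rfl

/-- extension of the same length which does not change the levels `n < m` of `a` and `X` -/
def Fr (m : ℕ) (r p : Pc D) : Prop :=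
  r.len = p.len ∧ (∀ n α γ, p.f n α = some γ → r.f n α = some γ) ∧
  (∀ n, n < m → r.a n = p.a n ∧ r.X n = p.X n) ∧
  (∀ n, m ≤ n → p.a n ⊆ r.a n ∧ r.X n ⊆ p.X n)

theorem Fr.refl (m : ℕ) (p : Pc D) : Fr m p p :=
  ⟨rfl, fun _ _ _ h => h, fun _ _ => ⟨rfl, rfl⟩, fun _ _ => ⟨subset_rfl, subset_rfl⟩⟩

theorem Fr.trans {m : ℕ} {r q p : Pc D} (h : Fr m r q) (h' : Fr m q p) : Fr m r p := by
  obtain ⟨h1, h2, h3, h4⟩ := h
  obtain ⟨h1', h2', h3', h4'⟩ := h'
  exact ⟨h1.trans h1', fun n α γ h => h2 n α γ (h2' n α γ h),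
    fun n hn => ⟨(h3 n hn).1.trans (h3' n hn).1, (h3 n hn).2.trans (h3' n hn).2⟩,
    fun n hn => ⟨(h4' n hn).1.trans (h4 n hn).1, (h4 n hn).2.trans (h4' n hn).2⟩⟩

theorem Fr.le {m : ℕ} {r p : Pc D} (h : Fr m r p) : r ≤ p := by
  obtain ⟨h1, h2, h3, h4⟩ := h
  refine ⟨h1.ge, h2, fun n hn hn' => absurd (h1 ▸ hn') (not_lt.2 hn), fun n _ => ?_⟩
  rcases lt_or_ge n m with hm | hm
  · rw [(h3 n hm).1, (h3 n hm).2]
    exact ⟨subset_rfl, subset_rfl⟩
  · exact h4 n hm

theorem Fr.mono {m m' : ℕ} (hm : m ≤ m') {r p : Pc D} (h : Fr m' r p) : Fr m r p := by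
  obtain ⟨h1, h2, h3, h4⟩ := h
  refine ⟨h1, h2, fun n hn => h3 n (hn.trans_le hm), fun n hn => ?_⟩
  rcases lt_or_ge n m' with hm' | hm'
  · rw [(h3 n hm').1, (h3 n hm').2]
    exact ⟨subset_rfl, subset_rfl⟩
  · exact h4 n hm'

open Classical in
/-- the extension of `p` to the length `m` by the stem `s` -/
noncomputable def add (p : Pc D) (s : ∀ n, D.L → D.Kt n) (m : ℕ) : Pc D where
  len := max p.len m
  f n α := if p.len ≤ n ∧ n < m ∧ α ∈ p.a n then some (s n α) else p.f n α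
  a := p.a
  X := p.X
  hf n := by
    have h1 : {α | (if p.len ≤ n ∧ n < m ∧ α ∈ p.a n then some (s n α) else p.f n α) ≠ none} ⊆
        p.a n ∪ {α | p.f n α ≠ none} := by
      intro α hα
      by_cases h : p.len ≤ n ∧ n < m ∧ α ∈ p.a n
      · exact Or.inl h.2.2
      · right
        simpa [h] using hα
    refine (mk_le_mk_of_subset h1).trans ((mk_union_le _ _).trans ?_)
    exact (add_le_add ((p.ha n).le.trans (D.K_lt_nu n).le) (p.hf n)).trans
      (add_eq_self D.aleph0_lt_nu.le).le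
  ha := p.ha
  hX := p.hX
  hdep := p.hdep
  hdis n hn α hα := by
    rw [if_neg]
    · exact p.hdis n ((le_max_left _ _).trans hn) α hα
    · rintro ⟨_, h, _⟩
      exact absurd ((le_max_right _ _).trans hn) (not_le.2 h)

theorem add_len {p : Pc D} {m : ℕ} (h : p.len ≤ m) (s : ∀ n, D.L → D.Kt n) :
    (p.add s m).len = m := max_eq_right h

end Pc

variable {D : Dat.{u}} {X B : Type u} [CompleteBooleanAlgebra B]

/-- the possible values of the name `R` below `p`, decided by conditions of the length of `p` -/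
def Vals (e : Pc D × Fp X → B) (R : Ordinal.{u} → B) (p : Pc D) : Set Ordinal.{u} :=
  {ξ | ∃ r ≤ p, r.len = p.len ∧ ∃ q, e (r, q) ≤ R ξ}

/-- the possible values of the name `R` below `p` -/
def AVals (e : Pc D × Fp X → B) (R : Ordinal.{u} → B) (p : Pc D) : Set Ordinal.{u} :=
  {ξ | ∃ r ≤ p, ∃ q, e (r, q) ≤ R ξ}

/-- `R` is a name of at most one ordinal -/
def Disj (R : Ordinal.{u} → B) : Prop := ∀ ξ ξ', ξ ≠ ξ' → R ξ ⊓ R ξ' = ⊥

/-- atoms: `F n α = γ`, `c x = b` -/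
abbrev Atm (D : Dat.{u}) (X : Type u) : Type u := (Σ n : ℕ, D.L × D.Kt n) ⊕ (X × Bool)

/-- Boolean values of the atoms -/
noncomputable def av (e : Pc D × Fp X → B) : Atm D X → B
  | Sum.inl x => ⨆ p : {p : Pc D × Fp X // p.1.f x.1 x.2.1 = some x.2.2}, e p.1
  | Sum.inr x => ⨆ p : {p : Pc D × Fp X // p.2.1 x.1 = some x.2}, e p.1

end PG
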