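import Pool.Agent.H92.PG.Bas

/-!
# BAT: extensions to a given length
-/

set_option autoImplicit false

universe u v

open Cardinal Order

namespace PG

open PK BV

variable {D : Dat.{u}}

/-- choose `s n ∈ p.X n` for all `n` and take `p.add s m` -/
theorem exists_long (p : Pc D) (m : ℕ) :
    ∃ r ≤ p, r.len = max p.len m ∧ (∀ n, m ≤ n → r.f n = p.f n) ∧ (∀ n, r.a n = p.a n) ∧
      ∀ n, r.X n = p.X n := by
  choose s hs using fun n => (D.E n).nonempty_of_mem (p.hX n)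
  refine ⟨p.add s m, add_le p s m fun n _ _ => hs n, rfl, fun n hn => ?_, fun _ => rfl,
    fun _ => rfl⟩
  funext α
  exact add_f_of_not p s m fun h => absurd h.2.1 (not_lt.2 hn)

variable {X B : Type u} [CompleteBooleanAlgebra B] {e : Pc D × Fp X → B}

theorem vals_mono {R : Ordinal.{u} → B} {r p : Pc D} (h : r ≤ p) (hl : r.len = p.len) :
    Vals e R r ⊆ Vals e R p := by
  rintro ξ ⟨r', h1, h2, h3⟩
  exact ⟨r', h1.trans h, h2.trans hl, h3⟩

theorem avals_mono {R : Ordinal.{u} → B} {r p : Pc D} (h : r ≤ p) :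
    AVals e R r ⊆ AVals e R p := by
  rintro ξ ⟨r', h1, h3⟩
  exact ⟨r', h1.trans h, h3⟩

/-- extend the condition to length `m` (`exists_long`), use `exists_stem`, `he.mono` -/
theorem avals_stem (he : DenseEmb (Pc D × Fp X) B e) {R : Ordinal.{u} → B} {p : Pc D}
    {ξ : Ordinal.{u}} (h : ξ ∈ AVals e R p) :
    ∃ m0, p.len ≤ m0 ∧ ∀ m, m0 ≤ m → ∃ s : ∀ n, D.L → D.Kt n,
      (∀ n, p.len ≤ n → n < m → s n ∈ p.X n) ∧ ξ ∈ Vals e R (p.add s m) := by
  obtain ⟨r, hr, q, hq⟩ := h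
  refine ⟨r.len, (Pc.le_def.1 hr).1, fun m hm => ?_⟩
  obtain ⟨r', hr', hlen, -⟩ := exists_long r m
  rw [max_eq_right hm] at hlen
  obtain ⟨s, hs, hs'⟩ := exists_stem (hr'.trans hr)
  rw [hlen] at hs hs'
  have hpm : p.len ≤ m := (Pc.le_def.1 hr).1.trans hm
  refine ⟨s, hs, r', hs', ?_, q, (he.mono _ _ ?_).trans hq⟩
  · rw [hlen, Pc.add_len hpm]
  · exact ⟨hr', le_rfl⟩

end PG
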