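import Pool.Agent.H92.PK.Pres

/-!
# BDD: `Cov` from small sets of values
-/

set_option autoImplicit false

universe u v

open Cardinal Order

namespace PG

open PK BV

variable {B : Type u} [CompleteBooleanAlgebra B]

/-- less than `χ` sets of cardinality `< χ` have a common strict upper bound (`χ` regular), see
`PK.covs_bound` in `PK/CovS.lean` -/
theorem exists_bound {χ : Cardinal.{u}} (hχ : χ.IsRegular) {ι : Type u} (hι : #ι < χ)
    (W : ι → Set χ.ord.ToType) (hW : ∀ i, #(W i) < χ) :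
    ∃ x : χ.ord.ToType, ∀ i, ∀ y ∈ W i, y < x := by
  have h1 : #(⋃ i, W i) < χ := by
    rw [card_iUnion_lt_iff_forall_of_isRegular hχ hι]
    exact hW
  have h2 : ¬ IsCofinal (⋃ i, W i) := by
    intro h
    have h3 := Order.cof_le h
    rw [Ordinal.cof_toType, hχ.cof_ord] at h3
    exact absurd h1 (not_lt.2 h3)
  rw [IsCofinal] at h2
  push Not at h2
  obtain ⟨x, hx⟩ := h2
  exact ⟨x, fun i y hy => hx y (Set.mem_iUnion.2 ⟨i, hy⟩)⟩

/-- see the end of the proof of `PK.cov_large` in `PK/CovL.lean` -/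
theorem cov_of_vals {χ : Cardinal.{u}} (hχ : χ.IsRegular)
    (h : ∀ β : Ordinal.{u}, β.card < χ → ∀ R : Ordinal.{u} → Ordinal.{u} → B,
      (∀ ξ α α', α ≠ α' → R ξ α ⊓ R ξ α' = ⊥) → ∀ b : B, b ≠ ⊥ → ∃ b' ≤ b, b' ≠ ⊥ ∧
        ∃ W : Ordinal.{u} → Set χ.ord.ToType, (∀ ξ < β, #(W ξ) < χ) ∧
          ∀ ξ < β, ∀ α : χ.ord.ToType, b' ⊓ R ξ (α.toOrd : Ordinal) ≠ ⊥ → α ∈ W ξ) :
    Cov B χ := by
  intro β hβ R hR b hb
  obtain ⟨b', hb', hne, W, hW, hmem⟩ := h β hβ R hR b hb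
  have hι : #β.ToType < χ := by
    rw [mk_toType]
    exact hβ
  obtain ⟨x, hx⟩ := exists_bound hχ hι (fun ξ : β.ToType => W (ξ.toOrd : Ordinal))
    (fun ξ => hW _ ξ.toOrd.2)
  refine ⟨b', hb', hne, (x.toOrd : Ordinal), x.toOrd.2, ?_⟩
  intro ξ hξ α hxα hα
  by_contra hne2
  have h1 : (Ordinal.ToType.mk ⟨α, hα⟩ : χ.ord.ToType) ∈ W ξ := by
    apply hmem ξ hξ
    simpa using hne2
  have h2 := hx (Ordinal.ToType.mk ⟨ξ, hξ⟩) (Ordinal.ToType.mk ⟨α, hα⟩) (by simpa using h1)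
  have h3 : (((Ordinal.ToType.mk ⟨α, hα⟩ : χ.ord.ToType).toOrd : Ordinal.{u})) <
      (x.toOrd : Ordinal.{u}) := by
    exact (Ordinal.ToType.mk (o := χ.ord)).symm.strictMono h2
  simp only [OrderIso.symm_apply_apply] at h3
  exact absurd hxα (not_le.2 h3)

theorem Bdd_nat (R : Ordinal.{u} → Ordinal.{u} → B)
    (hR : ∀ ξ α α', α ≠ α' → R ξ α ⊓ R ξ α' = ⊥) (n : ℕ) : ∀ b : B, b ≠ ⊥ →
    ∃ b' ≤ b, b' ≠ ⊥ ∧ ∃ γ < Ordinal.omega0.{u}, ∀ ξ < (n : Ordinal.{u}), ∀ α, γ ≤ α →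
      α < Ordinal.omega0.{u} → b' ⊓ R ξ α = ⊥ := by
  induction n with
  | zero =>
    intro b hb
    refine ⟨b, le_rfl, hb, 0, Ordinal.omega0_pos, ?_⟩
    intro ξ hξ
    rw [Nat.cast_zero] at hξ
    exact absurd hξ (not_lt.2 zero_le)
  | succ n ih =>
    intro b hb
    obtain ⟨b', hb', hne, γ, hγ, h1⟩ := ih b hb
    have hlt : ∀ ξ : Ordinal.{u}, ξ < ((n + 1 : ℕ) : Ordinal.{u}) → ξ < (n : Ordinal.{u}) ∨ ξ = n := by
      intro ξ hξ
      rw [Nat.cast_add, Nat.cast_one, ← Order.succ_eq_add_one, Order.lt_succ_iff] at hξ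
      exact lt_or_eq_of_le hξ
    by_cases h2 : ∃ α < Ordinal.omega0.{u}, b' ⊓ R n α ≠ ⊥
    · obtain ⟨α, hα, hαne⟩ := h2
      refine ⟨b' ⊓ R n α, inf_le_left.trans hb', hαne, max γ (α + 1), ?_, ?_⟩
      · refine max_lt hγ ?_
        rw [← Order.succ_eq_add_one]
        exact Ordinal.isSuccLimit_omega0.succ_lt hα
      · intro ξ hξ α' hα' hα'2
        rcases hlt ξ hξ with h3 | h3
        · refine le_bot_iff.1 ?_
          rw [← h1 ξ h3 α' ((le_max_left _ _).trans hα') hα'2]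
          exact inf_le_inf inf_le_left le_rfl
        · subst h3
          have h4 : α ≠ α' := by
            rintro rfl
            have h5 := (le_max_right _ _).trans hα'
            rw [← Order.succ_eq_add_one, Order.succ_le_iff] at h5
            exact lt_irrefl _ h5
          rw [inf_assoc, hR _ _ _ h4, inf_bot_eq]
    · push Not at h2
      refine ⟨b', hb', hne, γ, hγ, ?_⟩
      intro ξ hξ α' hα' hα'2
      rcases hlt ξ hξ with h3 | h3
      · exact h1 ξ h3 α' hα' hα'2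
      · subst h3
        exact h2 α' hα'2

/-- `β` is finite (a natural number `n`): by induction on `n` there is `b' ≤ b`, `b' ≠ ⊥`, and for every
`ξ < n` a natural number `k` such that `b' ⊓ R ξ α = ⊥` for all `α` with `k ≤ α < ω`
(if `b' ⊓ R n α ≠ ⊥` for some `α < ω` replace `b'` by it and take `k = α + 1`). -/
theorem cov_aleph0 : Cov B ℵ₀ := by
  intro β hβ R hR b hb
  rw [Ordinal.card_lt_aleph0] at hβ
  obtain ⟨n, rfl⟩ := Ordinal.lt_omega0.1 hβ
  rw [Cardinal.ord_aleph0]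
  exact Bdd_nat R hR n b hb

end PG
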