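import Pool.Agent.H92.PG.Base

/-!
# CCA: supports and traces
-/

set_option autoImplicit false

universe u v

open Cardinal Order

namespace PG

open PK BV

variable {D : Dat.{u}} {X : Type u}

/-- the support of a condition -/
def supp (p : Pc D) : Set D.L := {α | ∃ n, p.f n α ≠ none ∨ α ∈ p.a n}

theorem mk_supp (p : Pc D) : #(supp p) ≤ D.nu := by
  have hnu : ℵ₀ ≤ D.nu := D.aleph0_lt_nu.le
  have h1 : supp p ⊆ ⋃ n : ULift.{u} ℕ, ({α | p.f n.down α ≠ none} ∪ p.a n.down) := by
    rintro α ⟨n, hn⟩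
    exact Set.mem_iUnion.2 ⟨⟨n⟩, hn⟩
  refine (mk_le_mk_of_subset h1).trans (mk_iUnion_le_sum_mk.trans ?_)
  refine (sum_le_sum _ (fun _ => D.nu) fun (n : ULift.{u} ℕ) => ?_).trans ?_
  · refine (mk_union_le _ _).trans ?_
    exact add_le_of_le hnu (p.hf _) ((p.ha _).le.trans (D.K_lt_nu _).le)
  · rw [sum_const, lift_id, lift_id, mk_uLift, mk_nat, lift_aleph0]
    exact (aleph0_mul_eq hnu).le

/-- take `f n α = p.f n α` if this is not `none` and `p'.f n α` otherwise, the unions of the `a n`, the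
intersections of the `X n`. If `n ≥ len`, `α ∈ p.a n` and `p'.f n α ≠ none` then `α` belongs to both
supports and `p'.f n α = p.f n α = none`, a contradiction. -/
theorem exists_le_le_of_supp {p p' : Pc D} (hl : p.len = p'.len)
    (h : ∀ α, α ∈ supp p → α ∈ supp p' → ∀ n, p.f n α = p'.f n α) : ∃ r, r ≤ p ∧ r ≤ p' := by
  classical
  have hnu : ℵ₀ ≤ D.nu := D.aleph0_lt_nu.le
  have h1 : ∀ n α, p.f n α ≠ none → α ∈ supp p := fun n α h => ⟨n, Or.inl h⟩
  have h1' : ∀ n α, p'.f n α ≠ none → α ∈ supp p' := fun n α h => ⟨n, Or.inl h⟩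
  have h2 : ∀ n α, α ∈ p.a n → α ∈ supp p := fun n α h => ⟨n, Or.inr h⟩
  have h2' : ∀ n α, α ∈ p'.a n → α ∈ supp p' := fun n α h => ⟨n, Or.inr h⟩
  let F : ∀ n, D.L → Option (D.Kt n) := fun n α => if p.f n α ≠ none then p.f n α else p'.f n α
  have hF : ∀ n α γ, p.f n α = some γ → F n α = some γ := by
    intro n α γ hγ
    show (if p.f n α ≠ none then p.f n α else p'.f n α) = some γ
    rw [if_pos (by rw [hγ]; simp), hγ]
  have hF' : ∀ n α γ, p'.f n α = some γ → F n α = some γ := by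
    intro n α γ hγ
    show (if p.f n α ≠ none then p.f n α else p'.f n α) = some γ
    by_cases hp : p.f n α ≠ none
    · rw [if_pos hp, h α (h1 n α hp) (h1' n α (by rw [hγ]; simp)) n, hγ]
    · rw [if_neg hp, hγ]
  have hFn : ∀ n α, p.f n α = none → p'.f n α = none → F n α = none := by
    intro n α h3 h4
    show (if p.f n α ≠ none then p.f n α else p'.f n α) = none
    rw [if_neg (by rw [h3]; simp), h4]
  let r : Pc D :=
    { len := p.len
      f := F
      a := fun n => p.a n ∪ p'.a n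
      X := fun n => p.X n ∩ p'.X n
      hf := by
        intro n
        have h3 : {α | F n α ≠ none} ⊆ {α | p.f n α ≠ none} ∪ {α | p'.f n α ≠ none} := by
          intro α hα
          by_contra hc
          rw [Set.mem_union, not_or] at hc
          exact hα (hFn n α (not_not.1 hc.1) (not_not.1 hc.2))
        refine (mk_le_mk_of_subset h3).trans ((mk_union_le _ _).trans ?_)
        exact add_le_of_le hnu (p.hf n) (p'.hf n)
      ha := fun n => (mk_union_le _ _).trans_lt
        (add_lt_of_lt (D.unc n).le (p.ha n) (p'.ha n))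
      hX := fun n => Filter.inter_mem (p.hX n) (p'.hX n)
      hdep := fun n g g' hg hX => ⟨p.hdep n g g' (fun α hα => hg α (Or.inl hα)) hX.1,
        p'.hdep n g g' (fun α hα => hg α (Or.inr hα)) hX.2⟩
      hdis := by
        intro n hn α hα
        rcases hα with hα | hα
        · have h3 := p.hdis n hn α hα
          refine hFn n α h3 ?_
          by_contra h4
          rw [← h α (h2 n α hα) (h1' n α h4) n] at h4
          exact h4 h3
        · have h3 := p'.hdis n (hl ▸ hn) α hα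
          refine hFn n α ?_ h3
          by_contra h4
          rw [h α (h1 n α h4) (h2' n α hα) n] at h4
          exact h4 h3 }
  refine ⟨r, Pc.le_def.2 ⟨le_rfl, hF, fun n hn hn' => absurd hn' (not_lt.2 hn), fun n _ =>
    ⟨Set.subset_union_left, Set.inter_subset_left⟩⟩, Pc.le_def.2 ⟨hl.ge, hF',
      fun n hn hn' => absurd hn' (not_lt.2 (hl.le.trans hn)), fun n _ =>
    ⟨Set.subset_union_right, Set.inter_subset_right⟩⟩⟩

/-- the trace of a condition on a sequence `s` -/
def trace {N : Type u} (p : Pc D × Fp X) (s : N → D.L) :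
    ULift.{u} ℕ × (∀ n : ℕ, N → Option (D.Kt n)) × Fp X :=
  ⟨⟨p.1.len⟩, fun n x => p.1.f n (s x), p.2⟩

/-- `(∏ n, K n ^ ν) * #(Fp X) ≤ 2 ^ ν = ν⁺` (`Fp.mk_le`) -/
theorem mk_traces (hG : ∀ c : Cardinal.{u}, ℵ₀ ≤ c → 2 ^ c = succ c) (hX0 : ℵ₀ ≤ #X) (hX : #X ≤ D.nu)
    {N : Type u} (hN : #N = D.nu) :
    #(ULift.{u} ℕ × (∀ n : ℕ, N → Option (D.Kt n)) × Fp X) ≤ succ D.nu := by
  have hnu : ℵ₀ ≤ D.nu := D.aleph0_lt_nu.le
  have hs : ℵ₀ ≤ succ D.nu := hnu.trans (le_succ _)
  have h1 : #(∀ n : ℕ, N → Option (D.Kt n)) ≤ succ D.nu := by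
    have h2 : ∀ n, #(Option (D.Kt n)) ≤ D.nu := by
      intro n
      rw [mk_option, mk_ord_toType]
      exact add_le_of_le hnu (D.K_lt_nu n).le (one_lt_aleph0.le.trans hnu)
    have h3 : ∀ n, Nonempty (Option (D.Kt n) ↪ D.nu.ord.ToType) := by
      intro n
      rw [← Cardinal.le_def, mk_ord_toType]
      exact h2 n
    let g := fun n => (h3 n).some
    have h4 : #(∀ n : ℕ, N → Option (D.Kt n)) ≤ #(ULift.{u} ℕ × N → D.nu.ord.ToType) := by
      refine mk_le_of_injective (f := fun F x => g x.1.down (F x.1.down x.2)) ?_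
      intro F F' h
      funext n x
      exact (g n).injective (congrFun h (⟨n⟩, x))
    refine h4.trans ?_
    rw [← power_def, mk_ord_toType, mk_prod, lift_id, lift_id, mk_uLift, mk_nat, lift_aleph0, hN,
      aleph0_mul_eq hnu, ← hG _ hnu]
    exact (power_self_eq hnu).le
  rw [mk_prod, mk_prod, lift_id, lift_id, lift_id, lift_id, mk_uLift, mk_nat, lift_aleph0]
  refine mul_le_of_le hs hs (mul_le_of_le hs h1 ?_)
  exact ((Fp.mk_le hX0).trans hX).trans (le_succ _)

end PG
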