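import Mathlib

/-!
# CLO: closed sets of small cardinality
-/

set_option autoImplicit false

universe u v

open Cardinal Order

namespace PG

/-- the arities of the operations -/
def cloAr (T N : Type u) : Option (T × N) → Type u
  | none => PEmpty.{u + 1}
  | some _ => N

/-- the evaluation step -/
def cloStep {T N L : Type u} (G : T → (N → L) → (N → L)) (l0 : L) :
    (Σ a : Option (T × N), cloAr T N a → L) → L
  | ⟨none, _⟩ => l0
  | ⟨some p, s⟩ => G p.1 s p.2

/-- Let `α = Option (T × N)` and let the arity of `none` be empty, of `some (t, x)` be `N`. The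
type `WType` of these terms has cardinality at most `succ c`
(`WType.cardinalMk_le_of_le'`: `∑ a, (succ c) ^ #(arity a) ≤ succ c`). Evaluate the terms in `L`:
`none ↦ l0`, `some (t, x)` with arguments `s` ↦ `G t (values of s) x`. Let `C` be the range of the
evaluation. -/
theorem exists_closed {c : Cardinal.{u}} (h0 : ℵ₀ ≤ c) (hc : (succ c) ^ c = succ c)
    (N T L : Type u) (hN : #N = c) (hT : #T ≤ succ c) (G : T → (N → L) → (N → L)) (l0 : L) :
    ∃ C : Set L, #C ≤ succ c ∧ l0 ∈ C ∧
      ∀ t (s : N → L), (∀ x, s x ∈ C) → ∀ x, G t s x ∈ C := by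
  have hS : ℵ₀ ≤ succ c := h0.trans (Order.le_succ c)
  refine ⟨Set.range (WType.elim (β := cloAr T N) L (cloStep G l0)), ?_, ?_, ?_⟩
  · refine Cardinal.mk_range_le.trans ?_
    refine WType.cardinalMk_le_of_le ?_
    have h1 : ∀ a : Option (T × N), (succ c) ^ #(cloAr T N a) ≤ succ c := by
      intro a
      cases a with
      | none =>
        have h2 : #(cloAr T N none) = 0 := by
          change #(PEmpty.{u + 1}) = 0
          simp
        rw [h2, power_zero]
        exact one_le_aleph0.trans hS
      | some p =>
        have h2 : #(cloAr T N (some p)) = c := hN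
        rw [h2, hc]
    refine (Cardinal.sum_le_sum _ (fun _ => succ c) h1).trans ?_
    rw [Cardinal.sum_const']
    refine (mul_le_mul' (?_ : #(Option (T × N)) ≤ succ c) le_rfl).trans (Cardinal.mul_eq_self hS).le
    rw [Cardinal.mk_option, Cardinal.mk_prod, Cardinal.lift_id, Cardinal.lift_id, hN]
    refine Cardinal.add_le_of_le hS ?_ (one_le_aleph0.trans hS)
    exact (mul_le_mul' hT (Order.le_succ c)).trans (Cardinal.mul_eq_self hS).le
  · exact ⟨WType.mk none (fun x => PEmpty.elim x), rfl⟩
  · intro t s hs x
    choose w hw using hs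
    refine ⟨WType.mk (some (t, x)) w, ?_⟩
    change G t (fun n => WType.elim (β := cloAr T N) L (cloStep G l0) (w n)) x = G t s x
    rw [funext hw]

end PG
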