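import Pool.Agent.H92.PG.Cca
import Pool.Agent.H92.PG.Clo

/-!
# CCB: the chain condition
-/

set_option autoImplicit false

universe u v

open Cardinal Order

namespace PG

open PK BV

variable {D : Dat.{u}} {X : Type u}

theorem ccb_enum {N L : Type u} (S : Set L) (hS : #S ≤ #N) (l0 : L) :
    ∃ s : N → L, S ⊆ Set.range s ∧ ∀ x, s x ∈ S ∨ s x = l0 := by
  classical
  obtain ⟨f⟩ := hS
  refine ⟨fun x => if h : ∃ a : S, f a = x then (h.choose : L) else l0, ?_, ?_⟩
  · intro a ha
    refine ⟨f ⟨a, ha⟩, ?_⟩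
    have h : ∃ b : S, f b = f ⟨a, ha⟩ := ⟨⟨a, ha⟩, rfl⟩
    simp only [dif_pos h]
    have h2 := f.injective h.choose_spec
    rw [h2]
  · intro x
    by_cases h : ∃ a : S, f a = x
    · simp only [dif_pos h]
      exact Or.inl h.choose.2
    · simp only [dif_neg h]
      exact Or.inr trivial

theorem ccb_compat {p p' : Pc D × Fp X} (hl : p.1.len = p'.1.len) (hq : p.2 = p'.2)
    (h : ∀ α, α ∈ supp p.1 → α ∈ supp p'.1 → ∀ n, p.1.f n α = p'.1.f n α) :
    ∃ r, r ≤ p ∧ r ≤ p' := by
  obtain ⟨r, h1, h2⟩ := exists_le_le_of_supp hl h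
  exact ⟨(r, p.2), ⟨h1, le_refl _⟩, ⟨h2, hq ▸ le_refl _⟩⟩

/-- Suppose that the `g i` are pairwise incompatible. Let `N = D.nu.out` or `D.nu.ord.ToType`
(cardinality `ν`) and let `T` be the type of traces. Some `g i0` exists; if `D.L` is empty all
conditions of the same length and the same finite part are compatible, so assume that there is
`l0 : D.L`. For `t : T` and `s : N → D.L` choose `i(t, s)` such that `trace (g (i(t, s))) s = t` if there
is such an `i`, and let `G t s : N → D.L` be a function whose range contains `supp (g (i(t, s))).1`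
(`mk_supp`; its range is `supp ∪ {l0}`). Let `C` be the closed set of `exists_closed`
(`(succ ν) ^ ν = (2 ^ ν) ^ ν = 2 ^ ν = succ ν`). For every `i : I` let `s_i : N → C` be a function
with range `(supp (g i).1 ∩ C) ∪ {l0}` and `t_i = trace (g i) s_i`. There are at most `ν⁺` pairs
`(t, s)` with `s : N → C`, so there are `i ≠ j` with `(t_i, s_i) = (t_j, s_j) = (t, s)`. Let `k = i(t, s)`,
so `supp (g k).1 ⊆ C`. If `α ∈ supp (g i).1 ∩ supp (g k).1` then `α ∈ C`, so `α = s x` for some `x` and
`(g i).1.f n α = (g k).1.f n α`: `g i` and `g k` are compatible (`exists_le_le_of_supp`, same finite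
part), so `i = k`. In the same way `j = k`. Contradiction. -/
theorem exists_compat (hG : ∀ c : Cardinal.{u}, ℵ₀ ≤ c → 2 ^ c = succ c) (hX0 : ℵ₀ ≤ #X) (hX : #X ≤ D.nu)
    (I : Type u) (hI : succ D.nu < #I) (g : I → Pc D × Fp X) :
    ∃ i j, i ≠ j ∧ ∃ r, r ≤ g i ∧ r ≤ g j := by
  classical
  by_contra hcon
  push Not at hcon
  have hinc : ∀ i j, (∃ r, r ≤ g i ∧ r ≤ g j) → i = j := by
    intro i j hr
    by_contra hij
    obtain ⟨r, h1, h2⟩ := hr
    exact hcon i j hij r h1 h2
  have hnu : ℵ₀ ≤ D.nu := D.aleph0_lt_nu.le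
  have hS : ℵ₀ ≤ succ D.nu := hnu.trans (Order.le_succ _)
  have hpow : (succ D.nu) ^ D.nu = succ D.nu := by
    rw [← hG _ hnu, ← power_mul, mul_eq_self hnu]
  let N : Type u := D.nu.out
  have hN : #N = D.nu := Cardinal.mk_out _
  have hT := mk_traces (D := D) hG hX0 hX hN
  have : Nonempty I := by
    by_contra hne
    rw [not_nonempty_iff] at hne
    have : #I = 0 := Cardinal.mk_eq_zero_iff.2 hne
    rw [this] at hI
    exact absurd hI (not_lt.2 zero_le)
  by_cases hL : Nonempty D.L
  · obtain ⟨l0⟩ := hL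
    let T := ULift.{u} ℕ × (∀ n : ℕ, N → Option (D.Kt n)) × Fp X
    have hpick : ∀ (t : T) (s : N → D.L), ∃ k : I, (∃ i, trace (g i) s = t) → trace (g k) s = t := by
      intro t s
      by_cases h : ∃ i, trace (g i) s = t
      · obtain ⟨i, hi⟩ := h
        exact ⟨i, fun _ => hi⟩
      · exact ⟨Classical.arbitrary I, fun h' => absurd h' h⟩
    choose pick hpick using hpick
    have hG' : ∀ (t : T) (s : N → D.L), ∃ s' : N → D.L, supp (g (pick t s)).1 ⊆ Set.range s' := by
      intro t s
      obtain ⟨s', h1, _⟩ := ccb_enum (N := N) (supp (g (pick t s)).1) (by rw [hN]; exact mk_supp _) l0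
      exact ⟨s', h1⟩
    choose G hG' using hG'
    obtain ⟨C, hC, hl0, hcl⟩ := exists_closed hnu hpow N T D.L hN hT G l0
    have hsi : ∀ i : I, ∃ s : N → C, ∀ α, α ∈ supp (g i).1 → α ∈ C → ∃ x, (s x : D.L) = α := by
      intro i
      obtain ⟨s, h1, h2⟩ := ccb_enum (N := N) (supp (g i).1 ∩ C)
        (by rw [hN]; exact (Cardinal.mk_le_mk_of_subset Set.inter_subset_left).trans (mk_supp _)) l0
      refine ⟨fun x => ⟨s x, ?_⟩, fun α h h' => ?_⟩
      · rcases h2 x with h | h
        · exact h.2
        · rw [h]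
          exact hl0
      · obtain ⟨x, hx⟩ := h1 ⟨h, h'⟩
        exact ⟨x, hx⟩
    choose si hsi using hsi
    let F : I → T × (N → C) := fun i => (trace (g i) (fun x => (si i x : D.L)), si i)
    have hF : ¬ Function.Injective F := by
      intro hinj
      have h1 : #I ≤ #(T × (N → C)) := Cardinal.mk_le_of_injective hinj
      have h2 : #(T × (N → C)) ≤ succ D.nu := by
        rw [Cardinal.mk_prod, Cardinal.lift_id, Cardinal.lift_id]
        refine (mul_le_mul' hT (?_ : #(N → C) ≤ succ D.nu)).trans (mul_eq_self hS).le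
        rw [← Cardinal.power_def, hN]
        exact (Cardinal.power_le_power_right hC).trans hpow.le
      exact absurd (h1.trans h2) (not_le.2 hI)
    rw [Function.Injective] at hF
    push Not at hF
    obtain ⟨i, j, hij, hne⟩ := hF
    have e1 : trace (g i) (fun x => (si i x : D.L)) = trace (g j) (fun x => (si j x : D.L)) :=
      congrArg Prod.fst hij
    have e2 : si i = si j := congrArg Prod.snd hij
    set s : N → D.L := fun x => (si i x : D.L) with hs
    set t : T := trace (g i) s with ht
    have e3 : trace (g j) s = t := by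
      have e4 : s = fun x => (si j x : D.L) := by rw [hs, e2]
      exact (congrArg (trace (g j)) e4).trans e1.symm
    have hk : trace (g (pick t s)) s = t := hpick t s ⟨i, rfl⟩
    have hkC : supp (g (pick t s)).1 ⊆ C := by
      intro α hα
      obtain ⟨x, rfl⟩ := hG' t s hα
      exact hcl t s (fun x => (si i x).2) x
    have key : ∀ i' : I, trace (g i') s = t → (∀ α, α ∈ supp (g i').1 → α ∈ C → ∃ x, s x = α) →
        i' = pick t s := by
      intro i' h1 h2
      have h3 : trace (g i') s = trace (g (pick t s)) s := h1.trans hk.symm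
      have h4 : (g i').1.len = (g (pick t s)).1.len := congrArg (fun z : T => z.1.down) h3
      have h5 : (g i').2 = (g (pick t s)).2 := congrArg (fun z : T => z.2.2) h3
      refine hinc _ _ (ccb_compat h4 h5 fun α ha hb n => ?_)
      obtain ⟨x, rfl⟩ := h2 α ha (hkC hb)
      exact congrFun (congrFun (congrArg (fun z : T => z.2.1) h3) n) x
    have hi := key i rfl (fun α h h' => hsi i α h h')
    have hj := key j e3 (fun α h h' => by
      obtain ⟨x, hx⟩ := hsi j α h h'
      exact ⟨x, by rw [hs, e2]; exact hx⟩)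
    exact hne (hi.trans hj.symm)
  · rw [not_nonempty_iff] at hL
    let F : I → ULift.{u} ℕ × (∀ n : ℕ, N → Option (D.Kt n)) × Fp X :=
      fun i => (⟨(g i).1.len⟩, fun _ _ => none, (g i).2)
    have hF : ¬ Function.Injective F := by
      intro hinj
      exact absurd ((Cardinal.mk_le_of_injective hinj).trans hT) (not_le.2 hI)
    rw [Function.Injective] at hF
    push Not at hF
    obtain ⟨i, j, hij, hne⟩ := hF
    refine hne (hinc _ _ (ccb_compat (congrArg (fun z => z.1.down) hij)
      (congrArg (fun z => z.2.2) hij) fun α => ?_))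
    exact isEmptyElim α

end PG
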