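import Pool.Agent.H92.PG.Base

/-!
# CNT: counting stems
-/

set_option autoImplicit false

universe u v

open Cardinal Order

namespace PG

open PK BV

variable {D : Dat.{u}}

theorem cnt_fun (a : ℕ → Set D.L) (ha : ∀ n, #(a n) < D.K n) (n m : ℕ) (h : n < m) :
    #(a n → D.Kt n) < D.K m := by
  rw [← power_def, mk_ord_toType]
  refine lt_of_le_of_lt ?_ (D.lim m _ (D.mono h))
  calc (D.K n) ^ #(a n) ≤ (D.K n) ^ (D.K n) :=
        power_le_power_left (by
          intro h
          exact absurd (h ▸ D.unc n) (not_lt.2 zero_le)) (ha n).le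
    _ = 2 ^ (D.K n) := power_self_eq (D.unc n).le

/-- finite products of types of cardinality `< c`, `c` infinite -/
theorem cnt_fin {c : Cardinal.{u}} (hc : ℵ₀ ≤ c) (m : ℕ) (Y : Fin m → Type u)
    (hY : ∀ n, #(Y n) < c) : #(∀ n, Y n) < c := by
  induction m with
  | zero =>
    have : Unique (∀ n : Fin 0, Y n) := ⟨⟨fun n => n.elim0⟩, fun f => funext fun n => n.elim0⟩
    rw [mk_eq_one]
    exact one_lt_aleph0.trans_le hc
  | succ m ih =>
    have h1 : #(∀ n, Y n) ≤ #(Y 0 × (∀ n : Fin m, Y n.succ)) := by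
      refine mk_le_of_injective (f := fun f => (f 0, fun n => f n.succ)) ?_
      intro f g h
      obtain ⟨h2, h3⟩ := Prod.mk.inj h
      funext n
      refine Fin.cases h2 (fun i => congrFun h3 i) n
    refine h1.trans_lt ?_
    rw [mk_prod, lift_id, lift_id]
    exact mul_lt_of_lt hc (hY 0) (ih (fun n => Y n.succ) fun n => hY n.succ)

/-- `#(a n → K n) = K n ^ #(a n) ≤ K n ^ K n = 2 ^ K n < K m` for `n < m` (`D.lim`, `D.mono`), and a
finite product of cardinals `< K m` is `< K m`. -/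
theorem mk_stems (a : ℕ → Set D.L) (ha : ∀ n, #(a n) < D.K n) (m : ℕ) :
    #(∀ n : Fin m, (a n → D.Kt n)) < D.K m :=
  cnt_fin (D.unc m).le m (fun n : Fin m => (a n → D.Kt n)) fun n => cnt_fun a ha n m n.2

/-- let `g : T → ν` be injective (`ν = D.nu.ord.ToType`) and
`S m = {t | g t < K (m - 1)}` for `m ≥ 1`, `S 0 = ∅` (compare the ordinal `(g t).toOrd` with
`(D.K (m - 1)).ord`). -/
theorem exists_filt (T : Type u) (hT : #T ≤ D.nu) :
    ∃ S : ℕ → Set T, Monotone S ∧ (∀ m, #(S m) < D.K m) ∧ ∀ t, ∃ m, t ∈ S m := by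
  have h1 : #T ≤ #D.nu.ord.ToType := by rwa [mk_ord_toType]
  obtain ⟨g⟩ := h1
  refine ⟨fun m => {t | ∃ n < m, ((g t).toOrd : Ordinal) < (D.K n).ord}, ?_, ?_, ?_⟩
  · rintro m m' h t ⟨n, hn, ht⟩
    exact ⟨n, hn.trans_le h, ht⟩
  · intro m
    cases m with
    | zero =>
      have h2 : {t | ∃ n < 0, ((g t).toOrd : Ordinal) < (D.K n).ord} = (∅ : Set T) := by
        ext t
        simp
      show #{t | ∃ n < 0, ((g t).toOrd : Ordinal) < (D.K n).ord} < D.K 0
      rw [h2]
      simpa using aleph0_pos.trans (D.unc 0)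
    | succ m =>
      have h2 : #{t | ∃ n < m + 1, ((g t).toOrd : Ordinal) < (D.K n).ord} ≤
          #(D.K m).ord.ToType := by
        refine mk_le_of_injective (f := fun t : {t | ∃ n < m + 1, ((g t).toOrd : Ordinal) < (D.K n).ord} =>
          (Ordinal.ToType.mk ⟨((g t.1).toOrd : Ordinal), ?_⟩ : (D.K m).ord.ToType)) ?_
        · obtain ⟨t, n, hn, ht⟩ := t
          exact ht.trans_le (ord_le_ord.2 (D.mono.monotone (Nat.lt_succ_iff.1 hn)))
        · intro t t' h
          have h3 := (Ordinal.ToType.mk (o := (D.K m).ord)).injective h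
          have h4 : ((g t.1).toOrd : Ordinal) = ((g t'.1).toOrd : Ordinal) :=
            Subtype.mk.inj h3
          have h5 : g t.1 = g t'.1 :=
            (Ordinal.ToType.mk (o := D.nu.ord)).symm.injective (Subtype.ext h4)
          exact Subtype.ext (g.injective h5)
      refine h2.trans_lt ?_
      rw [mk_ord_toType]
      exact D.mono (Nat.lt_succ_self m)
  · intro t
    have h2 : ((g t).toOrd : Ordinal) < D.nu.ord := (g t).toOrd.2
    rw [lt_ord] at h2
    obtain ⟨n, hn⟩ := D.exists_lt_K h2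
    exact ⟨n + 1, n, Nat.lt_succ_self n, lt_ord.2 hn⟩

theorem aleph_one_lt (D : Dat.{u}) (n : ℕ) : (ℵ_ 1 : Cardinal.{u}) < D.K n := by
  have h4 : (ℵ_ 1 : Cardinal.{u}) ≤ 2 ^ (ℵ₀ : Cardinal.{u}) := by
    rw [← succ_aleph0]
    exact succ_le_of_lt (cantor _)
  exact h4.trans_lt (D.lim n _ (D.unc n))

end PG
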