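import Pool.Agent.H92.PG.Ccb
import Pool.Agent.H92.PG.Bdd

/-!
# CVA: functions into regular cardinals above `ν⁺`
-/

set_option autoImplicit false

universe u v

open Cardinal Order

namespace PG

open PK BV

variable {D : Dat.{u}} {X B : Type u} [CompleteBooleanAlgebra B] {e : Pc D × Fp X → B}

/-- Use `cov_of_vals` with `b' = b` and `W ξ = {α | R ξ α ≠ ⊥}`. If `#(W ξ)` were greater than `ν⁺`, the
conditions `g α` with `e (g α) ≤ R ξ α` would be pairwise incompatible, a contradiction to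
`exists_compat`. So `#(W ξ) ≤ ν⁺ < χ`. -/
theorem cov_A (he : DenseEmb (Pc D × Fp X) B e)
    (hG : ∀ c : Cardinal.{u}, ℵ₀ ≤ c → 2 ^ c = succ c) (hX0 : ℵ₀ ≤ #X) (hX : #X ≤ D.nu) {χ : Cardinal.{u}}
    (hχ : χ.IsRegular) (h : succ D.nu < χ) : Cov B χ := by
  refine cov_of_vals hχ ?_
  intro β _ R hR b hb
  refine ⟨b, le_rfl, hb, fun ξ => {α | R ξ (α.toOrd : Ordinal) ≠ ⊥}, ?_, ?_⟩
  · intro ξ _
    refine lt_of_le_of_lt ?_ h
    by_contra hcon
    rw [not_le] at hcon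
    choose g hg using fun α : {α : χ.ord.ToType | R ξ (α.toOrd : Ordinal) ≠ ⊥} =>
      he.dense _ α.2
    obtain ⟨i, j, hij, r, hri, hrj⟩ := exists_compat hG hX0 hX _ hcon g
    have h1 : e r ≤ R ξ (i.1.toOrd : Ordinal) := (he.mono _ _ hri).trans (hg i)
    have h2 : e r ≤ R ξ (j.1.toOrd : Ordinal) := (he.mono _ _ hrj).trans (hg j)
    have h3 : (i.1.toOrd : Ordinal) ≠ (j.1.toOrd : Ordinal) := by
      intro h4
      have h5 : i.1.toOrd = j.1.toOrd := Subtype.ext h4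
      exact hij (Subtype.ext ((Ordinal.ToType.mk (o := χ.ord)).symm.injective h5))
    have h4 := le_inf h1 h2
    rw [hR ξ _ _ h3] at h4
    exact he.ne_bot r (le_bot_iff.mp h4)
  · intro ξ _ α hα
    change R ξ (α.toOrd : Ordinal) ≠ ⊥
    intro h1
    apply hα
    rw [h1, inf_bot_eq]

end PG
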