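import Pool.Agent.H92.PG.Fus
import Pool.Agent.H92.PG.Bdd

/-!
# CVB: functions into `ν⁺`
-/

set_option autoImplicit false

universe u v

open Cardinal Order

namespace PG

open PK BV

variable {D : Dat.{u}} {X B : Type u} [CompleteBooleanAlgebra B] {e : Pc D × Fp X → B}

open Classical in
/-- extension of a restricted stem -/
noncomputable def cvbExt (a : ℕ → Set D.L) (m : ℕ) (t : ∀ n : Fin m, (a n → D.Kt n)) (n : ℕ)
    (α : D.L) : D.Kt n :=
  if h : n < m ∧ α ∈ a n then t ⟨n, h.1⟩ ⟨α, h.2⟩ else Classical.arbitrary _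

/-- Use `cov_of_vals`. Let `b`, `R`, `β` with `β.card < succ ν`, so `#β.ToType ≤ ν`, be given, take
`(p, q)` with `e (p, q) ≤ b` and `S` from `exists_filt β.ToType`. Apply `exists_fus` to `p`,
`β m = S m`, `R m i = R i.toOrd` to get `r`. Take `b' = e (r, q)` and, for `ξ < β` with the
corresponding `i : β.ToType`, `W ξ = {α | α.toOrd ∈ ⋃ m, ⋃ s, Vals e (R ξ) (r.add s m)}` where `m` runs
through the numbers `≥ r.len` with `i ∈ S m` and `s` through all stems; by `add_congr` the union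
over `s` can be taken over the representatives of the elements of
`∀ n : Fin m, (r.a n → D.Kt n)`, less than `K m ≤ ν` of them (`mk_stems`), and the sets are
countable: `#(W ξ) ≤ ν < succ ν`. If `e (r, q) ⊓ R ξ α ≠ ⊥` then `α ∈ AVals e (R ξ) r`
(`he.exists_le_of_inf_ne_bot`), and `avals_stem` with a large `m` (`S` is monotone) gives
`α ∈ W ξ`. -/
theorem cov_B (he : DenseEmb (Pc D × Fp X) B e) : Cov B (succ D.nu) := by
  have hnu : ℵ₀ ≤ D.nu := D.aleph0_lt_nu.le
  refine cov_of_vals (isRegular_succ hnu) fun β hβ R hR b hb => ?_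
  obtain ⟨⟨p, q⟩, hp⟩ := he.dense b hb
  obtain ⟨S, hSm, hSc, hSu⟩ := exists_filt (D := D) β.ToType (by
    rw [mk_toType]
    exact lt_succ_iff.1 hβ)
  obtain ⟨r, hr, hrc⟩ := exists_fus he p (fun m => S m) (fun m => hSc m)
    (fun m i => R (i.1.toOrd : Ordinal)) (fun m i => hR _)
  have hlen : r.len = p.len := hr.1
  let V : (Σ m : ULift.{u} ℕ, ∀ n : Fin m.down, (r.a n → D.Kt n)) → Ordinal.{u} →
      Set (succ D.nu).ord.ToType := fun x ξ =>
    {α | (p.len ≤ x.1.down ∧ ∃ i ∈ S x.1.down, (i.toOrd : Ordinal) = ξ) ∧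
      (α.toOrd : Ordinal) ∈ Vals e (R ξ) (r.add (cvbExt r.a x.1.down x.2) x.1.down)}
  have hV : ∀ x ξ, #(V x ξ) ≤ ℵ₀ := by
    intro x ξ
    rw [le_aleph0_iff_set_countable]
    by_cases h : p.len ≤ x.1.down ∧ ∃ i ∈ S x.1.down, (i.toOrd : Ordinal) = ξ
    · obtain ⟨h1, i, hi, rfl⟩ := h
      have h2 := hrc x.1.down h1 ⟨i, hi⟩ (cvbExt r.a x.1.down x.2)
      have hinj : Function.Injective (fun α : (succ D.nu).ord.ToType => (α.toOrd : Ordinal.{u})) := by
        intro α α' h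
        exact (Ordinal.ToType.mk (o := (succ D.nu).ord)).symm.injective (Subtype.ext h)
      exact (Set.Countable.preimage_of_injOn h2 hinj.injOn).mono fun α hα => hα.2
    · have h3 : V x ξ = ∅ := by
        ext α
        constructor
        · rintro ⟨h4, -⟩
          exact absurd h4 h
        · intro h4
          exact absurd h4 (Set.notMem_empty _)
      rw [h3]
      exact Set.countable_empty
  have hι : #(Σ m : ULift.{u} ℕ, ∀ n : Fin m.down, (r.a n → D.Kt n)) ≤ D.nu := by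
    rw [mk_sigma]
    refine (sum_le_sum _ (fun _ => D.nu) fun (m : ULift.{u} ℕ) =>
      ((mk_stems r.a r.ha m.down).le.trans (D.K_lt_nu _).le)).trans ?_
    rw [sum_const, lift_id, lift_id, mk_uLift, mk_nat, lift_aleph0]
    exact (aleph0_mul_eq hnu).le
  refine ⟨e (r, q), (he.mono _ _ (show (r, q) ≤ (p, q) from ⟨hr.le, le_rfl⟩)).trans hp,
    he.ne_bot _, fun ξ => ⋃ x, V x ξ, fun ξ _ => ?_, fun ξ hξ α hα => ?_⟩
  · refine lt_succ_iff.2 (mk_iUnion_le_sum_mk.trans ?_)
    refine (sum_le_sum _ (fun _ => ℵ₀) fun x => hV x ξ).trans ?_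
    rw [sum_const, lift_id, lift_id]
    exact mul_le_of_le hnu hι hnu
  · obtain ⟨⟨r', q'⟩, hr', hR'⟩ := he.exists_le_of_inf_ne_bot hα
    have hA : (α.toOrd : Ordinal) ∈ AVals e (R ξ) r := ⟨r', hr'.1, q', hR'⟩
    obtain ⟨m0, hm0, hst⟩ := avals_stem he hA
    set i : β.ToType := Ordinal.ToType.mk ⟨ξ, hξ⟩ with hi
    have hi' : (i.toOrd : Ordinal) = ξ := by rw [hi]; simp
    obtain ⟨m1, hm1⟩ := hSu i
    obtain ⟨s, -, hs⟩ := hst (max m0 m1) (le_max_left _ _)
    refine Set.mem_iUnion.2 ⟨⟨⟨max m0 m1⟩, fun n α => s n α⟩, ⟨?_, i, hSm (le_max_right _ _) hm1, hi'⟩, ?_⟩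
    · rw [← hlen]
      exact hm0.trans (le_max_left _ _)
    · show (α.toOrd : Ordinal) ∈ Vals e (R ξ) (r.add (cvbExt r.a (max m0 m1) fun n α => s n α)
        (max m0 m1))
      rw [← add_congr r (s := s) (max m0 m1)]
      · exact hs
      · intro n _ hn' α hα
        unfold cvbExt
        rw [dif_pos ⟨hn', hα⟩]

end PG
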