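import Pool.Agent.H92.PG.Ava
import Pool.Agent.H92.PG.Bdd

/-!
# CVC: functions into small regular cardinals
-/

set_option autoImplicit false

universe u v

open Cardinal Order

namespace PG

open PK BV

variable {D : Dat.{u}} {X B : Type u} [CompleteBooleanAlgebra B] {e : Pc D × Fp X → B}

/-- Use `cov_of_vals`. Take `(p, q)` with `e (p, q) ≤ b`; by `D.exists_lt_K` and `exists_long` we may
assume that `χ < K p.len`. Apply `exists_dist` with `rel = Fr p.len`, `κ = K p.len`, the tasks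
`i : β.ToType` (`#β.ToType = β.card < χ < K p.len`) and
`Q i x ↔ x.len = p.len → (AVals e (R' i) x).Countable`, `R' i α = R i.toOrd α` for `α < χ.ord` and `⊥`
otherwise (`exists_avals`, `avals_mono`, `exists_lb`). Then `W ξ` is countable. -/
theorem cov_C (he : DenseEmb (Pc D × Fp X) B e) {χ : Cardinal.{u}} (hχ : χ.IsRegular)
    (h0 : ℵ₀ < χ) (h1 : χ < D.nu) : Cov B χ := by
  classical
  refine cov_of_vals hχ ?_
  intro β hβ R hR b hb
  obtain ⟨⟨p0, q0⟩, hp0⟩ := he.dense b hb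
  obtain ⟨n, hn⟩ := D.exists_lt_K h1
  obtain ⟨p, hpp, hlen, -, -, -⟩ := exists_long p0 n
  have hχp : χ < D.K p.len := by
    refine hn.trans_le (D.mono.monotone ?_)
    rw [hlen]
    exact le_max_right _ _
  obtain ⟨R', hR'⟩ : ∃ R' : β.ToType → Ordinal.{u} → B,
      R' = fun i α => if α < χ.ord then R (i.toOrd : Ordinal) α else ⊥ := ⟨_, rfl⟩
  have hR'd : ∀ i, Disj (R' i) := by
    intro i α α' hne
    rw [hR']
    by_cases h2 : α < χ.ord
    · by_cases h3 : α' < χ.ord
      · simp only [if_pos h2, if_pos h3]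
        exact hR _ _ _ hne
      · simp only [if_neg h3, inf_bot_eq]
    · simp only [if_neg h2, bot_inf_eq]
  have hR'b : ∀ i α, χ.ord ≤ α → R' i α = ⊥ := by
    intro i α hα
    rw [hR']
    simp only [if_neg (not_lt.mpr hα)]
  obtain ⟨z, hz, hz2⟩ := exists_dist (P := Pc D) (fun x y => Pc.Fr p.len x y)
    (fun x => Pc.Fr.refl _ x) (fun _ _ _ h h' => Pc.Fr.trans h h') (D.unc p.len).le
    (fun ι g hι hne hc => exists_lb p.len ι g hι hne hc) β.ToType
    (by
      rw [Cardinal.mk_toType]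
      exact hβ.trans hχp)
    (fun i x => x.len = p.len → (AVals e (R' i) x).Countable)
    (by
      intro i x y hxy hQ hx
      exact (hQ (hxy.1 ▸ hx)).mono (avals_mono (Pc.Fr.le hxy)))
    p
    (by
      intro i x hx
      have hxl : x.len = p.len := hx.1
      obtain ⟨r, hr1, hr2⟩ := exists_avals he (hR'd i) x (hxl.symm ▸ hχp) (hR'b i)
      rw [hxl] at hr1
      exact ⟨r, hr1, fun _ => hr2⟩)
  refine ⟨e (z, q0), ?_, he.ne_bot _,
    fun ξ => {α | e (z, q0) ⊓ R ξ (α.toOrd : Ordinal) ≠ ⊥}, ?_, fun ξ _ α hα => hα⟩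
  · exact (he.mono _ _ (show (z, q0) ≤ (p0, q0) from ⟨(Pc.Fr.le hz).trans hpp, le_refl _⟩)).trans hp0
  · intro ξ hξ
    refine lt_of_le_of_lt ?_ h0
    have hcount : (AVals e (R' (Ordinal.ToType.mk ⟨ξ, hξ⟩)) z).Countable := hz2 _ hz.1
    refine Set.Countable.le_aleph0 ?_
    have hinj : Function.Injective (fun α : χ.ord.ToType => (α.toOrd : Ordinal.{u})) := by
      intro α α' h2
      have h3 : α.toOrd = α'.toOrd := Subtype.ext h2
      exact (Ordinal.ToType.mk (o := χ.ord)).symm.injective h3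
    refine Set.Countable.mono ?_ (hcount.preimage_of_injOn (f := fun α : χ.ord.ToType =>
      (α.toOrd : Ordinal.{u})) hinj.injOn)
    intro α hα
    obtain ⟨⟨r, q⟩, hrq, hrq2⟩ := he.exists_le_of_inf_ne_bot hα
    refine ⟨r, hrq.1, q, hrq2.trans (le_of_eq ?_)⟩
    rw [hR']
    have h2 : ((α.toOrd : Set.Iio χ.ord) : Ordinal.{u}) < χ.ord := α.toOrd.2
    simp only [if_pos h2]
    congr 1
    change ξ = ((Ordinal.ToType.mk.symm (Ordinal.ToType.mk (⟨ξ, hξ⟩ : Set.Iio β)) :
      Set.Iio β) : Ordinal.{u})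
    rw [OrderIso.symm_apply_apply]

end PG
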