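import Pool.Agent.H92.PK.Defs

/-!
# DEF: the statement with the same cofinalities
-/

set_option autoImplicit false

universe u v

open Cardinal Order

namespace PG

open PK BV

variable {M : Type v}

/-- `x` is a regular cardinal of `(M, E)`: an infinite cardinal such that no function from an element
of `x` to `x` has unbounded range -/
def IsRegCard (E : M → M → Prop) (x : M) : Prop :=
  InfCard E x ∧ ∀ β f, E β x → ¬ CofMap E f β x

/-- `IsExample`, and moreover all regular cardinals of `V` are regular cardinals of `V[A]` (so `V`
and `V[A]` have the same cofinalities), and `l` has uncountable cofinality in `V[A]` -/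
structure IsExampleCof (E : M → M → Prop) (W : M → Prop) (l A : M) : Prop
    extends IsExample E W l A where
  reg : ∀ x (hx : W x), IsRegCard (Res E W) ⟨x, hx⟩ → IsRegCard E x
  unc : ∀ w f, IsOmega E w → ¬ CofMap E f w l

end PG
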