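import Mathlib

/-!
# DIS: distributivity
-/

set_option autoImplicit false

universe u v

open Cardinal Order

namespace PG

/-- If chains of size `< κ` have lower bounds then less than `κ` dense sets can be met at once.
Well-order `T` (e.g. by `WellOrderingRel` or `exists_wellOrder`) and define `g : T → P` by recursion:
`g t` is an `x` with `rel x p`, `rel x (g t')` for all `t' < t`, and `Q t x` if such an `x` exists,
and `p` otherwise. By induction on `t` such an `x` exists: the family consisting of `p` and the
`g t'`, `t' < t` (index type `Option {t' // t' < t}`, of cardinality `< κ` since `κ` is infinite) is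
pairwise comparable, so it has a lower bound `x0`, and `hd t x0` gives `x`. Finally take a lower
bound of `p` and all `g t`. -/
theorem exists_dist {P : Type v} (rel : P → P → Prop) (hr : ∀ x, rel x x)
    (ht : ∀ x y z, rel x y → rel y z → rel x z) {κ : Cardinal.{u}} (hκ : ℵ₀ ≤ κ)
    (hc : ∀ (ι : Type u) (g : ι → P), #ι < κ → Nonempty ι →
      (∀ i j, rel (g i) (g j) ∨ rel (g j) (g i)) → ∃ z, ∀ i, rel z (g i))
    (T : Type u) (hT : #T < κ) (Q : T → P → Prop) (hdown : ∀ t x y, rel x y → Q t y → Q t x)
    (p : P) (hd : ∀ t x, rel x p → ∃ y, rel y x ∧ Q t y) : ∃ z, rel z p ∧ ∀ t, Q t z := by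
  classical
  let _ : LinearOrder T := linearOrderOfSTO WellOrderingRel
  have : WellFoundedLT T := ⟨WellOrderingRel.isWellOrder.wf⟩
  -- the recursion
  let C : (t : T) → ((t' : T) → t' < t → P) → P → Prop := fun t G x =>
    rel x p ∧ (∀ t' (h : t' < t), rel x (G t' h)) ∧ Q t x
  let step : (t : T) → ((t' : T) → t' < t → P) → P := fun t G =>
    if h : ∃ x, C t G x then h.choose else p
  let g : T → P := wellFounded_lt.fix step
  have hg : ∀ t, (∃ x, C t (fun t' _ => g t') x) → C t (fun t' _ => g t') (g t) := by
    intro t h
    have h2 : g t = step t (fun t' _ => g t') := wellFounded_lt.fix_eq step t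
    have h3 : step t (fun t' _ => g t') = h.choose := dif_pos h
    rw [h2, h3]
    exact h.choose_spec
  have hopt : ∀ (S : Type u), #S < κ → #(Option S) < κ := by
    intro S hS
    rw [mk_option]
    exact add_lt_of_lt hκ hS (one_lt_aleph0.trans_le hκ)
  have key : ∀ t, C t (fun t' _ => g t') (g t) := by
    intro t
    refine (wellFounded_lt (α := T)).induction (C := fun t => C t (fun t' _ => g t') (g t)) t ?_
    clear t
    intro t ih
    · apply hg
      obtain ⟨x0, hx0⟩ := hc (Option {t' : T // t' < t})
        (fun o => o.elim p (fun t' => g t'.1)) (hopt _ ((mk_subtype_le _).trans_lt hT))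
        ⟨none⟩ (by
          rintro (_ | ⟨i, hi⟩) (_ | ⟨j, hj⟩)
          · exact Or.inl (hr _)
          · exact Or.inr (ih j hj).1
          · exact Or.inl (ih i hi).1
          · rcases lt_trichotomy i j with h | h | h
            · exact Or.inr ((ih j hj).2.1 i h)
            · subst h
              exact Or.inl (hr _)
            · exact Or.inl ((ih i hi).2.1 j h))
      obtain ⟨x, hx, hQ⟩ := hd t x0 (hx0 none)
      exact ⟨x, ht _ _ _ hx (hx0 none), fun t' h => ht _ _ _ hx (hx0 (some ⟨t', h⟩)), hQ⟩
  obtain ⟨z, hz⟩ := hc (Option T) (fun o => o.elim p g) (hopt _ hT) ⟨none⟩ (by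
    rintro (_ | i) (_ | j)
    · exact Or.inl (hr _)
    · exact Or.inr (key j).1
    · exact Or.inl (key i).1
    · rcases lt_trichotomy i j with h | h | h
      · exact Or.inr ((key j).2.1 i h)
      · subst h
        exact Or.inl (hr _)
      · exact Or.inl ((key i).2.1 j h))
  exact ⟨z, hz none, fun t => hdown t _ _ (hz (some t)) (key t).2.2⟩

end PG
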