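import Pool.Agent.H92.PG.Gnb

/-!
# GNC: the generic filter is definable from the atoms, third part
-/

set_option autoImplicit false

universe u v

open Cardinal Order

namespace PG

open PK BV

variable {D : Dat.{u}} {X B : Type u} [CompleteBooleanAlgebra B] {e : Pc D × Fp X → B}

/-- if `(⨅ ..) ⊓ (e p)ᶜ ≠ ⊥` it contains an `e p'`; use `compat_of_le` -/
theorem wOf_eq (he : DenseEmb (Pc D × Fp X) B e) (p : Pc D × Fp X) :
    e p = ⨅ v ∈ wOf p, ⨆ z ∈ v, ⨅ x ∈ z, av e x := by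
  refine le_antisymm (e_le_wOf he p) ?_
  rw [← sdiff_eq_bot_iff, sdiff_eq]
  by_contra hne
  obtain ⟨p', hp'⟩ := he.dense _ hne
  obtain ⟨r, hr1, hr2⟩ := compat_of_le he p p' (hp'.trans inf_le_left)
  refine he.ne_bot r (le_bot_iff.1 ?_)
  rw [← inf_compl_self (a := e p)]
  exact le_inf (he.mono _ _ hr2) (((he.mono _ _ hr1).trans hp').trans inf_le_right)

/-- `b = ⨆ e p` over the `p` with `e p ≤ b`, see `PK.gen_A` in `PK/GenA.lean` -/
theorem gen_atm (he : DenseEmb (Pc D × Fp X) B e) (b : B) :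
    ∃ S : Set (Set (Set (Set (Atm D X)))), b = ⨆ w ∈ S, ⨅ v ∈ w, ⨆ z ∈ v, ⨅ x ∈ z, av e x := by
  refine ⟨Set.range fun p : {p : Pc D × Fp X // e p ≤ b} => wOf p.1, ?_⟩
  rw [iSup_range]
  have h0 : (⨆ p : {p : Pc D × Fp X // e p ≤ b}, ⨅ v ∈ wOf p.1, ⨆ z ∈ v, ⨅ x ∈ z, av e x) =
      ⨆ p : {p : Pc D × Fp X // e p ≤ b}, e p.1 := iSup_congr fun p => (wOf_eq he p.1).symm
  rw [h0]
  refine le_antisymm ?_ (iSup_le fun p => p.2)
  rw [← sdiff_eq_bot_iff, sdiff_eq]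
  by_contra hne
  obtain ⟨p, hp⟩ := he.dense _ hne
  refine he.ne_bot p (le_bot_iff.1 ?_)
  have h1 : e p ≤ ⨆ p : {p : Pc D × Fp X // e p ≤ b}, e p.1 :=
    le_iSup (fun p : {p : Pc D × Fp X // e p ≤ b} => e p.1) ⟨p, hp.trans inf_le_left⟩
  rw [← inf_compl_self (⨆ p : {p : Pc D × Fp X // e p ≤ b}, e p.1)]
  exact le_inf h1 (hp.trans inf_le_right)

end PG
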