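import Pool.Agent.H92.PK.MoreA

/-!
# MRG: more than `λ` different sets
-/

set_option autoImplicit false

universe u v

open Cardinal Order

namespace PG

open PK BV

variable {B : Type u} [CompleteBooleanAlgebra B]

/-- Adapt the proof of `PK.more_of_ne` (file `PK/MoreA.lean`): for `b` the value of `f` being an
injection take `R η i = ⨆ ξ, b ⊓ G i ξ ⊓ ⟦f(r (g i ξ)) = η⟧`, `η < λ`, `i < λ⁺`; for `i ≠ j` and the same
`η` the infimum is `⊥` by `hd`, so `Cov B (succ lam)` applies, but `b ≤ ⨆ η, R η i` for all `i`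
by `hG`. -/
theorem more_of_good {lam : Cardinal.{u}} (hcov : Cov B (succ lam)) {I Ξ : Type u} (r : I → BSet B)
    (g : (succ lam).ord.ToType → Ξ → I) (G : (succ lam).ord.ToType → Ξ → B)
    (hG : ∀ i, ⨆ ξ, G i ξ = ⊤)
    (hd : ∀ i j ξ ξ', i ≠ j → G i ξ ⊓ G j ξ' ⊓ beq (r (g i ξ)) (r (g j ξ')) = ⊥)
    (U : UF B) (f : MU U) :
    ¬ InjOn (MU.E U) f
      (fun x => MU.E U x (MU.mk U (BSet.mk I r fun _ => ⊤)))
      (fun y => MU.E U y (ck U lam.ord)) := by
  intro hf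
  obtain ⟨f, rfl⟩ := MU.mk_surj U f
  set X : BSet B → B := fun x => bmem x (BSet.mk I r fun _ => ⊤) with hXdef
  set Y : BSet B → B := fun y => bmem y (chk B lam.ord) with hYdef
  set b : B := bInjOn f X Y with hbdef
  have hbU : b ∈ U := (los_injOn (X := X) (Y := Y)
    (X' := fun U x => MU.E U x (MU.mk U (BSet.mk I r fun _ => ⊤)))
    (Y' := fun U x => MU.E U x (ck U lam.ord)) (fun U x => Iff.rfl) (fun U x => Iff.rfl) U f).2 hf
  have hb1 : ∀ x, b ⊓ X x ≤ ⨆ y, Y y ⊓ bmem (opr x y) f := by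
    intro x
    rw [← le_himp_iff]
    exact inf_le_left.trans (iInf_le _ x)
  have hb2 : ∀ x x' y, b ⊓ X x ⊓ X x' ⊓ bmem (opr x y) f ⊓ bmem (opr x' y) f ≤ beq x x' := by
    intro x x' y
    rw [← le_himp_iff, ← le_himp_iff, ← le_himp_iff, ← le_himp_iff]
    exact (inf_le_right.trans inf_le_right).trans
      ((iInf_le _ x).trans ((iInf_le _ x').trans (iInf_le _ y)))
  have hX : ∀ i, X (r i) = ⊤ := by
    intro i
    rw [hXdef, eq_top_iff]
    simp only [bmem_mk, top_inf_eq]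
    rw [← beq_refl (r i)]
    exact le_iSup (fun j => beq (r i) (r j)) i
  have hdisj : ∀ i j η, i ≠ j →
      (⨆ ξ, b ⊓ G i ξ ⊓ bmem (opr (r (g i ξ)) (chk B η)) f) ⊓
        (⨆ ξ, b ⊓ G j ξ ⊓ bmem (opr (r (g j ξ)) (chk B η)) f) = ⊥ := by
    intro i j η hij
    rw [iSup_inf_eq, iSup_eq_bot]
    intro ξ
    rw [inf_iSup_eq, iSup_eq_bot]
    intro ξ'
    rw [eq_bot_iff, ← hd i j ξ ξ' hij]
    refine le_inf (le_inf ?_ ?_) (le_trans ?_ (hb2 (r (g i ξ)) (r (g j ξ')) (chk B η)))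
    · exact inf_le_left.trans (inf_le_left.trans inf_le_right)
    · exact inf_le_right.trans (inf_le_left.trans inf_le_right)
    · rw [hX, hX, inf_top_eq, inf_top_eq]
      exact le_inf (le_inf (inf_le_left.trans (inf_le_left.trans inf_le_left))
        (inf_le_left.trans inf_le_right)) (inf_le_right.trans inf_le_right)
  obtain ⟨b', hb'b, hb', γ, hγ, hcon⟩ := hcov lam.ord
    (by rw [card_ord]; exact lt_succ lam)
    (fun η α => ⨆ h : α < (succ lam).ord, ⨆ ξ,
      b ⊓ G (Ordinal.ToType.mk ⟨α, h⟩) ξ ⊓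
        bmem (opr (r (g (Ordinal.ToType.mk ⟨α, h⟩) ξ)) (chk B η)) f) (by
    intro η α α' hαα'
    by_cases h : α < (succ lam).ord
    · by_cases h' : α' < (succ lam).ord
      · rw [iSup_pos h, iSup_pos h']
        apply hdisj
        intro h2
        have h3 := (Ordinal.ToType.mk (o := (succ lam).ord)).injective h2
        exact hαα' (congrArg Subtype.val h3)
      · rw [iSup_neg h', inf_bot_eq]
    · rw [iSup_neg h, bot_inf_eq]) b (U.ne_bot_of_mem hbU)
  apply hb'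
  set i : (succ lam).ord.ToType := Ordinal.ToType.mk ⟨γ, hγ⟩ with hi
  rw [← inf_top_eq b', ← hG i, inf_iSup_eq, iSup_eq_bot]
  intro ξ
  have h1 : b' ⊓ G i ξ ≤ ⨆ η : Set.Iio lam.ord, bmem (opr (r (g i ξ)) (chk B η)) f := by
    rw [← chk_bex lam.ord (card_ext_app f (r (g i ξ)))]
    refine le_trans (le_inf (inf_le_left.trans hb'b) ?_) (hb1 (r (g i ξ)))
    rw [hX]
    exact le_top
  rw [← inf_eq_left.2 h1, inf_iSup_eq, iSup_eq_bot]
  intro η
  have h2 := hcon η η.2 γ le_rfl hγ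
  rw [iSup_pos hγ] at h2
  rw [eq_bot_iff, ← h2]
  refine le_inf (inf_le_left.trans inf_le_left) ?_
  refine le_trans ?_ (le_iSup _ ξ)
  exact le_inf (le_inf (inf_le_left.trans (inf_le_left.trans hb'b))
    (inf_le_left.trans inf_le_right)) inf_le_right

end PG
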