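import Pool.Agent.H92.PK.Main

/-!
# RGA: names of cofinal functions
-/

set_option autoImplicit false

universe u v

open Cardinal Order

namespace PG

open PK BV

variable {B : Type u} [CompleteBooleanAlgebra B]

/-- names of functions from `β` to `δ` are bounded -/
def CovO (B : Type u) [CompleteBooleanAlgebra B] (β δ : Ordinal.{u}) : Prop :=
  ∀ R : Ordinal.{u} → Ordinal.{u} → B,
    (∀ ξ α α', α ≠ α' → R ξ α ⊓ R ξ α' = ⊥) → ∀ b : B, b ≠ ⊥ →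
    ∃ b' ≤ b, b' ≠ ⊥ ∧ ∃ γ < δ, ∀ ξ < β, ∀ α, γ ≤ α → α < δ → b' ⊓ R ξ α = ⊥

open Classical in
/-- Let `b` be the Boolean value of `f` being a cofinal function from `β` to `δ` (`exists_bool` with
`FDef2.ofDef (def_cofMap ..)`), `R ξ α = ⟦f(ξ) = α⟧ ⊓ b` for `ξ < β`, `α < δ` and `⊥` otherwise
(pairwise disjoint since `f` is a function). Let `b' ≤ b`, `γ` be given by `CovO`. In every quotient
`MU U'` with `b' ∈ U'` there are `x ∈ β`, `y ∈ δ` with `f(x) = y` and `γ ∈ y ∨ γ = y` (the third clause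
of `CofMap` for `z = γ`, and the first two for `y ∈ δ`), so
`b' ≤ ⨆ ξ < β, ⨆ α < δ, R ξ α ⊓ ⟦γ ≤ α⟧` (`chk_bex` twice), which gives `b' = ⊥`. See
`PK.no_inj_succ` in `PK/Pres.lean` for the same kind of argument. -/
theorem no_cofMap {β δ : Ordinal.{u}} (h : CovO B β δ) (U : UF B) (f : MU U) :
    ¬ CofMap (MU.E U) f (ck U β) (ck U δ) := by
  intro hf
  obtain ⟨F, rfl⟩ := MU.mk_surj U f
  obtain ⟨g, -, hg⟩ := exists_bool (B := B) (FDef2.ofDef (def_cofMap.{u + 1} 0 1 2))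
    (fun n => if n = 0 then chk B β else chk B δ)
  have hlos : ∀ V : UF B, g F ∈ V ↔ CofMap (MU.E V) (MU.mk V F) (ck V β) (ck V δ) :=
    fun V => hg V F
  set b : B := g F with hb
  have hbU : b ∈ U := (hlos U).2 hf
  have hb0 : b ≠ ⊥ := UF.ne_bot_of_mem U hbU
  set R : Ordinal.{u} → Ordinal.{u} → B := fun ξ α =>
    if ξ < β ∧ α < δ then bmem (opr (chk B ξ) (chk B α)) F ⊓ b else ⊥ with hR
  have hdis : ∀ ξ α α', α ≠ α' → R ξ α ⊓ R ξ α' = ⊥ := by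
    intro ξ α α' hne
    simp only [hR]
    by_cases h1 : ξ < β ∧ α < δ
    · by_cases h2 : ξ < β ∧ α' < δ
      · rw [if_pos h1, if_pos h2]
        refine UF.eq_bot_of_forall fun V hV => ?_
        rw [UF.inf_mem_iff, UF.inf_mem_iff, UF.inf_mem_iff, los_app, los_app, hlos V] at hV
        have h3 := hV.1.2.2.1 _ _ _ ((E_ck V _ _).2 h1.1) hV.1.1 hV.2.1
        exact hne (ck_inj V h3)
      · rw [if_neg h2, inf_bot_eq]
    · rw [if_neg h1, bot_inf_eq]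
  obtain ⟨b', hb', hb'0, γ, hγ, hγ2⟩ := h R hdis b hb0
  apply hb'0
  set q : Ordinal.{u} → BSet B → B := fun ξ y =>
    bmem (opr (chk B ξ) y) F ⊓ (bmem (chk B γ) y ⊔ beq (chk B γ) y) with hq
  have hq2 : ∀ (ξ : Ordinal.{u}) (V : UF B) (y : BSet B), q ξ y ∈ V ↔
      App (MU.E V) (MU.mk V F) (ck V ξ) (MU.mk V y) ∧
        (MU.E V (ck V γ) (MU.mk V y) ∨ ck V γ = MU.mk V y) := by
    intro ξ V y
    simp only [hq]
    rw [UF.inf_mem_iff, UF.sup_mem_iff, los_app]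
    refine and_congr Iff.rfl (or_congr Iff.rfl ?_)
    exact (MU.mk_eq_iff V _ _).symm
  have hq3 : ∀ ξ, Ext (q ξ) := fun ξ => ext_of_los (P := fun V y =>
    App (MU.E V) (MU.mk V F) (ck V ξ) y ∧ (MU.E V (ck V γ) y ∨ ck V γ = y)) (hq2 ξ)
  set p : BSet B → B := fun x => ⨆ y, bmem y (chk B δ) ⊓
    (bmem (opr x y) F ⊓ (bmem (chk B γ) y ⊔ beq (chk B γ) y)) with hp
  have hp2 : ∀ (V : UF B) (x : BSet B), p x ∈ V ↔ ∃ y, MU.E V y (ck V δ) ∧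
      App (MU.E V) (MU.mk V F) (MU.mk V x) y ∧ (MU.E V (ck V γ) y ∨ ck V γ = y) := by
    intro V x
    simp only [hp]
    refine card_iSup (P := fun V y => MU.E V y (ck V δ) ∧
      App (MU.E V) (MU.mk V F) (MU.mk V x) y ∧ (MU.E V (ck V γ) y ∨ ck V γ = y))
      (fun V y => ?_) V
    rw [UF.inf_mem_iff, UF.inf_mem_iff, UF.sup_mem_iff, los_app]
    refine and_congr Iff.rfl (and_congr Iff.rfl (or_congr Iff.rfl ?_))
    exact (MU.mk_eq_iff V _ _).symm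
  have hp3 : Ext p := ext_of_los (P := fun V x => ∃ y, MU.E V y (ck V δ) ∧
      App (MU.E V) (MU.mk V F) x y ∧ (MU.E V (ck V γ) y ∨ ck V γ = y)) hp2
  have h1 : b' ≤ ⨆ ξ : Set.Iio β, p (chk B ξ) := by
    rw [← chk_bex β hp3]
    refine UF.le_of_forall fun V hV => ?_
    have hV2 := (hlos V).1 (V.mem_of_le hV hb')
    obtain ⟨x, y, hx, hxy, hy⟩ := hV2.2.2 (ck V γ) ((E_ck V _ _).2 hγ)
    obtain ⟨y', hy', hxy'⟩ := hV2.1 x hx
    have hyy := hV2.2.1 x y y' hx hxy hxy'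
    subst hyy
    refine (card_iSup (P := fun V x => MU.E V x (ck V β) ∧ ∃ y, MU.E V y (ck V δ) ∧
      App (MU.E V) (MU.mk V F) x y ∧ (MU.E V (ck V γ) y ∨ ck V γ = y))
      (fun V x => ?_) V).2 ⟨x, hx, y, hy', hxy, hy⟩
    rw [UF.inf_mem_iff, hp2]
    exact Iff.rfl
  have h2 : b' = b' ⊓ ⨆ ξ : Set.Iio β, p (chk B ξ) := (inf_eq_left.2 h1).symm
  rw [h2, inf_iSup_eq]
  refine iSup_eq_bot.2 fun ξ => ?_
  have h3 : p (chk B ξ) = ⨆ α : Set.Iio δ, q ξ (chk B α) := chk_bex δ (hq3 ξ)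
  rw [h3, inf_iSup_eq]
  refine iSup_eq_bot.2 fun α => ?_
  by_cases h4 : γ ≤ α
  · have h5 := hγ2 ξ.1 ξ.2 α.1 h4 α.2
    have h6 : ξ.1 < β ∧ α.1 < δ := ⟨ξ.2, α.2⟩
    simp only [hR, if_pos h6] at h5
    rw [← h5]
    apply le_antisymm
    · exact le_inf inf_le_left (le_inf (inf_le_right.trans inf_le_left) (inf_le_left.trans hb'))
    · rw [h5]; exact bot_le
  · refine UF.eq_bot_of_forall fun V hV => ?_
    rw [UF.inf_mem_iff, hq2] at hV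
    rcases hV.2.2 with h5 | h5
    · exact h4 ((E_ck V _ _).1 h5).le
    · exact h4 (ck_inj V h5).le

/-- Let `χ = cof λ` and `g : χ → λ` cofinal and strictly increasing (or only cofinal; see the use of
`Ordinal.exists_ord_cof_eq` in `PK/Evd.lean`). For `α < λ` let `ι α < χ` be the least `i` with
`α < g i` (exists since `λ` is a limit) and apply `Cov B χ` to
`R' ξ i = ⨆ α < λ, ι α = i, R ξ α`. If `γ' < χ` is a bound then `γ = sup of g i, i < γ'` is a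
bound `< λ` (`χ` is the cofinality of `λ` and `|γ'| < χ`). -/
theorem covO_of_cov {lam : Cardinal.{u}} (hl : ℵ₀ ≤ lam) (h : Cov B lam.ord.cof)
    {β : Ordinal.{u}} (hβ : β.card < lam.ord.cof) : CovO B β lam.ord := by
  classical
  intro R hdis b hb
  obtain ⟨g, hg⟩ := Ordinal.exists_isFundamentalSeq (o := lam.ord) rfl
  have hcof : ∀ α : Set.Iio lam.ord, ∃ i, α ≤ g i := by
    intro α
    obtain ⟨c, ⟨i, rfl⟩, hc⟩ := hg.isCofinal_range α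
    exact ⟨i, hc⟩
  choose ι hι using hcof
  have hpos : (0 : Ordinal.{u}) < lam.ord := (Cardinal.isSuccLimit_ord hl).bot_lt
  set R' : Ordinal.{u} → Ordinal.{u} → B := fun ξ i =>
    ⨆ α : {α : Set.Iio lam.ord // (ι α : Ordinal.{u}) = i}, R ξ α.1 with hR'
  have hdis' : ∀ ξ i i', i ≠ i' → R' ξ i ⊓ R' ξ i' = ⊥ := by
    intro ξ i i' hne
    simp only [hR']
    rw [iSup_inf_eq]
    refine iSup_eq_bot.2 fun α => ?_
    rw [inf_iSup_eq]
    refine iSup_eq_bot.2 fun α' => ?_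
    refine hdis ξ _ _ fun h1 => hne ?_
    rw [← α.2, ← α'.2]
    have h2 : α.1 = α'.1 := Subtype.ext h1
    rw [h2]
  obtain ⟨b', hb', hb'0, γ', hγ', hγ2⟩ := h β hβ R' hdis' b hb
  refine ⟨b', hb', hb'0, (g ⟨γ', hγ'⟩ : Ordinal.{u}), (g ⟨γ', hγ'⟩).2, fun ξ hξ α h1 h2 => ?_⟩
  have h3 : g ⟨γ', hγ'⟩ ≤ g (ι ⟨α, h2⟩) := le_trans h1 (hι ⟨α, h2⟩)
  have h4 : (⟨γ', hγ'⟩ : Set.Iio lam.ord.cof.ord) ≤ ι ⟨α, h2⟩ := hg.strictMono.le_iff_le.1 h3
  have h5 := hγ2 ξ hξ (ι ⟨α, h2⟩) h4 (ι ⟨α, h2⟩).2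
  rw [eq_bot_iff, ← h5]
  refine inf_le_inf_left _ ?_
  exact le_iSup (fun α' : {α' : Set.Iio lam.ord // (ι α' : Ordinal.{u}) = ι ⟨α, h2⟩} => R ξ α'.1)
    ⟨⟨α, h2⟩, rfl⟩

end PG
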