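import Pool.Agent.H92.PG.Def
import Pool.Agent.H92.PG.Bdd
import Pool.Agent.H92.PG.Rga

/-!
# REG: preservation of regular cardinals
-/

set_option autoImplicit false

universe u v

open Cardinal Order

namespace PG

open PK BV

variable {B : Type u} [CompleteBooleanAlgebra B]

/-- `IsRegCard` is definable -/
theorem reg_def (i : ℕ) : FDef fun (M : Type v) E w => IsRegCard (M := M) E (w i) :=
  (def_infCard i).and
    (FDef.all (P := fun _ E w => ∀ f, E (w 0) (w (i + 1)) → ¬ CofMap E f (w 0) (w (i + 1)))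
      (FDef.all (P := fun _ E w => E (w 1) (w (i + 2)) → ¬ CofMap E (w 0) (w 1) (w (i + 2)))
        ((FDef.mem 1 (i + 2)).imp (def_cofMap 0 1 (i + 2)).not)))

/-- the bounds for all successor cardinals -/
theorem reg_cov_succ (hcov : ∀ c : Cardinal.{u}, c.IsRegular → ℵ₀ < c → Cov B c) :
    ∀ c : Cardinal.{u}, ℵ₀ ≤ c → Cov B (succ c) := fun c hc =>
  hcov (succ c) (isRegular_succ hc) (lt_of_le_of_lt hc (lt_succ c))

/-- the bounds for all regular cardinals -/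
theorem reg_cov_all (hcov : ∀ c : Cardinal.{u}, c.IsRegular → ℵ₀ < c → Cov B c)
    (c : Cardinal.{u}) (hc : c.IsRegular) : Cov B c := by
  rcases hc.aleph0_le.lt_or_eq with h | h
  · exact hcov c hc h
  · rw [← h]
    exact cov_aleph0

/-- `infCard_V`, `cofMap_V` -/
theorem isRegCard_V {y : ZFSet.{u}} (h : IsRegCard VE y) :
    ∃ c : Cardinal.{u}, c.IsRegular ∧ y = c.ord.toZFSet := by
  obtain ⟨h1, h2⟩ := h
  obtain ⟨c, hc, rfl⟩ := (infCard_V y).1 h1
  refine ⟨c, ⟨hc, ?_⟩, rfl⟩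
  by_contra hlt
  rw [not_le] at hlt
  obtain ⟨f, hf⟩ := (cofMap_V (isSuccLimit_ord hc) c.ord.cof.ord).2
    (by rw [Cardinal.card_ord])
  exact h2 _ f (Ordinal.toZFSet_mem_toZFSet_iff.2 (Cardinal.ord_lt_ord.2 hlt)) hf

/-- `infCard_ck`, `no_cofMap` (elements of `ck U c.ord`: `ball_ck` or `ball_chk` for the property
`∀ f, ¬ CofMap E f β (ck c)`), `covO_of_cov`, `cov_aleph0` for `c = ℵ₀` -/
theorem isRegCard_ck (hcov : ∀ c : Cardinal.{u}, c.IsRegular → ℵ₀ < c → Cov B c) (U : UF B)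
    {c : Cardinal.{u}} (hc : c.IsRegular) : IsRegCard (MU.E U) (ck U c.ord) := by
  refine ⟨infCard_ck (reg_cov_succ hcov) U hc.aleph0_le, ?_⟩
  intro β f hβ
  have hdef : FDef2 fun (M : Type (u + 1)) E _ w => ∀ f, ¬ CofMap E f (w 0) (w 1) :=
    FDef2.ofDef (P := fun (M : Type (u + 1)) E w => ∀ f, ¬ CofMap E f (w 0) (w 1))
      (FDef.all (P := fun _ E w => ¬ CofMap E (w 0) (w 1) (w 2)) (def_cofMap 0 1 2).not)
  have h1 := ball_chk hdef (fun _ => chk B c.ord) c.ord (fun V α hα f => ?_) U β hβ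
  · exact h1 f
  · refine no_cofMap (covO_of_cov hc.aleph0_le ?_ ?_) V f
    · rw [hc.cof_ord]
      exact reg_cov_all hcov c hc
    · rw [hc.cof_ord]
      exact Cardinal.lt_ord.1 hα

/-- as `PK.card_pres` -/
theorem reg_pres (hcov : ∀ c : Cardinal.{u}, c.IsRegular → ℵ₀ < c → Cov B c) (U : UF B)
    (m : MU U) (hm : WV U m) (h : IsRegCard (Res (MU.E U) (WV U)) ⟨m, hm⟩) :
    IsRegCard (MU.E U) m := by
  have hdef : FDef2 fun (M : Type (u + 1)) E W w =>
      (∃ h : W (w 0), IsRegCard (Res E W) ⟨w 0, h⟩) → IsRegCard E (w 0) :=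
    FDef2.imp (FDef2.rel1 (reg_def 0)) (FDef2.ofDef (reg_def 0))
  have h1 := ball_WV hdef (fun _ => chk B 0) ?_ U m hm
  · exact h1 ⟨hm, h⟩
  · rintro V y ⟨h2, h3⟩
    have h4 : IsRegCard (Res (MU.E V) (WV V)) (jV V y) := h3
    have h5 : IsRegCard VE y := (elem V (reg_def 0) (fun _ => y)).1 h4
    obtain ⟨c, hc, rfl⟩ := isRegCard_V h5
    show IsRegCard (MU.E V) (jV V c.ord.toZFSet).1
    rw [jV_ck]
    exact isRegCard_ck hcov V hc

/-- `isOmega_ck`, `no_cofMap`, `covO_of_cov` -/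
theorem unc_ck (hcov : ∀ c : Cardinal.{u}, c.IsRegular → ℵ₀ < c → Cov B c) {lam : Cardinal.{u}}
    (h1 : ℵ₀ < lam.ord.cof) (U : UF B) :
    ∀ w f, IsOmega (MU.E U) w → ¬ CofMap (MU.E U) f w (ck U lam.ord) := by
  intro w f hw
  rw [isOmega_ck (reg_cov_succ hcov) U] at hw
  subst hw
  have h2 : lam.ord.cof ≤ lam := Ordinal.cof_ord_le lam
  have h3 : ℵ₀ ≤ lam := h1.le.trans h2
  refine no_cofMap (covO_of_cov h3 ?_ ?_) U f
  · exact hcov _ (isRegular_cof (isSuccLimit_ord h3)) h1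
  · rw [Ordinal.card_omega0]
    exact h1

theorem exampleCof_of_frc (hG : ∀ c : Cardinal.{u}, ℵ₀ ≤ c → 2 ^ c = succ c)
    {lam : Cardinal.{u}} (h1 : ℵ₀ < lam.ord.cof) (h2 : lam.ord.cof < lam)
    (hcov : ∀ c : Cardinal.{u}, c.IsRegular → ℵ₀ < c → Cov B c) (F : Frc lam B) (U : UF B) :
    IsExampleCof (MU.E U) (WV U) (ck U lam.ord) (MU.mk U (nameA F.a)) :=
  { example_of_frc hG h1 h2 F U with
    reg := reg_pres hcov U
    unc := unc_ck hcov h1 U }

end PG
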