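import Pool.Agent.H92.PG.Base

/-!
# RLD: the reals, definitions
-/

set_option autoImplicit false

universe u v

open Cardinal Order

namespace PG

open PK BV

variable {D : Dat.{u}} {B Ω : Type u} [CompleteBooleanAlgebra B]

/-- the index set of the Cohen reals -/
abbrev Xc (D : Dat.{u}) (Ω : Type u) : Type u := (Σ n : ℕ, (Ω → D.Kt n)) × ℕ

/-- for `k = ⟨n, m⟩` and `f : Ω → L`: there is `h : Ω → K n` with `F n (f i) = h i` for all `i` and
`c (⟨n, h⟩, m) = 1` -/
def DR (f : Ω → D.L) (k : ℕ) : Set (Set (Atm D (Xc D Ω))) :=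
  {z | ∃ h : Ω → D.Kt k.unpair.1, z = insert (Sum.inr ((⟨_, h⟩, k.unpair.2), true))
    (Set.range fun i => Sum.inl ⟨k.unpair.1, f i, h i⟩)}

/-- the Boolean value of `k ∈ r_f` -/
noncomputable def rv (e : Pc D × Fp (Xc D Ω) → B) (f : Ω → D.L) (k : ℕ) : B :=
  ⨆ z ∈ DR f k, ⨅ x ∈ z, av e x

/-- the Boolean value of: the range of `f` is contained in `a n` for large `n`, for some condition
in the generic filter -/
noncomputable def good (e : Pc D × Fp (Xc D Ω) → B) (f : Ω → D.L) : B :=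
  ⨆ p : {p : Pc D × Fp (Xc D Ω) // ∀ n, p.1.len ≤ n → ∀ i, f i ∈ p.1.a n}, e p.1

end PG
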