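import Pool.Agent.H92.PG.Atm
import Pool.Agent.H92.PG.Rld

/-!
# RLS: the reals are different
-/

set_option autoImplicit false

universe u v

open Cardinal Order

namespace PG

open PK BV

variable {D : Dat.{u}} {B Ω : Type u} [CompleteBooleanAlgebra B]

/-- as in the proof of `PK.beq_real` (last part) in `PK/DistA.lean` -/
theorem beq_nameR_le (r r' : ℕ → B) (k : ℕ) : beq (nameR r) (nameR r') ⊓ r k ≤ r' k := by
  unfold nameR
  refine (alg_left _ _ _ _ (ULift.up k)).trans ?_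
  refine iSup_le fun k' => ?_
  by_cases hkk : k' = ULift.up k
  · subst hkk
    exact inf_le_left
  · have : beq (chk B ((ULift.up.{u} k).down : Ordinal.{u})) (chk B (k'.down : Ordinal.{u})) = ⊥ := by
      apply beq_chk_of_ne
      intro h
      apply hkk
      have h' : k = k'.down := by exact_mod_cast h
      rw [h']
    rw [this, inf_bot_eq]
    exact bot_le

/-- the value of `k ∈ r_f` with the two components of `k` -/
theorem rls_rv (e : Pc D × Fp (Xc D Ω) → B) (f : Ω → D.L) {k n m : ℕ} (hn : k.unpair.1 = n)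
    (hm : k.unpair.2 = m) : rv e f k = ⨆ h : Ω → D.Kt n,
      av e (Sum.inr ((⟨n, h⟩, m), true)) ⊓ ⨅ i, av e (Sum.inl ⟨n, f i, h i⟩) := by
  subst hn hm
  unfold rv
  apply le_antisymm
  · refine iSup₂_le fun z hz => ?_
    obtain ⟨h, rfl⟩ := hz
    refine le_trans ?_ (le_iSup _ h)
    refine le_inf (iInf₂_le _ (Set.mem_insert _ _)) (le_iInf fun i => ?_)
    exact iInf₂_le_of_le (Sum.inl ⟨k.unpair.1, f i, h i⟩ : Atm D (Xc D Ω))
      (Set.mem_insert_of_mem _ (Set.mem_range_self i)) le_rfl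
  · refine iSup_le fun h => ?_
    refine le_trans ?_ (le_iSup₂ (f := fun (z : Set (Atm D (Xc D Ω))) (_ : z ∈ DR f k) =>
      ⨅ η ∈ z, av e η) (insert (Sum.inr ((⟨_, h⟩, k.unpair.2), true))
        (Set.range fun i => Sum.inl ⟨k.unpair.1, f i, h i⟩)) ⟨h, rfl⟩)
    refine le_iInf₂ fun η hη => ?_
    rcases hη with rfl | ⟨i, rfl⟩
    · exact inf_le_left
    · exact inf_le_right.trans (iInf_le _ i)

theorem rls_good {e : Pc D × Fp (Xc D Ω) → B} (he : DenseEmb (Pc D × Fp (Xc D Ω)) B e)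
    {f : Ω → D.L} {p : Pc D × Fp (Xc D Ω)} (h : e p ≤ good e f) :
    ∃ r ≤ p, ∀ n, r.1.len ≤ n → ∀ i, f i ∈ r.1.a n := by
  have h1 : e p ⊓ good e f ≠ ⊥ := by
    rw [inf_eq_left.2 h]
    exact he.ne_bot p
  unfold good at h1
  rw [inf_iSup_eq] at h1
  have h2 : ∃ q : {p : Pc D × Fp (Xc D Ω) // ∀ n, p.1.len ≤ n → ∀ i, f i ∈ p.1.a n},
      e p ⊓ e q.1 ≠ ⊥ := by
    by_contra hcon
    push Not at hcon
    exact h1 (iSup_eq_bot.2 hcon)
  obtain ⟨⟨q, hq⟩, h3⟩ := h2
  obtain ⟨r, hr1, hr2⟩ := he.compat _ _ h3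
  refine ⟨r, hr1, fun n hn i => ?_⟩
  obtain ⟨h4, h5, h6, h7⟩ := Pc.le_def.1 hr2.1
  exact (h7 n hn).1 (hq n (h4.trans hn) i)

/-- Suppose `e p` is below the left hand side. By `he.compat` we find `p' ≤ p` with `f i`,
`f' i ∈ p'.1.a n` for all `i` and `n ≥ p'.1.len` (the elements of `good` and the definition of
`≤`; use `he.exists_le_of_inf_ne_bot` or `he.compat` and `inf_iSup_eq`). Let `n = p'.1.len` and let
`h ∈ p'.1.X n` be injective on `p'.1.a n` (`D.fine n (p'.1.a n) ∅`), so `h ∘ f ≠ h ∘ f'`. Extend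
`p'.1` to length `n + 1` with the stem `h` (`Pc.add`, `add_le`) and extend the finite part by the
value `true` at `(⟨n, h ∘ f⟩, m)` and `false` at `(⟨n, h ∘ f'⟩, m)`, where `m` is such that the finite
part was not defined at these two points. The new condition is below `rv e f k`, `k = ⟨n, m⟩`
(`le_av_inl`, `le_av_inr`), and its infimum with `rv e f' k` is `⊥` (`inf_av_inl` if `h' ≠ h ∘ f'` and
`inf_av_inr` otherwise). Use `beq_nameR_le`. Compare `PK.beq_real`. -/
theorem good_dist {e : Pc D × Fp (Xc D Ω) → B} (he : DenseEmb (Pc D × Fp (Xc D Ω)) B e) {f f' : Ω → D.L} (hne : f ≠ f') :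
    good e f ⊓ good e f' ⊓ beq (nameR fun k => rv e f k) (nameR fun k => rv e f' k) = ⊥ := by
  by_contra hb
  obtain ⟨p0, hp0⟩ := he.dense _ hb
  have hg1 : e p0 ≤ good e f := hp0.trans (inf_le_left.trans inf_le_left)
  have hg2 : e p0 ≤ good e f' := hp0.trans (inf_le_left.trans inf_le_right)
  have hbq : e p0 ≤ beq (nameR fun k => rv e f k) (nameR fun k => rv e f' k) :=
    hp0.trans inf_le_right
  obtain ⟨p1, hp1, ha1⟩ := rls_good he hg1
  obtain ⟨p, hp, ha2⟩ := rls_good he ((he.mono _ _ hp1).trans hg2)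
  have ha1' : ∀ i, f i ∈ p.1.a p.1.len := by
    intro i
    obtain ⟨h4, h5, h6, h7⟩ := Pc.le_def.1 hp.1
    exact (h7 _ le_rfl).1 (ha1 _ h4 i)
  have ha2' : ∀ i, f' i ∈ p.1.a p.1.len := fun i => ha2 _ le_rfl i
  obtain ⟨n, hn⟩ : ∃ n, n = p.1.len := ⟨_, rfl⟩
  rw [← hn] at ha1' ha2'
  -- the function `h`
  obtain ⟨h, hhX, hinj, -⟩ := (D.E n).nonempty_of_mem (Filter.inter_mem (p.1.hX n)
    (D.fine n (p.1.a n) ∅ (p.1.ha n) (by
      rw [Cardinal.mk_eq_zero]
      exact Cardinal.aleph0_pos.trans (D.unc n))))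
  have hff : h ∘ f' ≠ h ∘ f := by
    intro hc
    apply hne
    funext i
    exact (hinj (ha1' i) (ha2' i) (congrFun hc i).symm)
  -- the number `m`
  set x1 : Σ n : ℕ, (Ω → D.Kt n) := ⟨n, h ∘ f⟩ with hx1
  set x2 : Σ n : ℕ, (Ω → D.Kt n) := ⟨n, h ∘ f'⟩ with hx2
  have hx : x2 ≠ x1 := by
    intro hc
    rw [hx1, hx2] at hc
    exact hff (eq_of_heq (Sigma.mk.inj hc).2)
  have hfin : ({m : ℕ | p.2.1 (x1, m) ≠ none} ∪ {m : ℕ | p.2.1 (x2, m) ≠ none}).Finite := by
    apply Set.Finite.union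
    · exact p.2.2.preimage (f := fun m : ℕ => (x1, m)) (fun a _ b _ h => (Prod.mk.inj h).2)
    · exact p.2.2.preimage (f := fun m : ℕ => (x2, m)) (fun a _ b _ h => (Prod.mk.inj h).2)
  obtain ⟨m, hm⟩ := hfin.exists_notMem
  rw [Set.mem_union, not_or] at hm
  have hm1 : p.2.1 (x1, m) = none := by
    by_contra h
    exact hm.1 h
  have hm2 : p.2.1 (x2, m) = none := by
    by_contra h
    exact hm.2 h
  obtain ⟨q1, hq1, hq1v, hq1o⟩ := p.2.exists_ext (x1, m) true hm1
  have hne' : (x2, m) ≠ (x1, m) := fun h => hx (Prod.mk.inj h).1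
  obtain ⟨q2, hq2, hq2v, -⟩ := q1.exists_ext (x2, m) false (by rw [hq1o _ hne', hm2])
  -- the extension
  let s : ∀ n, D.L → D.Kt n := Function.update (fun _ _ => Classical.arbitrary _) n h
  have hsn : s n = h := Function.update_self _ _ _
  have hadd : p.1.add s (n + 1) ≤ p.1 := by
    refine add_le p.1 s (n + 1) fun j hj hj' => ?_
    have hjn : j = n := by omega
    subst hjn
    rw [hsn]
    exact hhX
  have hp' : (p.1.add s (n + 1), q2) ≤ p := ⟨hadd, le_trans hq2 hq1⟩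
  have hval : ∀ α ∈ p.1.a n, (p.1.add s (n + 1)).f n α = some (h α) := by
    intro α hα
    rw [add_f_of p.1 s (n + 1) ⟨hn.ge, Nat.lt_succ_self n, hα⟩, hsn]
  set k : ℕ := Nat.pair n m with hk
  have hk1 : k.unpair.1 = n := by rw [hk, Nat.unpair_pair]
  have hk2 : k.unpair.2 = m := by rw [hk, Nat.unpair_pair]
  have e1 : e (p.1.add s (n + 1), q2) ≤ rv e f k := by
    rw [rls_rv e f hk1 hk2]
    refine le_trans ?_ (le_iSup _ (h ∘ f))
    refine le_inf (le_av_inr (hq2 _ _ hq1v)) (le_iInf fun i => le_av_inl (hval _ (ha1' i)))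
  have e2 : e (p.1.add s (n + 1), q2) ⊓ rv e f' k = ⊥ := by
    rw [rls_rv e f' hk1 hk2, inf_iSup_eq, iSup_eq_bot]
    intro g
    rw [← le_bot_iff]
    by_cases hg : g = h ∘ f'
    · rw [← inf_av_inr (b := true) he (p := (p.1.add s (n + 1), q2)) hq2v (by decide)]
      refine inf_le_inf_left _ (inf_le_left.trans ?_)
      rw [hg]
    · obtain ⟨i, hi⟩ := Function.ne_iff.1 hg
      rw [← inf_av_inl he (p := (p.1.add s (n + 1), q2)) (hval _ (ha2' i)) (Ne.symm hi)]
      exact inf_le_inf_left _ (inf_le_right.trans (iInf_le _ i))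
  have e3 : e (p.1.add s (n + 1), q2) ≤
      beq (nameR fun k => rv e f k) (nameR fun k => rv e f' k) :=
    (he.mono _ _ (hp'.trans (hp.trans hp1))).trans hbq
  have e4 := (le_inf e3 e1).trans (beq_nameR_le (fun k => rv e f k) (fun k => rv e f' k) k)
  refine he.ne_bot (p.1.add s (n + 1), q2) ?_
  rw [← le_bot_iff, ← e2]
  exact le_inf le_rfl e4

end PG
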