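import Pool.Agent.H92.PG.Rld

/-!
# RLT: there are many good functions
-/

set_option autoImplicit false

universe u v

open Cardinal Order

namespace PG

open PK BV

variable {D : Dat.{u}} {B Ω : Type u} [CompleteBooleanAlgebra B]

theorem rlt_bad (p : Pc D) {Y Ξ : Type u} (φ : Y × Ξ → D.L) (hφ : Function.Injective φ) :
    #{ξ : Ξ | ∃ n y, p.f n (φ (y, ξ)) ≠ none} ≤ D.nu := by
  have h : ∀ ξ : {ξ : Ξ | ∃ n y, p.f n (φ (y, ξ)) ≠ none},
      ∃ n y, p.f n (φ (y, ξ.1)) ≠ none := fun ξ => ξ.2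
  choose n y hny using h
  have hinj : Function.Injective
      (fun ξ : {ξ : Ξ | ∃ n y, p.f n (φ (y, ξ)) ≠ none} =>
        (⟨ULift.up (n ξ), ⟨φ (y ξ, ξ.1), hny ξ⟩⟩ :
          Σ k : ULift.{u} ℕ, {α | p.f k.down α ≠ none})) := by
    intro ξ ξ' h
    have h1 : φ (y ξ, ξ.1) = φ (y ξ', ξ'.1) := by
      have h2 := congrArg (fun x : (Σ k : ULift.{u} ℕ, {α | p.f k.down α ≠ none}) => x.2.1) h
      exact h2
    exact Subtype.ext (congrArg Prod.snd (hφ h1))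
  refine (Cardinal.mk_le_of_injective hinj).trans ?_
  rw [Cardinal.mk_sigma]
  refine (Cardinal.sum_le_sum _ (fun _ : ULift.{u} ℕ => D.nu) fun k => p.hf k.down).trans ?_
  rw [Cardinal.sum_const', Cardinal.mk_uLift, Cardinal.mk_nat, Cardinal.lift_aleph0]
  exact (mul_le_mul' D.aleph0_lt_nu.le le_rfl).trans (Cardinal.mul_eq_self D.aleph0_lt_nu.le).le

/-- Given `p`, the set of all `ξ : Ξ` such that `φ (y, ξ)` belongs to the domain of `p.1.f n` for
some `y`, `n` has cardinality at most `ν` (`φ` is injective), so there is `ξ` outside of it. Let `p'` be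
`p` with `a n` replaced by `p.1.a n ∪ {φ (F i, ξ) | i}` (`#Ω < K 0 ≤ K n`). Then `p' ≤ p` and `e p'` is
below the term `ξ`. -/
theorem good_top {e : Pc D × Fp (Xc D Ω) → B} (he : DenseEmb (Pc D × Fp (Xc D Ω)) B e) (hΩ : #Ω < D.K 0) {Y Ξ : Type u}
    (hΞ : D.nu < #Ξ) (φ : Y × Ξ → D.L) (hφ : Function.Injective φ) (F : Ω → Y) :
    ⨆ ξ : Ξ, good e (fun i => φ (F i, ξ)) = ⊤ := by
  refine he.iSup_eq_top fun p => ?_
  obtain ⟨ξ, hξ⟩ : ∃ ξ : Ξ, ξ ∉ {ξ : Ξ | ∃ n y, p.1.f n (φ (y, ξ)) ≠ none} := by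
    by_contra hcon
    push Not at hcon
    have h1 : {ξ : Ξ | ∃ n y, p.1.f n (φ (y, ξ)) ≠ none} = Set.univ :=
      Set.eq_univ_of_forall hcon
    have h2 := rlt_bad p.1 φ hφ
    rw [h1, Cardinal.mk_univ] at h2
    exact absurd h2 (not_le.mpr hΞ)
  have hξ' : ∀ n y, p.1.f n (φ (y, ξ)) = none := by
    intro n y
    by_contra h1
    exact hξ ⟨n, y, h1⟩
  refine ⟨(⟨p.1.len, p.1.f, fun n => p.1.a n ∪ Set.range (fun i => φ (F i, ξ)), p.1.X, p.1.hf,
    ?_, p.1.hX, ?_, ?_⟩, p.2), ?_, ξ, ?_⟩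
  · intro n
    refine (Cardinal.mk_union_le _ _).trans_lt ?_
    refine Cardinal.add_lt_of_lt (D.unc n).le (p.1.ha n) ?_
    exact (Cardinal.mk_range_le.trans_lt hΩ).trans_le (D.mono.monotone (Nat.zero_le n))
  · intro n h h' hh
    exact p.1.hdep n h h' fun α hα => hh α (Or.inl hα)
  · intro n hn α hα
    rcases hα with h1 | ⟨i, rfl⟩
    · exact p.1.hdis n hn α h1
    · exact hξ' n (F i)
  · refine ⟨?_, le_refl p.2⟩
    refine Pc.le_def.mpr ⟨le_refl _, fun _ _ _ h => h, fun n h1 h2 => ?_, fun n _ => ?_⟩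
    · exact absurd h2 (not_lt.mpr h1)
    · exact ⟨Set.subset_union_left, subset_rfl⟩
  · unfold good
    refine le_iSup_of_le ⟨_, ?_⟩ le_rfl
    intro n _ i
    exact Or.inr ⟨i, rfl⟩

end PG
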