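import Pool.Agent.H92.PK.Frc

/-!
# TRF: coding the atoms by elements of another set
-/

set_option autoImplicit false

universe u v

open Cardinal Order

namespace PG

open PK BV

variable {A Λ B : Type u} [CompleteBooleanAlgebra B]

/-- Boolean values on `Λ` from Boolean values on `A` -/
noncomputable def aT (a : A → B) (c : A → Λ) (η : Λ) : B := ⨆ x : {x : A // c x = η}, a x.1

theorem aT_apply {a : A → B} {c : A → Λ} (hc : Function.Injective c) (x : A) :
    aT a c (c x) = a x := by
  unfold aT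
  apply le_antisymm
  · apply iSup_le
    rintro ⟨y, hy⟩
    have h : y = x := hc hy
    subst h
    exact le_rfl
  · exact le_iSup (fun y : {y : A // c y = c x} => a y.1) ⟨x, rfl⟩

theorem TRF_inf {a : A → B} {c : A → Λ} (hc : Function.Injective c) (z : Set A) :
    ⨅ η ∈ c '' z, aT a c η = ⨅ x ∈ z, a x := by
  rw [iInf_image]
  simp only [aT_apply hc]

/-- `S'` = the image of `S` -/
theorem gen_trf {a : A → B} {c : A → Λ} (hc : Function.Injective c)
    (S : Set (Set (Set (Set A)))) : ∃ S' : Set (Set (Set (Set Λ))),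
      (⨆ w ∈ S, ⨅ v ∈ w, ⨆ z ∈ v, ⨅ x ∈ z, a x) =
        ⨆ w ∈ S', ⨅ v ∈ w, ⨆ z ∈ v, ⨅ η ∈ z, aT a c η := by
  refine ⟨Set.image (Set.image (Set.image (Set.image c))) S, ?_⟩
  simp only [iSup_image, iInf_image (g := fun v : Set (Set Λ) => ⨆ z ∈ v, ⨅ η ∈ z, aT a c η),
    iSup_image (g := fun z : Set Λ => ⨅ η ∈ z, aT a c η), TRF_inf hc]

theorem bD_trf {a : A → B} {c : A → Λ} (hc : Function.Injective c) (S : Set (Set A)) :
    bD (aT a c) (Set.image (Set.image c) S) = ⨆ z ∈ S, ⨅ x ∈ z, a x := by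
  unfold bD
  simp only [iSup_image, TRF_inf hc]

end PG
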