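import Pool.Agent.H92.PG.Base

/-!
# ULF: fine measures
-/

set_option autoImplicit false

universe u v

open Cardinal Order

namespace PG

open PK BV

/-- the sets of which the fine filter is generated -/
def ulfG {κ : Cardinal.{u}} {L : Type u} (a : Set L) (S : Set κ.ord.ToType) :
    Set (L → κ.ord.ToType) := {h | Set.InjOn h a ∧ ∀ α ∈ a, h α ∉ S}

theorem ulfG_anti {κ : Cardinal.{u}} {L : Type u} {a a' : Set L} {S S' : Set κ.ord.ToType}
    (ha : a ⊆ a') (hS : S ⊆ S') : ulfG a' S' ⊆ ulfG a S := by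
  rintro h ⟨h1, h2⟩
  exact ⟨h1.mono ha, fun α hα hs => h2 α (ha hα) (hS hs)⟩

theorem ulfG_nonempty {κ : Cardinal.{u}} (hκ : ℵ₀ < κ) {L : Type u} (a : Set L)
    (S : Set κ.ord.ToType) (ha : #a < κ) (hS : #S < κ) : (ulfG a S).Nonempty := by
  classical
  have hinf : Infinite κ.ord.ToType := by
    rw [infinite_iff]
    simpa using hκ.le
  have hc : #(Sᶜ : Set κ.ord.ToType) = κ := by
    rw [mk_compl_of_infinite S (by simpa using hS)]
    simp
  have hle : #a ≤ #(Sᶜ : Set κ.ord.ToType) := by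
    rw [hc]
    exact ha.le
  obtain ⟨g⟩ := hle
  refine ⟨fun x => if hx : x ∈ a then (g ⟨x, hx⟩ : κ.ord.ToType) else Classical.arbitrary _, ?_, ?_⟩
  · intro x hx y hy hxy
    simp only [dif_pos hx, dif_pos hy] at hxy
    have := g.injective (Subtype.ext hxy)
    exact congrArg Subtype.val this
  · intro x hx
    simp only [dif_pos hx]
    exact (g ⟨x, hx⟩).2

/-- Let `F` be the filter of all sets of functions `h : L → κ` which contain a set
`G a S = {h | Set.InjOn h a ∧ ∀ α ∈ a, h α ∉ S}` with `#a < κ`, `#S < κ`. As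
`G (⋃ a i) (⋃ S i) ⊆ ⋂ G (a i) (S i)` and `κ` is regular this is a `κ`-complete filter (choose
`a i`, `S i` for the members of a family). It is proper: `#a < κ = #(Sᶜ)`, so there is an injection
of `a` into `Sᶜ` (extend it arbitrarily to `L`). Apply strong compactness. -/
theorem exists_fine {κ : Cardinal.{u}} (h : IsStrComp κ) (L : Type u) :
    ∃ E : Ultrafilter (L → κ.ord.ToType),
      KComplete κ (E : Filter (L → κ.ord.ToType)) ∧
      ∀ (a : Set L) (S : Set κ.ord.ToType), #a < κ → #S < κ →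
        {h | Set.InjOn h a ∧ ∀ α ∈ a, h α ∉ S} ∈ E := by
  obtain ⟨hunc, hreg, hU⟩ := h
  let F : Filter (L → κ.ord.ToType) :=
    { sets := {A | ∃ (a : Set L) (S : Set κ.ord.ToType), #a < κ ∧ #S < κ ∧ ulfG a S ⊆ A}
      univ_sets := by
        refine ⟨∅, ∅, ?_, ?_, Set.subset_univ _⟩
        · simpa using aleph0_pos.trans hunc
        · simpa using aleph0_pos.trans hunc
      sets_of_superset := by
        rintro A A' ⟨a, S, ha, hS, hA⟩ hAA'
        exact ⟨a, S, ha, hS, hA.trans hAA'⟩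
      inter_sets := by
        rintro A A' ⟨a, S, ha, hS, hA⟩ ⟨a', S', ha', hS', hA'⟩
        refine ⟨a ∪ a', S ∪ S', ?_, ?_, ?_⟩
        · exact (mk_union_le _ _).trans_lt (add_lt_of_lt hunc.le ha ha')
        · exact (mk_union_le _ _).trans_lt (add_lt_of_lt hunc.le hS hS')
        · exact Set.subset_inter
            ((ulfG_anti Set.subset_union_left Set.subset_union_left).trans hA)
            ((ulfG_anti Set.subset_union_right Set.subset_union_right).trans hA') }
  have hmem : ∀ A, A ∈ F ↔ ∃ (a : Set L) (S : Set κ.ord.ToType), #a < κ ∧ #S < κ ∧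
      ulfG a S ⊆ A := fun A => Iff.rfl
  have hne : F.NeBot := by
    rw [Filter.neBot_iff]
    intro hb
    have h0 : (∅ : Set (L → κ.ord.ToType)) ∈ F := by
      rw [hb]
      exact Filter.mem_bot
    obtain ⟨a, S, ha, hS, hsub⟩ := (hmem _).1 h0
    obtain ⟨x, hx⟩ := ulfG_nonempty hunc a S ha hS
    exact hsub hx
  have hcomp : KComplete κ F := by
    intro ι A hι hA
    choose a S ha hS hsub using fun i => (hmem _).1 (hA i)
    refine (hmem _).2 ⟨⋃ i, a i, ⋃ i, S i, ?_, ?_, ?_⟩
    · exact (card_iUnion_lt_iff_forall_of_isRegular hreg hι).2 ha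
    · exact (card_iUnion_lt_iff_forall_of_isRegular hreg hι).2 hS
    · exact Set.subset_iInter fun i =>
        (ulfG_anti (Set.subset_iUnion a i) (Set.subset_iUnion S i)).trans (hsub i)
  obtain ⟨U, hUF, hUc⟩ := hU _ F hne hcomp
  exact ⟨U, hUc, fun a S ha hS => hUF ((hmem _).2 ⟨a, S, ha, hS, subset_rfl⟩)⟩

end PG
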