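import Pool.Agent.H92.PG.Ult
import Pool.Agent.H92.PG.Ulf
import Pool.Agent.H92.PG.Cvb
import Pool.Agent.H92.PG.Cvc
import Pool.Agent.H92.PG.Cva
import Pool.Agent.H92.PG.Gnc
import Pool.Agent.H92.PG.Trf
import Pool.Agent.H92.PG.Rls
import Pool.Agent.H92.PG.Rlt
import Pool.Agent.H92.PG.Mrg
import Pool.Agent.H92.PG.Reg
import Pool.Agent.H92.PK.Evd

/-!
# FIN: the theorem
-/

set_option autoImplicit false

universe u v

open Cardinal Order

namespace PG

open PK BV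

theorem exists_dat {K : ℕ → Cardinal.{u}} (hm : StrictMono K) (hK : ∀ n, IsStrComp (K n))
    (L : Type u) : ∃ D : Dat.{u}, D.K = K ∧ D.L = L := by
  choose E h1 h2 using fun n => exists_fine (hK n) L
  exact ⟨⟨K, hm, fun n => (hK n).2.1, fun n => (hK n).1, fun n c hc => (hK n).two_power_lt hc, L, E,
    h1, h2⟩, rfl, rfl⟩

/-- `ν` is singular -/
theorem nu_not_regular (D : Dat.{u}) : ¬ D.nu.IsRegular := by
  intro h
  refine lt_irrefl D.nu ?_
  refine lift_iSup_lt_of_lt_cof_ord (β := ℕ) ?_ D.K_lt_nu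
  rw [mk_nat, lift_aleph0, lift_uzero, h.cof_ord]
  exact D.aleph0_lt_nu

/-- a regular cardinal `χ` is `< ν`, `= ν⁺` or `> ν⁺` (`cof ν = ω`) -/
theorem cov_all {D : Dat.{u}} {X B : Type u} [CompleteBooleanAlgebra B] {e : Pc D × Fp X → B}
    (he : DenseEmb (Pc D × Fp X) B e) (hG : ∀ c : Cardinal.{u}, ℵ₀ ≤ c → 2 ^ c = succ c)
    (hX0 : ℵ₀ ≤ #X) (hX : #X ≤ D.nu) (χ : Cardinal.{u}) (hχ : χ.IsRegular) (h0 : ℵ₀ < χ) :
    Cov B χ := by
  rcases lt_trichotomy χ D.nu with h | h | h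
  · exact cov_C he hχ h0 h
  · exact absurd (h ▸ hχ) (nu_not_regular D)
  · rcases (succ_le_of_lt h).eq_or_lt with h1 | h1
    · rw [← h1]
      exact cov_B he
    · exact cov_A he hG hX0 hX hχ h1

theorem mk_fun_le (D : Dat.{u}) (Ω : Type u) (hΩ : #Ω < D.K 0) (n : ℕ) :
    #(Ω → D.Kt n) ≤ D.nu := by
  rw [← power_def, mk_ord_toType]
  calc (D.K n) ^ #Ω ≤ (D.K n) ^ (D.K n) :=
        power_le_power_left (by
          intro h
          exact absurd (h ▸ D.unc n) (not_lt.2 zero_le)) (hΩ.le.trans (D.mono.monotone (Nat.zero_le n)))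
    _ = 2 ^ (D.K n) := power_self_eq (D.unc n).le
    _ ≤ D.K (n + 1) := (D.lim (n + 1) _ (D.mono (Nat.lt_succ_self n))).le
    _ ≤ D.nu := (D.K_lt_nu _).le

theorem mk_sigma_le {c : Cardinal.{u}} (hc : ℵ₀ ≤ c) (Y : ℕ → Type u) (hY : ∀ n, #(Y n) ≤ c) :
    #(Σ n : ℕ, Y n) ≤ c := by
  have h4 : ∀ n, Nonempty (Y n ↪ c.ord.ToType) := by
    intro n
    rw [← Cardinal.le_def, mk_ord_toType]
    exact hY n
  let g := fun n => (h4 n).some
  have hinj : Function.Injective (fun x : (Σ n : ℕ, Y n) => (x.1, g x.1 x.2)) := by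
    rintro ⟨n, x⟩ ⟨n', x'⟩ h
    obtain ⟨h5, h6⟩ := Prod.mk.inj h
    subst h5
    have h7 : x = x' := (g n).injective h6
    rw [h7]
  have h5 : #(Σ n : ℕ, Y n) ≤ #(ℕ × c.ord.ToType) := mk_le_of_injective hinj
  refine h5.trans ?_
  rw [mk_prod, mk_nat, lift_aleph0, lift_uzero, mk_ord_toType]
  exact (aleph0_mul_eq hc).le

/-- the index set of the Cohen reals is small -/
theorem mk_Xc (D : Dat.{u}) (Ω : Type u) (hΩ : #Ω < D.K 0) : #(Xc D Ω) ≤ D.nu := by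
  have hnu : ℵ₀ ≤ D.nu := D.aleph0_lt_nu.le
  have h2 : #(Σ n : ℕ, (Ω → D.Kt n)) ≤ D.nu := mk_sigma_le hnu _ (mk_fun_le D Ω hΩ)
  rw [mk_prod, mk_nat, lift_aleph0, lift_uzero]
  exact (mul_le_mul' h2 le_rfl).trans (mul_aleph0_eq hnu).le

theorem aleph0_le_Xc (D : Dat.{u}) (Ω : Type u) : ℵ₀ ≤ #(Xc D Ω) := by
  rw [← infinite_iff]
  have h : Nonempty (Σ n : ℕ, (Ω → D.Kt n)) := ⟨⟨0, fun _ => Classical.arbitrary _⟩⟩
  exact inferInstance

theorem mk_atm (D : Dat.{u}) (X : Type u) {lam : Cardinal.{u}} (hlam : ℵ₀ ≤ lam)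
    (hnl : D.nu ≤ lam) (hL : #D.L ≤ lam) (hX : #X ≤ lam) : #(Atm D X) ≤ lam := by
  rw [mk_sum, lift_id, lift_id]
  refine add_le_of_le hlam ?_ ?_
  · refine mk_sigma_le hlam _ fun n => ?_
    rw [mk_prod, lift_id, lift_id, mk_ord_toType]
    exact mul_le_of_le hlam hL ((D.K_lt_nu n).le.trans hnl)
  · rw [mk_prod, lift_uzero]
    refine mul_le_of_le hlam hX ?_
    simpa using (natCast_lt_aleph0 (n := 2)).le.trans hlam

theorem nonempty_pc (D : Dat.{u}) : Nonempty (Pc D) :=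
  ⟨{ len := 0
     f := fun _ _ => none
     a := fun _ => ∅
     X := fun _ => Set.univ
     hf := fun n => by simp
     ha := fun n => by
       simpa using aleph0_pos.trans (D.unc n)
     hX := fun n => Filter.univ_mem
     hdep := fun n h h' _ _ => trivial
     hdis := fun n _ α h => absurd h (Set.notMem_empty α) }⟩

theorem exists_frc (hG : ∀ c : Cardinal.{u}, ℵ₀ ≤ c → 2 ^ c = succ c) {K : ℕ → Cardinal.{u}}
    (hm : StrictMono K) (hK : ∀ n, IsStrComp (K n)) {lam : Cardinal.{u}}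
    (h1 : succ (⨆ n, K n) < lam) (h3 : lam.ord.cof < K 0) :
    ∃ (B : Type u) (_ : CompleteBooleanAlgebra B), Nonempty (UF B) ∧ Nonempty (Frc lam B) ∧
      ∀ c : Cardinal.{u}, c.IsRegular → ℵ₀ < c → Cov B c := by
  obtain ⟨D, hDK, hDL⟩ := exists_dat hm hK (lam.ord.ToType × (succ (⨆ n, K n)).ord.ToType)
  have hnu : D.nu = ⨆ n, K n := by rw [Dat.nu, hDK]
  rw [← hnu] at h1
  have hlam : ℵ₀ ≤ lam := (D.aleph0_lt_nu.trans ((lt_succ _).trans h1)).le
  have hnl : D.nu ≤ lam := ((lt_succ _).trans h1).le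
  set Ω : Type u := lam.ord.cof.ord.ToType with hΩdef
  have hΩ : #Ω < D.K 0 := by
    rw [hΩdef, mk_ord_toType, hDK]
    exact h3
  have hX := mk_Xc D Ω hΩ
  have hX0 := aleph0_le_Xc D Ω
  have hL : #D.L = lam := by
    rw [hDL, mk_prod, lift_id, lift_id, mk_ord_toType, mk_ord_toType, ← hnu]
    exact mul_eq_left hlam h1.le (by
      intro h
      exact absurd (h ▸ lt_succ D.nu) (not_lt.2 zero_le))
  obtain ⟨B, hB, e, he⟩ := exists_denseEmb (Pc D × Fp (Xc D Ω))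
  have hcov := cov_all he hG hX0 hX
  -- the code
  have hcode : #(Atm D (Xc D Ω)) ≤ Cardinal.mk lam.ord.ToType := by
    rw [mk_ord_toType]
    exact mk_atm D (Xc D Ω) hlam hnl hL.le (hX.trans hnl)
  obtain ⟨cA⟩ := hcode
  -- the functions
  have hfun : #(succ lam).ord.ToType ≤ #(Ω → lam.ord.ToType) := by
    rw [mk_ord_toType, ← power_def, mk_ord_toType, hΩdef, mk_ord_toType]
    exact succ_le_of_lt (lt_power_cof_ord hlam)
  obtain ⟨Fn⟩ := hfun
  let φ : lam.ord.ToType × (succ (⨆ n, K n)).ord.ToType ≃ D.L := Equiv.cast hDL.symm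
  have hΞ : D.nu < #(succ (⨆ n, K n)).ord.ToType := by
    rw [mk_ord_toType, ← hnu]
    exact lt_succ _
  refine ⟨B, hB, ?_, ⟨⟨aT (av e) cA, Ω → D.L, fun f k => Set.image (Set.image cA) (DR f k), ?_,
    fun c hc => hcov (succ c) (isRegular_succ hc) (hc.trans_lt (lt_succ c)), ?_, ?_⟩⟩, hcov⟩
  · obtain ⟨p⟩ := nonempty_pc D
    obtain ⟨U, _⟩ := UF.exists_mem (he.ne_bot (p, Fp.emp))
    exact ⟨U⟩
  · intro f k
    refine mk_image_le.trans ?_
    have h4 : DR f k ⊆ Set.range fun h : Ω → D.Kt k.unpair.1 =>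
        insert (Sum.inr ((⟨_, h⟩, k.unpair.2), true))
          (Set.range fun i => (Sum.inl ⟨k.unpair.1, f i, h i⟩ : Atm D (Xc D Ω))) := by
      rintro z ⟨h, rfl⟩
      exact ⟨h, rfl⟩
    refine (mk_le_mk_of_subset h4).trans (mk_range_le.trans ?_)
    exact (mk_fun_le D Ω hΩ _).trans hnl
  · intro b
    obtain ⟨S, hS⟩ := gen_atm he b
    obtain ⟨S', hS'⟩ := gen_trf (a := av e) cA.injective S
    exact ⟨S', hS.trans hS'⟩
  · intro U f
    have hr : ∀ g : Ω → D.L, (nameR fun k => bD (aT (av e) cA) (Set.image (Set.image cA) (DR g k))) =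
        nameR fun k => rv e g k := by
      intro g
      congr 1
      funext k
      exact bD_trf cA.injective _
    refine more_of_good (hcov (succ lam) (isRegular_succ hlam) (hlam.trans_lt (lt_succ lam)))
      (fun g : Ω → D.L => nameR fun k => bD (aT (av e) cA) (Set.image (Set.image cA) (DR g k)))
      (fun i ξ j => φ (Fn i j, ξ)) (fun i ξ => good e fun j => φ (Fn i j, ξ))
      (fun i => good_top he hΩ hΞ φ φ.injective (Fn i)) (fun i j ξ ξ' hij => ?_) U f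
    rw [hr, hr]
    refine good_dist he fun h => hij (Fn.injective (funext fun x => ?_))
    have h5 := congrFun h x
    exact (Prod.mk.inj (φ.injective h5)).1

/-- a cardinal of cofinality `ℵ₁` above a given one -/
theorem exists_large (c : Cardinal.{u}) : ∃ lam : Cardinal.{u}, c < lam ∧ lam.ord.cof = ℵ_ 1 := by
  have hreg : (ℵ_ 1 : Cardinal.{u}).IsRegular := isRegular_aleph_one
  have hlim : IsSuccLimit (ℵ_ 1 : Cardinal.{u}).ord := isSuccLimit_ord hreg.aleph0_le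
  have hpos : (0 : Ordinal.{u}) < (ℵ_ 1 : Cardinal.{u}).ord := hlim.bot_lt
  have hlim2 : IsSuccLimit (c.ord + (ℵ_ 1 : Cardinal.{u}).ord) :=
    (Ordinal.isNormal_add_right c.ord).map_isSuccLimit hlim
  refine ⟨ℵ_ (c.ord + (ℵ_ 1 : Cardinal.{u}).ord), ?_, ?_⟩
  · rw [← ord_lt_ord, ord_aleph]
    calc c.ord < c.ord + (ℵ_ 1 : Cardinal.{u}).ord := lt_add_of_pos_right _ hpos
      _ ≤ _ := Ordinal.le_omega_self _
  · rw [ord_aleph, Ordinal.cof_map_of_isNormal Ordinal.isNormal_omega hlim2,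
      Ordinal.cof_add _ hpos.ne', hreg.cof_ord]

theorem main_B (hG : ∀ c : Cardinal.{u}, ℵ₀ ≤ c → 2 ^ c = succ c) {K : ℕ → Cardinal.{u}}
    (hm : StrictMono K) (hK : ∀ n, IsStrComp (K n)) :
    ∃ (N : Type (u + 1)) (E : N → N → Prop) (W : N → Prop) (l A : N), IsExampleCof E W l A := by
  obtain ⟨lam, h1, h2⟩ := exists_large (succ (⨆ n, K n))
  have h3 : (ℵ_ 1 : Cardinal.{u}) < K 0 := by
    have h4 : (ℵ_ 1 : Cardinal.{u}) ≤ 2 ^ (ℵ₀ : Cardinal.{u}) := by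
      rw [hG _ le_rfl, succ_aleph0]
    exact h4.trans_lt ((hK 0).two_power_lt (hK 0).1)
  have h0 : ℵ₀ < lam.ord.cof := by
    rw [h2]
    exact aleph0_lt_aleph_one
  have h5 : lam.ord.cof < lam := by
    rw [h2]
    exact (h3.trans_le (le_ciSup (bddAbove_of_small) 0)).trans ((lt_succ _).trans h1)
  obtain ⟨B, hB, ⟨U⟩, ⟨F⟩, hcov⟩ := exists_frc hG hm hK h1 (by rw [h2]; exact h3)
  exact ⟨_, _, _, _, _, exampleCof_of_frc hG h0 h5 hcov F U⟩

end PG
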