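import Pool.Agent.H92.PG.Lbf

/-!
# FSE: fusion
-/

set_option autoImplicit false

universe u v

open Cardinal Order

namespace PG

open PK BV

variable {D : Dat.{u}}

/-- `Fr m (g k) (g m)` for `m ≤ k`. Let `z.len = (g 0).len`, `z.f n α = (g k).f n α` if this is not
`none` for some `k`, `z.a n = (g (n + 1)).a n`, `z.X n = (g (n + 1)).X n`; this is the value for
all `g k`, `k ≥ n + 1`. -/
theorem exists_fuse (g : ℕ → Pc D) (hg : ∀ m, Pc.Fr m (g (m + 1)) (g m)) :
    ∃ z, ∀ m, Pc.Fr m z (g m) := by
  have hfr : ∀ m k, m ≤ k → Pc.Fr m (g k) (g m) := by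
    intro m k hmk
    induction k, hmk using Nat.le_induction with
    | base => exact Pc.Fr.refl m _
    | succ k hk ih => exact ((hg k).mono hk).trans ih
  have hlen : ∀ k, (g k).len = (g 0).len := fun k => (hfr 0 k (Nat.zero_le k)).1
  have hf : ∀ m k, m ≤ k → ∀ n α γ, (g m).f n α = some γ → (g k).f n α = some γ :=
    fun m k h => (hfr m k h).2.1
  have hcomp : ∀ n α i j γ γ', (g i).f n α = some γ → (g j).f n α = some γ' → γ = γ' := by
    intro n α i j γ γ' h1 h2
    exact Option.some_injective _ ((hf i (max i j) (le_max_left _ _) n α γ h1).symm.trans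
      (hf j (max i j) (le_max_right _ _) n α γ' h2))
  have hfro : ∀ n k, n + 1 ≤ k → (g k).a n = (g (n + 1)).a n ∧ (g k).X n = (g (n + 1)).X n :=
    fun n k hk => (hfr (n + 1) k hk).2.2.1 n (Nat.lt_succ_self n)
  let z : Pc D :=
    { len := (g 0).len
      f := fun n => ufun fun i => (g i).f n
      a := fun n => (g (n + 1)).a n
      X := fun n => (g (n + 1)).X n
      hf := by
        intro n
        have h1 : {α | ufun (fun i => (g i).f n) α ≠ none} ⊆
            ⋃ i : ULift.{u} ℕ, {α | (g i.down).f n α ≠ none} := by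
          intro α hα
          obtain ⟨i, hi⟩ := ufun_ne_none hα
          exact Set.mem_iUnion.2 ⟨⟨i⟩, hi⟩
        refine (mk_le_mk_of_subset h1).trans (mk_iUnion_le_sum_mk.trans ?_)
        refine (sum_le_sum _ (fun _ => D.nu) fun (i : ULift.{u} ℕ) => (g i.down).hf n).trans ?_
        rw [sum_const, lift_id, lift_id, mk_uLift, mk_nat, lift_aleph0]
        exact (aleph0_mul_eq D.aleph0_lt_nu.le).le
      ha := fun n => (g (n + 1)).ha n
      hX := fun n => (g (n + 1)).hX n
      hdep := fun n => (g (n + 1)).hdep n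
      hdis := by
        intro n hn α hα
        refine ufun_eq_none fun j => ?_
        by_contra hne
        obtain ⟨γ, hγ⟩ := Option.ne_none_iff_exists'.1 hne
        have h1 := hf j (max j (n + 1)) (le_max_left _ _) n α γ hγ
        have h2 := (g (max j (n + 1))).hdis n ((hlen _).le.trans hn) α (by
          rw [(hfro n _ (le_max_right _ _)).1]
          exact hα)
        rw [h1] at h2
        exact absurd h2 (by simp) }
  refine ⟨z, fun m => ⟨(hlen m).symm, fun n α γ h => ?_, fun n hn => ⟨?_, ?_⟩, fun n hn => ?_⟩⟩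
  · exact ufun_of_some (g := fun i => (g i).f n) (hcomp n α) h
  · exact (hfro n m hn).1.symm
  · exact (hfro n m hn).2.symm
  · exact (hfr m (n + 1) (hn.trans (Nat.le_succ n))).2.2.2 n hn

end PG
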