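import Pool.Agent.H92.PG.Stg
import Pool.Agent.H92.PG.Fse

/-!
# FUS: countably many values for every stem
-/

set_option autoImplicit false

universe u v

open Cardinal Order

namespace PG

open PK BV

variable {D : Dat.{u}} {X B : Type u} [CompleteBooleanAlgebra B] {e : Pc D × Fp X → B}

/-- Let `g 0 = p` and let `g (m + 1) = g m` if `m < p.len` and otherwise obtained from `g m` by
`exists_stage` at stage `m` (carry the invariant `(g m).len = p.len`, e.g. as a subtype). Let `r`
be given by `exists_fuse`. For `m ≥ p.len` we have `Fr m r (g (m + 1))`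
(as `Fr (m + 1) r (g (m + 1))`, `Fr.mono`), so `Fr m (r.add s m) ((g (m + 1)).add s m)` by `add_fr`, and
`vals_mono` applies. `Fr p.len r p`: `g p.len = p` by construction. -/
theorem exists_fus (he : DenseEmb (Pc D × Fp X) B e) (p : Pc D) (β : ℕ → Type u)
    (hβ : ∀ m, #(β m) < D.K m) (R : ∀ m, β m → Ordinal.{u} → B) (hR : ∀ m i, Disj (R m i)) :
    ∃ r, Pc.Fr p.len r p ∧ ∀ m, p.len ≤ m → ∀ (i : β m) (s : ∀ n, D.L → D.Kt n),
      (Vals e (R m i) (r.add s m)).Countable := by
  have hstep : ∀ (m : ℕ) (x : {x : Pc D // x.len = p.len}), ∃ y : {y : Pc D // y.len = p.len},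
      Pc.Fr m y.1 x.1 ∧ (p.len ≤ m → ∀ (i : β m) (s : ∀ n, D.L → D.Kt n),
        (Vals e (R m i) (y.1.add s m)).Countable) ∧ (m < p.len → y = x) := by
    intro m x
    by_cases hm : p.len ≤ m
    · obtain ⟨r, hr1, hr2⟩ := exists_stage he x.1 m (x.2.le.trans hm) (β m) (hβ m) (R m) (hR m)
      exact ⟨⟨r, hr1.1.trans x.2⟩, hr1, fun _ => hr2, fun h => absurd h (not_lt.2 hm)⟩
    · exact ⟨x, Pc.Fr.refl _ _, fun h => absurd h hm, fun _ => rfl⟩
  choose F hF1 hF2 hF3 using hstep
  let g : ℕ → {x : Pc D // x.len = p.len} := fun m => Nat.rec ⟨p, rfl⟩ (fun m x => F m x) m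
  have hg : ∀ m, g (m + 1) = F m (g m) := fun m => rfl
  have hfix : ∀ m, m ≤ p.len → g m = ⟨p, rfl⟩ := by
    intro m
    induction m with
    | zero => intro _; rfl
    | succ m ih =>
      intro hm
      rw [hg, hF3 m _ (Nat.lt_of_succ_le hm)]
      exact ih (Nat.le_of_succ_le hm)
  obtain ⟨z, hz⟩ := exists_fuse (fun m => (g m).1) (fun m => by
    show Pc.Fr m (g (m + 1)).1 (g m).1
    rw [hg]
    exact hF1 m (g m))
  refine ⟨z, ?_, ?_⟩
  · have h1 := hz p.len
    simp only [hfix p.len le_rfl] at h1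
    exact h1
  · intro m hm i s
    have h1 : Pc.Fr m z (g (m + 1)).1 := (hz (m + 1)).mono (Nat.le_succ m)
    have h2 := add_fr h1 s
    refine Set.Countable.mono (vals_mono h2.le h2.1) ?_
    rw [hg]
    exact hF2 m (g m) hm i s

end PG
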