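import Pool.Agent.H92.PG.Atm

/-!
# GNA: the generic filter is definable from the atoms, first part
-/

set_option autoImplicit false

universe u v

open Cardinal Order

namespace PG

open PK BV

variable {D : Dat.{u}} {X B : Type u} [CompleteBooleanAlgebra B] {e : Pc D × Fp X → B}

/-- the code of a condition `p`: (1) `F n` extends `p.1.f n`, (2) `c` extends `p.2`, (3) for
`n ≥ p.1.len` the restriction of `F n` to `a n` is the restriction of an element of `X n`, (4) for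
every infinite set `N` of natural numbers `≥ p.1.len` and all `α n ∈ p.1.a n`, `γ n`, `n ∈ N`, there is
`n ∈ N` with `F n (α n) ≠ γ n` -/
def wOf (p : Pc D × Fp X) : Set (Set (Set (Atm D X))) :=
  {v | ∃ n α γ, p.1.f n α = some γ ∧ v = {{Sum.inl ⟨n, α, γ⟩}}} ∪
  ({v | ∃ x b, p.2.1 x = some b ∧ v = {{Sum.inr (x, b)}}} ∪
  ({v | ∃ n, p.1.len ≤ n ∧
      v = {z | ∃ h ∈ p.1.X n, z = {x | ∃ α ∈ p.1.a n, x = Sum.inl ⟨n, α, h α⟩}}} ∪
  {v | ∃ (N : Set ℕ) (α : ℕ → D.L) (γ : ∀ n, D.Kt n), N.Infinite ∧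
      (∀ n ∈ N, p.1.len ≤ n ∧ α n ∈ p.1.a n) ∧
      v = {z | ∃ n ∈ N, ∃ γ', γ' ≠ γ n ∧ z = {Sum.inl ⟨n, α n, γ'⟩}}}))

theorem GNA_key (he : DenseEmb (Pc D × Fp X) B e) (p : Pc D × Fp X) (v : Set (Set (Atm D X)))
    (hk : ∀ q ≤ p, ∃ q' ≤ q, ∃ z ∈ v, ∀ x ∈ z, e q' ≤ av e x) :
    e p ≤ ⨆ z ∈ v, ⨅ x ∈ z, av e x := by
  set S : B := ⨆ z ∈ v, ⨅ x ∈ z, av e x with hS
  by_contra hcon
  have h1 : e p ⊓ Sᶜ ≠ ⊥ := by
    intro h2
    apply hcon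
    rw [← compl_compl S]
    exact le_compl_iff_disjoint_right.2 (disjoint_iff.2 h2)
  obtain ⟨q, hq, hqS⟩ := he.exists_le_of_inf_ne_bot h1
  obtain ⟨q', hq', z, hz, hx⟩ := hk q hq
  have h2 : e q' ≤ S := le_iSup₂_of_le z hz (le_iInf₂ hx)
  have h3 : e q' ≤ Sᶜ := (he.mono _ _ hq').trans hqS
  apply he.ne_bot q'
  rw [eq_bot_iff, ← inf_compl_self (a := S)]
  exact le_inf h2 h3

/-- Let `v ∈ wOf p` and let `p' ≤ p` be given; it is enough to find `p'' ≤ p'` and `z ∈ v` with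
`e p'' ≤ av e x` for all `x ∈ z` (otherwise `e p ⊓ (⨆ ..)ᶜ ≠ ⊥` contains an `e p'`, compare
`PK.e_eq` in `PK/GenA.lean`; from `e p' ≤ e p` and `he.compat` pass to a common extension of `p'` and
`p`). (1), (2): clear. (3): extend `p'.1` to length `> n` (`exists_long`) and use the definition of
`≤`. (4): choose `n ∈ N`, `n ≥ p'.1.len`, so `α n ∈ p.1.a n ⊆ p'.1.a n`; by `exists_other` (applied
to `p'.1`; `p'.1.f n (α n) = none`) there is an extension with `f n (α n) = γ' ≠ γ n`. -/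
theorem e_le_wOf (he : DenseEmb (Pc D × Fp X) B e) (p : Pc D × Fp X) :
    e p ≤ ⨅ v ∈ wOf p, ⨆ z ∈ v, ⨅ x ∈ z, av e x := by
  apply le_iInf₂
  intro v hv
  apply GNA_key he p v
  intro q hq
  rcases hv with ⟨n, α, γ, h, rfl⟩ | ⟨x, b, h, rfl⟩ | ⟨n, hn, rfl⟩ | ⟨N, α, γ, hN, hNa, rfl⟩
  · refine ⟨q, le_rfl, _, rfl, ?_⟩
    rintro _ rfl
    exact le_av_inl ((Pc.le_def.1 hq.1).2.1 n α γ h)
  · refine ⟨q, le_rfl, _, rfl, ?_⟩
    rintro _ rfl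
    exact le_av_inr (hq.2 x b h)
  · obtain ⟨r, hr, hrl, _, _, _⟩ := exists_long q.1 (n + 1)
    have hr' : r ≤ p.1 := hr.trans hq.1
    have hnr : n < r.len := by
      rw [hrl]
      exact lt_of_lt_of_le (Nat.lt_succ_self n) (le_max_right _ _)
    obtain ⟨g, hg, hga⟩ := (Pc.le_def.1 hr').2.2.1 n hn hnr
    refine ⟨(r, q.2), ⟨hr, le_rfl⟩, _, ⟨g, hg, rfl⟩, ?_⟩
    rintro _ ⟨α, hα, rfl⟩
    exact le_av_inl (p := (r, q.2)) (hga α hα)
  · obtain ⟨n, hn, hnq⟩ := hN.exists_gt q.1.len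
    have h1 : α n ∈ q.1.a n := ((Pc.le_def.1 hq.1).2.2.2 n hnq.le).1 (hNa n hn).2
    have h2 : q.1.f n (α n) ≠ some (γ n) := by
      rw [q.1.hdis n hnq.le (α n) h1]
      exact (Option.some_ne_none _).symm
    obtain ⟨r, hr, γ', hne, hγ'⟩ := exists_other q.1 n (α n) (γ n) h2
    refine ⟨(r, q.2), ⟨hr, le_rfl⟩, _, ⟨n, hn, γ', hne, rfl⟩, ?_⟩
    rintro _ rfl
    exact le_av_inl (p := (r, q.2)) hγ'

end PG
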