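import Pool.Agent.H92.PG.Gna

/-!
# GNB: the generic filter is definable from the atoms, second part
-/

set_option autoImplicit false

universe u v

open Cardinal Order

namespace PG

open PK BV

variable {D : Dat.{u}} {X B : Type u} [CompleteBooleanAlgebra B] {e : Pc D × Fp X → B}

/-- `p' = p` with `f n` extended to `c` by arbitrary values, if `n < p.len` -/
theorem exists_fill (p : Pc D) (n : ℕ) (hn : n < p.len) (c : Set D.L) (hc : #c ≤ D.nu) :
    ∃ r ≤ p, r.len = p.len ∧ (∀ j, j ≠ n → r.f j = p.f j) ∧ (∀ j, r.a j = p.a j) ∧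
      (∀ j, r.X j = p.X j) ∧ ∀ α ∈ c, r.f n α ≠ none := by
  classical
  refine ⟨{ len := p.len
            f := fun j α => if j = n ∧ α ∈ c ∧ p.f j α = none then
              some (Classical.arbitrary (D.Kt j)) else p.f j α
            a := p.a
            X := p.X
            hf := ?_
            ha := p.ha
            hX := p.hX
            hdep := p.hdep
            hdis := ?_ }, ?_, rfl, ?_, fun j => rfl, fun j => rfl, ?_⟩
  · intro j
    have h1 : {α | (if j = n ∧ α ∈ c ∧ p.f j α = none then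
        some (Classical.arbitrary (D.Kt j)) else p.f j α) ≠ none} ⊆ c ∪ {α | p.f j α ≠ none} := by
      intro α hα
      by_cases h : j = n ∧ α ∈ c ∧ p.f j α = none
      · exact Or.inl h.2.1
      · right
        have h2 : (if j = n ∧ α ∈ c ∧ p.f j α = none then
          some (Classical.arbitrary (D.Kt j)) else p.f j α) ≠ none := hα
        rw [if_neg h] at h2
        exact h2
    refine (mk_le_mk_of_subset h1).trans ((mk_union_le _ _).trans ?_)
    exact (add_le_add hc (p.hf j)).trans (add_eq_self D.aleph0_lt_nu.le).le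
  · intro j hj α hα
    rw [if_neg]
    · exact p.hdis j hj α hα
    · rintro ⟨h, _⟩
      omega
  · refine ⟨le_rfl, ?_, ?_, fun j _ => ⟨subset_rfl, subset_rfl⟩⟩
    · intro j α γ h
      show (if j = n ∧ α ∈ c ∧ p.f j α = none then
          some (Classical.arbitrary (D.Kt j)) else p.f j α) = some γ
      rw [if_neg, h]
      rintro ⟨_, _, h2⟩
      rw [h] at h2
      exact Option.some_ne_none _ h2
    · intro j h1 h2
      exact absurd h2 (not_lt.2 h1)
  · intro j hj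
    funext α
    show (if j = n ∧ α ∈ c ∧ p.f j α = none then
          some (Classical.arbitrary (D.Kt j)) else p.f j α) = p.f j α
    rw [if_neg]
    rintro ⟨h, _⟩
    exact hj h
  · intro α hα
    show (if n = n ∧ α ∈ c ∧ p.f n α = none then
          some (Classical.arbitrary (D.Kt n)) else p.f n α) ≠ none
    by_cases h : p.f n α = none
    · rw [if_pos ⟨rfl, hα, h⟩]
      exact Option.some_ne_none _
    · rw [if_neg]
      · exact h
      · rintro ⟨_, _, h2⟩
        exact h h2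

/-- an element of a join -/
theorem GNB_exists {Z : Type*} {b : B} (hb : b ≠ ⊥) {v : Set Z} {g : Z → B}
    (h : b ≤ ⨆ z ∈ v, g z) : ∃ z ∈ v, b ⊓ g z ≠ ⊥ := by
  by_contra hcon
  push Not at hcon
  apply hb
  rw [← inf_eq_left.2 h, inf_iSup₂_eq]
  exact iSup₂_eq_bot.2 hcon

/-- the iterated version of `exists_fill` -/
theorem GNB_fill (q : Pc D) (l m : ℕ) (hm : q.len = m) (c : ℕ → Set D.L)
    (hc : ∀ n, #(c n) ≤ D.nu) (k : ℕ) :
    ∃ r ≤ q, r.len = m ∧ (∀ j, m ≤ j → r.f j = q.f j) ∧ (∀ j, r.a j = q.a j) ∧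
      (∀ j, r.X j = q.X j) ∧ ∀ n, n < k → n < m → l ≤ n → ∀ α ∈ c n, r.f n α ≠ none := by
  induction k with
  | zero =>
    exact ⟨q, le_rfl, hm, fun _ _ => rfl, fun _ => rfl, fun _ => rfl,
      fun n hn => absurd hn (Nat.not_lt_zero n)⟩
  | succ k ih =>
    obtain ⟨r, h1, h2, h3, h4, h5, h6⟩ := ih
    by_cases hk : k < m
    · obtain ⟨r', g1, g2, g3, g4, g5, g6⟩ := exists_fill r k (h2.symm ▸ hk) (c k) (hc k)
      refine ⟨r', g1.trans h1, g2.trans h2, ?_, fun j => (g4 j).trans (h4 j),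
        fun j => (g5 j).trans (h5 j), ?_⟩
      · intro j hj
        rw [g3 j (by omega), h3 j hj]
      · intro n hn hnm hl α hα
        rcases Nat.lt_succ_iff_lt_or_eq.1 hn with hn' | hn'
        · have h7 := h6 n hn' hnm hl α hα
          obtain ⟨γ, hγ⟩ := Option.ne_none_iff_exists'.1 h7
          rw [(Pc.le_def.1 g1).2.1 n α γ hγ]
          exact Option.some_ne_none _
        · subst hn'
          exact g6 α hα
    · refine ⟨r, h1, h2, h3, h4, h5, ?_⟩
      intro n hn hnm hl α hα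
      exact h6 n (by omega) hnm hl α hα

/-- Let `e p'` be below the right hand side of `e_le_wOf p`. Then `p'` and `p` are compatible.
(a) `p'.1.f` extends `p.1.f` and `p'.2` extends `p.2` by `le_av_inl_iff`, `le_av_inr_iff`.
(b) The set `N` of all `n ≥ max p.1.len p'.1.len` such that `p'.1.f n α ≠ none` for some
`α ∈ p.1.a n` is finite: otherwise choose `α n`, `γ n` with `p'.1.f n (α n) = some (γ n)` and consider
the member (4) of `wOf p`: there are `n ∈ N`, `γ' ≠ γ n` with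
`e p' ⊓ av e (inl ⟨n, α n, γ'⟩) ≠ ⊥`, a contradiction to `inf_av_inl`.
(c) By `exists_long` extend `p'.1` to `p1` whose length is `≥ max p.1.len p'.1.len` and greater
than all elements of `N` (the `f n` with `n ≥ p1.len` do not change). Apply `exists_fill` with
`c = p.1.a n` for all `n` with `p.1.len ≤ n < p1.len` to get `p2 ≤ p1` of the same length. For each
such `n`, `e (p2, p'.2) ≤ ⨆ h ∈ p.1.X n, ⨅ α ∈ p.1.a n, av e (inl ⟨n, α, h α⟩)`, so for some
`h ∈ p.1.X n` the infimum with `e (p2, p'.2)` is not `⊥` and `inf_av_inl` gives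
`p2.f n α = some (h α)` for all `α ∈ p.1.a n`. For `n ≥ p2.len`, `p2.f n` is not defined on
`p.1.a n`.
(d) Common extension of `p2` and `p.1`: `p2` with `a n` replaced by `p2.a n ∪ p.1.a n` and `X n` by
`p2.X n ∩ p.1.X n` (for all `n`, or only for `n ≥ p2.len`); the finite part is `p'.2`. -/
theorem compat_of_le (he : DenseEmb (Pc D × Fp X) B e) (p p' : Pc D × Fp X)
    (h : e p' ≤ ⨅ v ∈ wOf p, ⨆ z ∈ v, ⨅ x ∈ z, av e x) : ∃ r, r ≤ p' ∧ r ≤ p := by
  classical
  have hv : ∀ v ∈ wOf p, e p' ≤ ⨆ z ∈ v, ⨅ x ∈ z, av e x := fun v hv => h.trans (iInf₂_le v hv)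
  -- (a)
  have ha1 : ∀ n α γ, p.1.f n α = some γ → p'.1.f n α = some γ := by
    intro n α γ hγ
    have h1 := hv {{Sum.inl ⟨n, α, γ⟩}} (Or.inl ⟨n, α, γ, hγ, rfl⟩)
    rw [iSup_singleton, iInf_singleton] at h1
    exact (le_av_inl_iff he).1 h1
  have ha2 : ∀ x b, p.2.1 x = some b → p'.2.1 x = some b := by
    intro x b hb
    have h1 := hv {{Sum.inr (x, b)}} (Or.inr (Or.inl ⟨x, b, hb, rfl⟩))
    rw [iSup_singleton, iInf_singleton] at h1
    exact (le_av_inr_iff he).1 h1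
  -- (b)
  set N : Set ℕ := {n | p.1.len ≤ n ∧ p'.1.len ≤ n ∧ ∃ α ∈ p.1.a n, p'.1.f n α ≠ none} with hN
  have hfin : N.Finite := by
    by_contra hinf
    have hinf' : N.Infinite := hinf
    obtain ⟨n0, hn0⟩ := hinf'.nonempty
    obtain ⟨_, _, α0, _, _⟩ := hn0
    have hch : ∀ n, ∃ α : D.L, ∃ γ : D.Kt n, n ∈ N → (α ∈ p.1.a n ∧ p'.1.f n α = some γ) := by
      intro n
      by_cases hn : n ∈ N
      · obtain ⟨_, _, α, hα, hne⟩ := hn
        obtain ⟨γ, hγ⟩ := Option.ne_none_iff_exists'.1 hne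
        exact ⟨α, γ, fun _ => ⟨hα, hγ⟩⟩
      · exact ⟨α0, Classical.arbitrary _, fun h => absurd h hn⟩
    choose α γ hαγ using hch
    have h1 := hv {z | ∃ n ∈ N, ∃ γ', γ' ≠ γ n ∧ z = {Sum.inl ⟨n, α n, γ'⟩}}
      (Or.inr (Or.inr (Or.inr ⟨N, α, γ, hinf', fun n hn => ⟨hn.1, (hαγ n hn).1⟩, rfl⟩)))
    obtain ⟨z, hz, hzne⟩ := GNB_exists (he.ne_bot p') h1
    obtain ⟨n, hn, γ', hne, rfl⟩ := hz
    apply hzne
    rw [iInf_singleton]
    exact inf_av_inl he (hαγ n hn).2 (Ne.symm hne)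
  obtain ⟨M, hM⟩ := hfin.bddAbove
  set m : ℕ := max (max p.1.len p'.1.len) (M + 1) with hm
  have hm1 : p.1.len ≤ m := (le_max_left _ _).trans (le_max_left _ _)
  have hm2 : p'.1.len ≤ m := (le_max_right _ _).trans (le_max_left _ _)
  have hm3 : M + 1 ≤ m := le_max_right _ _
  -- (c)
  obtain ⟨p1, hp1, hp1l, hp1f, hp1a, hp1X⟩ := exists_long p'.1 m
  rw [max_eq_right hm2] at hp1l
  obtain ⟨p2, hp2, hp2l, hp2f, hp2a, hp2X, hp2n⟩ := GNB_fill p1 p.1.len m hp1l p.1.a
    (fun n => ((p.1.ha n).trans (D.K_lt_nu n)).le) m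
  have h2' : p2 ≤ p'.1 := hp2.trans hp1
  have hext : ∀ n α γ, p.1.f n α = some γ → p2.f n α = some γ := fun n α γ hγ =>
    (Pc.le_def.1 h2').2.1 n α γ (ha1 n α γ hγ)
  have hstem : ∀ n, p.1.len ≤ n → n < m → ∃ h ∈ p.1.X n, ∀ α ∈ p.1.a n, p2.f n α = some (h α) := by
    intro n hn hnm
    have h1 := hv {z | ∃ h ∈ p.1.X n, z = {x | ∃ α ∈ p.1.a n, x = Sum.inl ⟨n, α, h α⟩}}
      (Or.inr (Or.inr (Or.inl ⟨n, hn, rfl⟩)))
    have h2 : e (p2, p'.2) ≤ e p' := he.mono _ _ ⟨h2', le_rfl⟩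
    obtain ⟨z, hz, hzne⟩ := GNB_exists (he.ne_bot (p2, p'.2)) (h2.trans h1)
    obtain ⟨g, hg, rfl⟩ := hz
    refine ⟨g, hg, ?_⟩
    intro α hα
    obtain ⟨γ, hγ⟩ := Option.ne_none_iff_exists'.1 (hp2n n hnm hnm hn α hα)
    by_cases hne : γ = g α
    · rw [hγ, hne]
    · exfalso
      apply hzne
      have h3 := inf_av_inl he (p := (p2, p'.2)) (n := n) (α := α) (γ := g α) (γ' := γ) hγ hne
      refine le_bot_iff.1 (le_trans (inf_le_inf le_rfl ?_) h3.le)
      exact iInf₂_le (Sum.inl ⟨n, α, g α⟩ : Atm D X) ⟨α, hα, rfl⟩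
  have hnone : ∀ n, m ≤ n → ∀ α ∈ p.1.a n, p2.f n α = none := by
    intro n hn α hα
    rw [hp2f n hn, hp1f n hn]
    by_contra hne
    have h1 : n ∈ N := ⟨hm1.trans hn, hm2.trans hn, α, hα, hne⟩
    have h2 := hM h1
    omega
  -- (d)
  have hK : ∀ n, ℵ₀ ≤ D.K n := fun n => (D.unc n).le
  let r : Pc D :=
    { len := m
      f := p2.f
      a := fun n => p2.a n ∪ p.1.a n
      X := fun n => p2.X n ∩ p.1.X n
      hf := p2.hf
      ha := fun n => (mk_union_le _ _).trans_lt (add_lt_of_lt (hK n) (p2.ha n) (p.1.ha n))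
      hX := fun n => Filter.inter_mem (p2.hX n) (p.1.hX n)
      hdep := fun n h h' hh hX => ⟨p2.hdep n h h' (fun α hα => hh α (Or.inl hα)) hX.1,
        p.1.hdep n h h' (fun α hα => hh α (Or.inr hα)) hX.2⟩
      hdis := by
        intro n hn α hα
        rcases hα with hα | hα
        · exact p2.hdis n (hp2l.le.trans hn) α hα
        · exact hnone n hn α hα }
  have hr2 : r ≤ p2 := by
    refine ⟨hp2l.le, fun _ _ _ h => h, ?_, fun n _ => ⟨Set.subset_union_left,
      Set.inter_subset_left⟩⟩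
    intro n h1 h2
    exact absurd h2 (not_lt.2 (le_trans hp2l.ge h1))
  have hr1 : r ≤ p.1 := by
    refine ⟨hm1, hext, hstem, fun n _ => ⟨Set.subset_union_right, Set.inter_subset_right⟩⟩
  exact ⟨(r, p'.2), ⟨hr2.trans h2', le_rfl⟩, ⟨hr1, ha2⟩⟩

end PG
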