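import Pool.Agent.H92.PG.Base

/-!
# LBF: lower bounds
-/

set_option autoImplicit false

universe u v w

open Cardinal Order

namespace PG

open PK BV

variable {D : Dat.{u}}

open Classical in
/-- the union of partial functions -/
noncomputable def ufun {ι : Sort v} {A : Type u} {Γ : Type w} (g : ι → A → Option Γ) (α : A) : Option Γ :=
  if h : ∃ i, g i α ≠ none then g h.choose α else none

theorem ufun_of_some {ι : Sort v} {A : Type u} {Γ : Type w} {g : ι → A → Option Γ} {α : A}
    (hc : ∀ i j γ γ', g i α = some γ → g j α = some γ' → γ = γ') {i : ι} {γ : Γ}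
    (h : g i α = some γ) : ufun g α = some γ := by
  have h1 : ∃ i, g i α ≠ none := ⟨i, by rw [h]; simp⟩
  unfold ufun
  rw [dif_pos h1]
  obtain ⟨γ', hγ'⟩ := Option.ne_none_iff_exists'.1 h1.choose_spec
  rw [hγ', hc _ _ _ _ hγ' h]

theorem ufun_eq_none {ι : Sort v} {A : Type u} {Γ : Type w} {g : ι → A → Option Γ} {α : A}
    (h : ∀ i, g i α = none) : ufun g α = none := by
  unfold ufun
  rw [dif_neg]
  rintro ⟨i, hi⟩
  exact hi (h i)

theorem ufun_ne_none {ι : Sort v} {A : Type u} {Γ : Type w} {g : ι → A → Option Γ} {α : A}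
    (h : ufun g α ≠ none) : ∃ i, g i α ≠ none := by
  by_contra hc
  push Not at hc
  exact h (ufun_eq_none hc)

/-- `z.len` the common length; `z.f n α = (g i).f n α` if this is not `none` for some `i` (choose
`i`; well defined: two of the `g i` are comparable) and `none` otherwise; `z.a n = ⋃ i, (g i).a n`,
`z.X n = ⋂ i, (g i).X n`. For `n < m` all `(g i).a n` and all `(g i).X n` are equal; for `n ≥ m`
use that `K n` is regular and that `E n` is `K n`-complete. The domains of `z.f n` have cardinality
at most `#ι * ν ≤ ν`. `z.hdis`: if `α ∈ (g i).a n`, `n ≥ z.len`, and `j` is given, compare `g i`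
and `g j`. -/
theorem exists_lb (m : ℕ) (ι : Type u) (g : ι → Pc D) (hι : #ι < D.K m) (hne : Nonempty ι)
    (hc : ∀ i j, Pc.Fr m (g i) (g j) ∨ Pc.Fr m (g j) (g i)) : ∃ z, ∀ i, Pc.Fr m z (g i) := by
  obtain ⟨i0⟩ := hne
  have hlen : ∀ i, (g i).len = (g i0).len := by
    intro i
    rcases hc i i0 with h | h
    · exact h.1
    · exact h.1.symm
  have hcomp : ∀ n α i j γ γ', (g i).f n α = some γ → (g j).f n α = some γ' → γ = γ' := by
    intro n α i j γ γ' h1 h2
    rcases hc i j with h | h
    · exact Option.some_injective _ (h1.symm.trans (h.2.1 n α γ' h2))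
    · exact Option.some_injective _ ((h.2.1 n α γ h1).symm.trans h2)
  have hfro : ∀ i, ∀ n < m, (g i).a n = (g i0).a n ∧ (g i).X n = (g i0).X n := by
    intro i n hn
    rcases hc i i0 with h | h
    · exact h.2.2.1 n hn
    · exact ⟨(h.2.2.1 n hn).1.symm, (h.2.2.1 n hn).2.symm⟩
  have hafro : ∀ n < m, (⋃ i, (g i).a n) = (g i0).a n := by
    intro n hn
    apply Set.Subset.antisymm
    · exact Set.iUnion_subset fun i => (hfro i n hn).1.le
    · exact Set.subset_iUnion (fun i => (g i).a n) i0
  have hXfro : ∀ n < m, (⋂ i, (g i).X n) = (g i0).X n := by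
    intro n hn
    apply Set.Subset.antisymm
    · exact Set.iInter_subset (fun i => (g i).X n) i0
    · exact Set.subset_iInter fun i => (hfro i n hn).2.ge
  let z : Pc D :=
    { len := (g i0).len
      f := fun n => ufun fun i => (g i).f n
      a := fun n => ⋃ i, (g i).a n
      X := fun n => ⋂ i, (g i).X n
      hf := by
        intro n
        have h1 : {α | ufun (fun i => (g i).f n) α ≠ none} ⊆ ⋃ i, {α | (g i).f n α ≠ none} := by
          intro α hα
          obtain ⟨i, hi⟩ := ufun_ne_none hα
          exact Set.mem_iUnion.2 ⟨i, hi⟩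
        refine (mk_le_mk_of_subset h1).trans (mk_iUnion_le_sum_mk.trans ?_)
        refine (sum_le_sum _ (fun _ => D.nu) fun i => (g i).hf n).trans ?_
        rw [sum_const, lift_id, lift_id]
        exact mul_le_of_le D.aleph0_lt_nu.le (hι.le.trans (D.K_lt_nu m).le) le_rfl
      ha := by
        intro n
        rcases lt_or_ge n m with hn | hn
        · rw [hafro n hn]
          exact (g i0).ha n
        · rw [card_iUnion_lt_iff_forall_of_isRegular (D.reg n)
            (hι.trans_le (D.mono.monotone hn))]
          exact fun i => (g i).ha n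
      hX := by
        intro n
        rcases lt_or_ge n m with hn | hn
        · rw [hXfro n hn]
          exact (g i0).hX n
        · exact D.compl n ι _ (hι.trans_le (D.mono.monotone hn)) fun i => (g i).hX n
      hdep := by
        intro n h h' hh hX
        rw [Set.mem_iInter] at hX ⊢
        exact fun i => (g i).hdep n h h' (fun α hα => hh α (Set.mem_iUnion.2 ⟨i, hα⟩)) (hX i)
      hdis := by
        intro n hn α hα
        obtain ⟨i, hi⟩ := Set.mem_iUnion.1 hα
        refine ufun_eq_none fun j => ?_
        have hni : (g i).f n α = none := (g i).hdis n ((hlen i).le.trans hn) α hi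
        rcases hc i j with h | h
        · by_contra hne
          obtain ⟨γ, hγ⟩ := Option.ne_none_iff_exists'.1 hne
          rw [h.2.1 n α γ hγ] at hni
          exact absurd hni (by simp)
        · refine (g j).hdis n ((hlen j).le.trans hn) α ?_
          rcases lt_or_ge n m with hn' | hn'
          · rw [(h.2.2.1 n hn').1]
            exact hi
          · exact (h.2.2.2 n hn').1 hi }
  refine ⟨z, fun i => ⟨(hlen i).symm, fun n α γ h => ?_, fun n hn => ⟨?_, ?_⟩, fun n hn => ⟨?_, ?_⟩⟩⟩
  · exact ufun_of_some (g := fun i => (g i).f n) (hcomp n α) h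
  · exact (hafro n hn).trans (hfro i n hn).1.symm
  · exact (hXfro n hn).trans (hfro i n hn).2.symm
  · exact Set.subset_iUnion (fun i => (g i).a n) i
  · exact Set.iInter_subset (fun i => (g i).X n) i

end PG
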