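import Pool.Agent.H92.PG.Val
import Pool.Agent.H92.PG.Cnt
import Pool.Agent.H92.PG.Bat

/-!
# STG: one stage of the fusion
-/

set_option autoImplicit false

universe u v

open Cardinal Order

namespace PG

open PK BV

variable {D : Dat.{u}} {X B : Type u} [CompleteBooleanAlgebra B] {e : Pc D × Fp X → B}

/-- One stage. The type of tasks is `(∀ n : Fin m, (p.a n → D.Kt n)) × β`, of cardinality `< K m`
(`mk_stems`). For a task `(t, i)` let `s n` (`n < m`) be the extension of `t n` to `L` with any value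
outside `p.a n`, and `s n` arbitrary for `n ≥ m`. Apply `exists_dist` to the relation
`rel x y ↔ Fr m x y` and `Q (t, i) x ↔ x.len = p.len → (Vals e (R i) (x.add s m)).Countable`
(downward closed by `add_fr`, `vals_mono`; dense by `exists_val` for `x.add s m` and `lift_fr`);
lower bounds of chains: `exists_lb`. For arbitrary `s` use `add_congr` (`r.a n = p.a n` for
`n < m`). -/
theorem exists_stage (he : DenseEmb (Pc D × Fp X) B e) (p : Pc D) (m : ℕ) (hm : p.len ≤ m)
    (β : Type u) (hβ : #β < D.K m) (R : β → Ordinal.{u} → B) (hR : ∀ i, Disj (R i)) :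
    ∃ r, Pc.Fr m r p ∧ ∀ (i : β) (s : ∀ n, D.L → D.Kt n),
      (Vals e (R i) (r.add s m)).Countable := by
  classical
  let ext : (∀ n : Fin m, (p.a n → D.Kt n)) → ∀ n, D.L → D.Kt n := fun t n α =>
    if h : n < m ∧ α ∈ p.a n then t ⟨n, h.1⟩ ⟨α, h.2⟩ else Classical.arbitrary (D.Kt n)
  obtain ⟨z, hz1, hz2⟩ := exists_dist (P := Pc D) (fun x y => Pc.Fr m x y) (Pc.Fr.refl m)
    (fun _ _ _ h h' => h.trans h') (D.unc m).le
    (fun ι g h1 h2 h3 => exists_lb m ι g h1 h2 h3)
    ((∀ n : Fin m, (p.a n → D.Kt n)) × β)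
    (by
      rw [mk_prod, lift_id, lift_id]
      exact mul_lt_of_lt (D.unc m).le (mk_stems p.a p.ha m) hβ)
    (fun t x => x.len = p.len → (Vals e (R t.2) (x.add (ext t.1) m)).Countable)
    (by
      intro t x y hxy hy hx
      have h1 := add_fr hxy (ext t.1)
      exact Set.Countable.mono (vals_mono h1.le h1.1) (hy (hxy.1.symm.trans hx)))
    p
    (by
      intro t x hx
      have hxl : x.len ≤ m := hx.1.le.trans hm
      obtain ⟨r, hr1, hr2⟩ := exists_val he (hR t.2) (x.add (ext t.1) m)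
      rw [Pc.add_len hxl] at hr1
      obtain ⟨p', hp1, hp2⟩ := lift_fr hxl (ext t.1) hr1
      exact ⟨p', hp1, fun _ => Set.Countable.mono (vals_mono hp2.le hp2.1) hr2⟩)
  refine ⟨z, hz1, ?_⟩
  intro i s
  have h1 := hz2 (fun n α => s n α.1, i) hz1.1
  have h2 : z.add s m = z.add (ext (fun n α => s n α.1)) m := by
    apply add_congr
    intro n _ hn2 α hα
    have h3 : α ∈ p.a n := by
      rw [← (hz1.2.2.1 n hn2).1]
      exact hα
    simp only [ext]
    rw [dif_pos ⟨hn2, h3⟩]
  rw [h2]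
  exact h1

end PG
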