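import Pool.Agent.H92.PG.Base
import Pool.Agent.H92.PK.Hom

/-!
# ULT: strongly compact cardinals are strong limits
-/

set_option autoImplicit false

universe u v

open Cardinal Order

namespace PG

open PK BV

/-- The sets `S ⊆ κ` (`κ.ord.ToType`) with `#Sᶜ < κ` form a proper `κ`-complete filter
(`κ` is regular: `card_iUnion_lt_iff_forall_of_isRegular`). A `κ`-complete ultrafilter `U` below it
is nonprincipal since `{x}ᶜ ∈ U`. (`PK.IsMeasurable`, `PK.IsMeas` are in `PK/Hom.lean`.) -/
theorem IsStrComp.measurable {κ : Cardinal.{u}} (h : IsStrComp κ) : IsMeasurable κ := by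
  obtain ⟨hunc, hreg, hU⟩ := h
  let F : Filter κ.ord.ToType :=
    { sets := {A | #(Aᶜ : Set κ.ord.ToType) < κ}
      univ_sets := by
        simpa using aleph0_pos.trans hunc
      sets_of_superset := by
        intro A A' hA hAA'
        exact (mk_le_mk_of_subset (Set.compl_subset_compl.2 hAA')).trans_lt hA
      inter_sets := by
        intro A A' hA hA'
        change #((A ∩ A')ᶜ : Set κ.ord.ToType) < κ
        rw [Set.compl_inter]
        exact (mk_union_le _ _).trans_lt (add_lt_of_lt hunc.le hA hA') }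
  have hmem : ∀ A : Set κ.ord.ToType, A ∈ F ↔ #(Aᶜ : Set κ.ord.ToType) < κ := fun A => Iff.rfl
  have hne : F.NeBot := by
    rw [Filter.neBot_iff]
    intro hb
    have h0 : (∅ : Set κ.ord.ToType) ∈ F := by
      rw [hb]
      exact Filter.mem_bot
    rw [hmem, Set.compl_empty, mk_univ] at h0
    simp at h0
  have hcomp : KComplete κ F := by
    intro ι A hι hA
    rw [hmem, Set.compl_iInter]
    exact (card_iUnion_lt_iff_forall_of_isRegular hreg hι).2 hA
  obtain ⟨U, hUF, hUc⟩ := hU _ F hne hcomp
  refine ⟨hunc, U, hUc, fun x hx => ?_⟩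
  have h1 : ({x}ᶜ : Set κ.ord.ToType) ∈ F := by
    rw [hmem, compl_compl]
    simpa using one_lt_aleph0.trans hunc
  exact Ultrafilter.compl_notMem_iff.2 hx (hUF h1)

/-- `PK.IsMeas.two_power_lt` -/
theorem IsStrComp.two_power_lt {κ : Cardinal.{u}} (h : IsStrComp κ) {c : Cardinal.{u}}
    (hc : c < κ) : 2 ^ c < κ := by
  obtain ⟨_, V, hV⟩ := h.measurable
  exact hV.two_power_lt (by simp) hc

end PG
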