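import Pool.Agent.H92.PG.Bas
import Pool.Agent.H92.PG.Dis
import Pool.Agent.H92.PG.Lbf

/-!
# VAL: countably many values
-/

set_option autoImplicit false

universe u v

open Cardinal Order

namespace PG

open PK BV

variable {D : Dat.{u}} {X B : Type u} [CompleteBooleanAlgebra B] {e : Pc D × Fp X → B}

/-- pairs of a condition and a partial `ω₁`-sequence of incompatible decisions -/
def ValOk (e : Pc D × Fp X → B) (R : Ordinal.{u} → B) {T : Type u}
    (x : Pc D × (T → Option (Fp X × Ordinal.{u}))) : Prop :=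
  (∀ t v, x.2 t = some v → e (x.1, v.1) ≤ R v.2) ∧
    ∀ t t' v v', t ≠ t' → x.2 t = some v → x.2 t' = some v' → ¬ ∃ r, r ≤ v.1 ∧ r ≤ v'.1

theorem val_aleph_one (D : Dat.{u}) (n : ℕ) : (ℵ_ 1 : Cardinal.{u}) < D.K n := by
  have h4 : (ℵ_ 1 : Cardinal.{u}) ≤ 2 ^ (ℵ₀ : Cardinal.{u}) := by
    rw [← succ_aleph0]
    exact succ_le_of_lt (cantor _)
  exact h4.trans_lt (D.lim n _ (D.unc n))

/-- Suppose that for every `r` with `Fr p.len r p` the set `Vals e R r` is uncountable. Let `P` be
the type of all pairs `(r, A)`, `r : Pc D`, `A : T → Option (Fp X × Ordinal)`,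
`T = (ℵ₁ : Cardinal.{u}).ord.ToType` (cardinality `ℵ₁ < K p.len`: `ℵ₁ ≤ 2 ^ ℵ₀ < K p.len`), such that
`A t = some (q, ξ)` implies `e (r, q) ≤ R ξ`, and for `t ≠ t'`, `A t = some (q, ξ)`,
`A t' = some (q', ξ')` the finite functions `q`, `q'` have no common extension; with
`rel (r', A') (r, A)` iff `Fr p.len r' r` and `A'` extends `A`. Chains of size `< K p.len` have lower
bounds by `exists_lb` and unions (`he.mono`). For `t : T` the set of the pairs with `A t ≠ none` is
dense below `(p, none)`: given `(r, A)` with `A t = none`, the set of the `t'` with `A t' ≠ none` is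
countable by `Fp.ccc`, so there is `ξ ∈ Vals e R r` which is different from the values of `A`, given
by `r' ≤ r`, `q`; by `norm` we may assume `Fr r.len r' r`. If `A t' = some (q', ξ')` and `q`, `q'` had a
common extension `q''` then `e (r', q'') ≤ R ξ ⊓ R ξ' = ⊥`, a contradiction. Put `A t = (q, ξ)`.
Now `exists_dist` gives a pair `(r, A)` with `A t ≠ none` for all `t`, which contradicts
`Fp.ccc`. -/
theorem exists_val (he : DenseEmb (Pc D × Fp X) B e) {R : Ordinal.{u} → B} (hR : Disj R)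
    (p : Pc D) : ∃ r, Pc.Fr p.len r p ∧ (Vals e R r).Countable := by
  classical
  by_contra hcon
  push Not at hcon
  set T : Type u := (ℵ_ 1 : Cardinal.{u}).ord.ToType with hTdef
  have hTc : #T = ℵ_ 1 := by rw [hTdef, mk_ord_toType]
  let P : Type (u + 1) := {x : Pc D × (T → Option (Fp X × Ordinal.{u})) // ValOk e R x}
  let rel : P → P → Prop := fun x y =>
    Pc.Fr p.len x.1.1 y.1.1 ∧ ∀ t v, y.1.2 t = some v → x.1.2 t = some v
  have hr : ∀ x, rel x x := fun x => ⟨Pc.Fr.refl _ _, fun _ _ h => h⟩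
  have ht : ∀ x y z, rel x y → rel y z → rel x z := fun x y z h h' =>
    ⟨h.1.trans h'.1, fun t v hv => h.2 t v (h'.2 t v hv)⟩
  have hc : ∀ (ι : Type u) (g : ι → P), #ι < D.K p.len → Nonempty ι →
      (∀ i j, rel (g i) (g j) ∨ rel (g j) (g i)) → ∃ z, ∀ i, rel z (g i) := by
    intro ι g hι hne hcomp
    obtain ⟨z, hz⟩ := exists_lb p.len ι (fun i => (g i).1.1) hι hne
      (fun i j => (hcomp i j).imp (fun h => h.1) (fun h => h.1))
    have hA : ∀ t i j v v', (g i).1.2 t = some v → (g j).1.2 t = some v' → v = v' := by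
      intro t i j v v' h1 h2
      rcases hcomp i j with h | h
      · exact Option.some_injective _ (h1.symm.trans (h.2 t v' h2))
      · exact Option.some_injective _ ((h.2 t v h1).symm.trans h2)
    have hU : ∀ i t v, (g i).1.2 t = some v → ufun (fun i => (g i).1.2) t = some v :=
      fun i t v h => ufun_of_some (g := fun i => (g i).1.2) (hA t) h
    have hU' : ∀ t v, ufun (fun i => (g i).1.2) t = some v → ∃ i, (g i).1.2 t = some v := by
      intro t v h
      obtain ⟨i, hi⟩ := ufun_ne_none (g := fun i => (g i).1.2) (α := t) (by rw [h]; simp)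
      obtain ⟨v', hv'⟩ := Option.ne_none_iff_exists'.1 hi
      refine ⟨i, ?_⟩
      rw [hv', ← h, hU i t v' hv']
    refine ⟨⟨(z, ufun fun i => (g i).1.2), ?_, ?_⟩, fun i => ⟨hz i, fun t v h => hU i t v h⟩⟩
    · intro t v h
      obtain ⟨i, hi⟩ := hU' t v h
      refine (he.mono _ _ ?_).trans ((g i).2.1 t v hi)
      exact ⟨(hz i).le, le_rfl⟩
    · intro t t' v v' hne h h'
      obtain ⟨i, hi⟩ := hU' t v h
      obtain ⟨j, hj⟩ := hU' t' v' h'
      rcases hcomp i j with h | h
      · exact (g i).2.2 t t' v v' hne hi (h.2 t' v' hj)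
      · exact (g j).2.2 t t' v v' hne (h.2 t v hi) hj
  let p0 : P := ⟨(p, fun _ => none), ⟨fun t v h => by simp at h, fun t t' v v' _ h => by simp at h⟩⟩
  have hd : ∀ t x, rel x p0 → ∃ y, rel y x ∧ y.1.2 t ≠ none := by
    rintro t ⟨⟨r, A⟩, hA1, hA2⟩ ⟨hrp, -⟩
    by_cases hAt : A t ≠ none
    · exact ⟨_, hr _, hAt⟩
    push Not at hAt
    have hrp' : Pc.Fr p.len r p := hrp
    -- the domain of `A` is countable
    have hcount : #{t' : T // A t' ≠ none} ≤ ℵ₀ := by
      by_contra hlt
      push Not at hlt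
      choose v hv using fun t' : {t' : T // A t' ≠ none} => Option.ne_none_iff_exists'.1 t'.2
      obtain ⟨i, j, hij, hcom⟩ := Fp.ccc (fun t' => (v t').1) hlt
      exact hA2 i.1 j.1 _ _ (fun h => hij (Subtype.ext h)) (hv i) (hv j) hcom
    -- the set of the values of `A` is countable
    have hvals : {ξ : Ordinal.{u} | ∃ t' q, A t' = some (q, ξ)}.Countable := by
      have h1 : {ξ : Ordinal.{u} | ∃ t' q, A t' = some (q, ξ)} ⊆
          Set.range fun t' : {t' : T // A t' ≠ none} =>
            (Option.get (A t'.1) (Option.isSome_iff_ne_none.2 t'.2)).2 := by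
        rintro ξ ⟨t', q, h⟩
        refine ⟨⟨t', by rw [h]; simp⟩, ?_⟩
        simp [h]
      have : Countable {t' : T // A t' ≠ none} := mk_le_aleph0_iff.1 hcount
      exact (Set.countable_range _).mono h1
    obtain ⟨ξ, hξ, hξA⟩ : ∃ ξ ∈ Vals e R r, ξ ∉ {ξ : Ordinal.{u} | ∃ t' q, A t' = some (q, ξ)} := by
      by_contra h
      push Not at h
      exact hcon r hrp' (hvals.mono h)
    obtain ⟨r', hr', hlen, q, hq⟩ := hξ
    obtain ⟨r'', hr'', hr''r'⟩ := norm hr' hlen
    rw [hrp'.1] at hr''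
    have hq'' : e (r'', q) ≤ R ξ := (he.mono _ _ (show (r'', q) ≤ (r', q) from ⟨hr''r', le_rfl⟩)).trans hq
    have hA1' : ∀ t' v, A t' = some v → e (r'', v.1) ≤ R v.2 := fun t' v h =>
      (he.mono _ _ (show (r'', v.1) ≤ (r, v.1) from ⟨hr''.le, le_rfl⟩)).trans (hA1 t' v h)
    have hinc : ∀ t' v, A t' = some v → ¬ ∃ q', q' ≤ q ∧ q' ≤ v.1 := by
      rintro t' v h ⟨q', h1, h2⟩
      have hne : ξ ≠ v.2 := by
        rintro rfl
        exact hξA ⟨t', v.1, h⟩
      refine he.ne_bot (r'', q') (le_bot_iff.1 ?_)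
      rw [← hR ξ v.2 hne]
      exact le_inf ((he.mono _ _ (show (r'', q') ≤ (r'', q) from ⟨le_rfl, h1⟩)).trans hq'')
        ((he.mono _ _ (show (r'', q') ≤ (r'', v.1) from ⟨le_rfl, h2⟩)).trans (hA1' t' v h))
    have hupd : ∀ t' v, Function.update A t (some (q, ξ)) t' = some v →
        (t' = t ∧ v = (q, ξ)) ∨ (t' ≠ t ∧ A t' = some v) := by
      intro t' v h
      by_cases htt : t' = t
      · subst htt
        rw [Function.update_self] at h
        exact Or.inl ⟨rfl, (Option.some_injective _ h).symm⟩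
      · rw [Function.update_of_ne htt] at h
        exact Or.inr ⟨htt, h⟩
    refine ⟨⟨(r'', Function.update A t (some (q, ξ))), ?_, ?_⟩, ⟨hr'', ?_⟩, ?_⟩
    · intro t' v h
      rcases hupd t' v h with ⟨-, rfl⟩ | ⟨-, h'⟩
      · exact hq''
      · exact hA1' t' v h'
    · intro t1 t2 v1 v2 hne h1 h2
      rcases hupd t1 v1 h1 with ⟨rfl, rfl⟩ | ⟨h3, h4⟩
      · rcases hupd t2 v2 h2 with ⟨rfl, rfl⟩ | ⟨h5, h6⟩
        · exact absurd rfl hne
        · exact hinc t2 v2 h6
      · rcases hupd t2 v2 h2 with ⟨rfl, rfl⟩ | ⟨h5, h6⟩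
        · rintro ⟨q', h7, h8⟩
          exact hinc t1 v1 h4 ⟨q', h8, h7⟩
        · exact hA2 t1 t2 v1 v2 hne h4 h6
    · intro t' v h
      show Function.update A t (some (q, ξ)) t' = some v
      have htt : t' ≠ t := by
        rintro rfl
        have h' : A t' = some v := h
        rw [hAt] at h'
        exact absurd h' (by simp)
      rw [Function.update_of_ne htt]
      exact h
    · show Function.update A t (some (q, ξ)) t ≠ none
      rw [Function.update_self]
      simp
  obtain ⟨⟨⟨r, A⟩, hA1, hA2⟩, -, hz⟩ := exists_dist rel hr ht (D.unc p.len).le hc T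
    (by rw [hTc]; exact val_aleph_one D p.len) (fun t x => x.1.2 t ≠ none)
    (fun t x y hxy hy => by
      obtain ⟨v, hv⟩ := Option.ne_none_iff_exists'.1 hy
      rw [hxy.2 t v hv]
      simp) p0 hd
  choose v hv using fun t : T => Option.ne_none_iff_exists'.1 (hz t)
  obtain ⟨i, j, hij, hcom⟩ := Fp.ccc (fun t => (v t).1) (by
    rw [hTc]
    exact aleph0_lt_aleph_one)
  exact hA2 i j _ _ hij (hv i) (hv j) hcom

end PG
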